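import Pool.Agent.VRB.Defs

/-!
# VRB: differentials, generic polynomials, towers (definitions)

`Om` is the complex vector space of Kaehler differentials of `ℂ` over `ℚ`, `dd x` the differential of
the complex number `x`, `dK K` the span of the differentials of the elements of a subfield `K`.
-/

namespace VRB

open MvPolynomial

/-- the Kaehler differentials of the complex numbers -/
abbrev Om : Type := KaehlerDifferential ℚ ℂ

/-- the differential of a complex number -/
noncomputable def dd (x : ℂ) : Om := KaehlerDifferential.D ℚ ℂ x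

/-- the span of the differentials of the elements of `K` -/
noncomputable def dK (K : Subfield ℂ) : Submodule ℂ Om := Submodule.span ℂ (dd '' (K : Set ℂ))

/-- all coefficients lie in `K` -/
def CoefIn {σ : Type} (K : Subfield ℂ) (F : MvPolynomial σ ℂ) : Prop := ∀ m, coeff m F ∈ K

/-- the differential of the coefficients, evaluated at `z` -/
noncomputable def dc {L : ℕ} (F : MvPolynomial (Fin L) ℂ) (z : Fin L → ℂ) : Om :=
  ∑ m ∈ F.support, (∏ v, z v ^ m v) • dd (coeff m F)

/-- algebraic sets -/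
def IsAlg {m : ℕ} (Y : Set (Fin m → ℂ)) : Prop :=
  ∃ T : Finset (MvPolynomial (Fin m) ℂ), Y = {y | ∀ f ∈ T, eval y f = 0}

/-- `F` is a combination, with coefficients which are algebraically independent over `K`, of
polynomials over `K` which vanish on `Y` and separate up to `R` points outside `Y` -/
def Gen (K : Subfield ℂ) {L : ℕ} (Y : Set (Fin L → ℂ)) (R : ℕ) (F : MvPolynomial (Fin L) ℂ) :
    Prop :=
  ∃ (M : ℕ) (g : Fin M → MvPolynomial (Fin L) ℂ) (a : Fin M → ℂ),
    (∀ k, CoefIn K (g k)) ∧ AlgebraicIndependent K a ∧ F = ∑ k, C (a k) * g k ∧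
    (∀ k, ∀ y ∈ Y, eval y (g k) = 0) ∧
    ∀ S : Finset (Fin L → ℂ), S.card ≤ R → (∀ y ∈ S, y ∉ Y) → ∀ y0 ∈ S,
      ∃ l : Fin M → ℂ, ∀ y ∈ S, ∑ k, l k * eval y (g k) = if y = y0 then 1 else 0

/-- indices of the monomials of the generic polynomial of low degree -/
abbrev Mon (n : ℕ) : Type := (Fin n → Fin 2) × (Fin n → Fin 3)

/-- the monomials: degree at most `1` in the first `n` variables and at most `2` in the next `n` -/
noncomputable def mono (n : ℕ) (p : Mon n) : MvPolynomial (Fin (6 * n + 1)) ℂ :=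
  (∏ i : Fin n, X ⟨i, by omega⟩ ^ (p.1 i : ℕ)) * ∏ i : Fin n, X ⟨n + i, by omega⟩ ^ (p.2 i : ℕ)

/-- generic polynomials of low degree -/
def Low (K : Subfield ℂ) (n : ℕ) (F : MvPolynomial (Fin (6 * n + 1)) ℂ) : Prop :=
  ∃ a : Mon n → ℂ, AlgebraicIndependent K a ∧ F = ∑ p, C (a p) * mono n p

/-- the point with coordinates `x`, `e`, `0` -/
noncomputable def bpt (n : ℕ) (x e : Fin n → Bool) : Fin (6 * n + 1) → ℂ := fun v =>
  if h : (v : ℕ) < n then (if x ⟨v, h⟩ then 1 else 0)
  else if h' : (v : ℕ) - n < n then (if e ⟨v - n, h'⟩ then 1 else 0) else 0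

/-- the hard family: exponential sums of the generic polynomials of low degree -/
noncomputable def fam (Φ : Orc) (n : ℕ) : MvPolynomial ℕ ℂ :=
  ∑ e : Fin n → Bool, bind₁ (bits n n e) (rename (fun v : Fin (6 * n + 1) => (v : ℕ)) (Φ (6 * n + 1)))

/-- the oracle `Φ` is generic over the fields `K L`: level `3 L` is `A L`, level `6 n + 1` is generic
of low degree, level `L = 2 mod 3` is generic in the ideal of the algebraic set `Y L` -/
structure Tower (A Φ : Orc) (K : ℕ → Subfield ℂ) (Y : ∀ L, Set (Fin L → ℂ)) : Prop where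
  mono : ∀ L, K L ≤ K (L + 1)
  coef : ∀ L, CoefIn (K (L + 1)) (Φ L)
  base : ∀ L, CoefIn (K 0) (A L)
  lev0 : ∀ L, Φ (3 * L) = rename (Fin.castLE (by omega)) (A L)
  lev1 : ∀ n, Low (K (6 * n + 1)) n (Φ (6 * n + 1))
  lev4 : ∀ n, Φ (6 * n + 4) = 0
  lev2 : ∀ L, L % 3 = 2 → Gen (K L) (Y L) (2 ^ L) (Φ L)

end VRB
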