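import Pool.Agent.VRB.Alg

/-!
# VRB-AlgSets: operations on algebraic sets

Finite unions, intersections and preimages under polynomial maps of algebraic sets are algebraic.
-/

namespace VRB

open MvPolynomial

theorem isAlg_empty {m : ℕ} : IsAlg (∅ : Set (Fin m → ℂ)) := by
  refine ⟨{1}, ?_⟩
  ext y
  simp

theorem isAlg_univ {m : ℕ} : IsAlg (Set.univ : Set (Fin m → ℂ)) := by
  refine ⟨∅, ?_⟩
  ext y
  simp

theorem isAlg_eq {m : ℕ} (f : MvPolynomial (Fin m) ℂ) : IsAlg {z : Fin m → ℂ | eval z f = 0} := by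
  refine ⟨{f}, ?_⟩
  ext y
  simp

theorem isAlg_union {m : ℕ} {Y Y' : Set (Fin m → ℂ)} (h : IsAlg Y) (h' : IsAlg Y') :
    IsAlg (Y ∪ Y') := by
  classical
  obtain ⟨T, rfl⟩ := h
  obtain ⟨T', rfl⟩ := h'
  refine ⟨(T ×ˢ T').image fun p => p.1 * p.2, ?_⟩
  ext y
  constructor
  · rintro (hy | hy) f hf
    · obtain ⟨⟨a, b⟩, hab, rfl⟩ := Finset.mem_image.1 hf
      rw [Finset.mem_product] at hab
      rw [map_mul, hy a hab.1, zero_mul]
    · obtain ⟨⟨a, b⟩, hab, rfl⟩ := Finset.mem_image.1 hf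
      rw [Finset.mem_product] at hab
      rw [map_mul, hy b hab.2, mul_zero]
  · intro hy
    by_contra hne
    rw [Set.mem_union, not_or] at hne
    obtain ⟨h1, h2⟩ := hne
    have h1' : ∃ a ∈ T, eval y a ≠ 0 := by
      by_contra h3
      push Not at h3
      exact h1 h3
    have h2' : ∃ b ∈ T', eval y b ≠ 0 := by
      by_contra h3
      push Not at h3
      exact h2 h3
    obtain ⟨a, ha, ha0⟩ := h1'
    obtain ⟨b, hb, hb0⟩ := h2'
    have h4 := hy (a * b) (Finset.mem_image.2 ⟨(a, b), Finset.mem_product.2 ⟨ha, hb⟩, rfl⟩)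
    rw [map_mul] at h4
    exact (mul_ne_zero ha0 hb0) h4

theorem isAlg_inter {m : ℕ} {Y Y' : Set (Fin m → ℂ)} (h : IsAlg Y) (h' : IsAlg Y') :
    IsAlg (Y ∩ Y') := by
  classical
  obtain ⟨T, rfl⟩ := h
  obtain ⟨T', rfl⟩ := h'
  refine ⟨T ∪ T', ?_⟩
  ext y
  constructor
  · rintro ⟨h1, h2⟩ f hf
    rcases Finset.mem_union.1 hf with hf | hf
    · exact h1 f hf
    · exact h2 f hf
  · intro hy
    exact ⟨fun f hf => hy f (Finset.mem_union_left _ hf),
      fun f hf => hy f (Finset.mem_union_right _ hf)⟩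

/-- preimages under polynomial maps -/
theorem isAlg_pre {m m' : ℕ} {Y : Set (Fin m → ℂ)} (h : IsAlg Y)
    (p : Fin m → MvPolynomial (Fin m') ℂ) :
    IsAlg {z : Fin m' → ℂ | (fun i => eval z (p i)) ∈ Y} := by
  classical
  obtain ⟨T, rfl⟩ := h
  refine ⟨T.image fun f => bind₁ p f, ?_⟩
  have key : ∀ (z : Fin m' → ℂ) (f : MvPolynomial (Fin m) ℂ),
      eval z (bind₁ p f) = eval (fun i => eval z (p i)) f := by
    intro z f
    exact eval₂Hom_bind₁ (RingHom.id ℂ) z p f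
  ext z
  constructor
  · intro hz g hg
    obtain ⟨f, hf, rfl⟩ := Finset.mem_image.1 hg
    rw [key]
    exact hz f hf
  · intro hz f hf
    rw [← key]
    exact hz _ (Finset.mem_image.2 ⟨f, hf, rfl⟩)

theorem isAlg_finset {m : ℕ} {ι : Type} (s : Finset ι) (Y : ι → Set (Fin m → ℂ))
    (h : ∀ i ∈ s, IsAlg (Y i)) : IsAlg {z | ∃ i ∈ s, z ∈ Y i} := by
  classical
  induction s using Finset.induction_on with
  | empty =>
    have e : {z : Fin m → ℂ | ∃ i ∈ (∅ : Finset ι), z ∈ Y i} = ∅ := by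
      ext z
      simp
    rw [e]
    exact isAlg_empty
  | insert a s ha ih =>
    have e : {z : Fin m → ℂ | ∃ i ∈ insert a s, z ∈ Y i} = Y a ∪ {z | ∃ i ∈ s, z ∈ Y i} := by
      ext z
      simp
    rw [e]
    exact isAlg_union (h a (Finset.mem_insert_self a s))
      (ih fun i hi => h i (Finset.mem_insert_of_mem hi))

end VRB
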