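import Pool.Agent.VRB.ConDef

/-!
# VRB-ConChain: constructible sets and chains of algebraic sets

A constructible set of points is described by a decreasing sequence of algebraic sets (iterated closures of the
set and its complement); the sequence is empty after `m + 2` steps, because a point of the `i`-th set gives a
strict chain of primes of length `i` in the spectrum of the polynomial ring.
-/

namespace VRB

open MvPolynomial

private abbrev CcX (m : ℕ) : Type := PrimeSpectrum (MvPolynomial (Fin m) ℂ)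

/-- alternately the set and its complement -/
private def ccT {m : ℕ} (T : Set (CcX m)) (i : ℕ) : Set (CcX m) := if Even i then T else Tᶜ

/-- iterated closures -/
private def ccD {m : ℕ} (T : Set (CcX m)) : ℕ → Set (CcX m)
  | 0 => Set.univ
  | i + 1 => closure (ccD T i ∩ ccT T i)

private lemma ccT_con {m : ℕ} {T : Set (CcX m)} (h : Topology.IsConstructible T) (i : ℕ) :
    Topology.IsConstructible (ccT T i) := by
  unfold ccT
  split_ifs
  · exact h
  · exact h.compl

private lemma ccT_succ {m : ℕ} {T : Set (CcX m)} {i : ℕ} {x : CcX m} (h : x ∈ ccT T (i + 1)) :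
    x ∉ ccT T i := by
  unfold ccT at *
  by_cases hi : Even i
  · rw [if_pos hi]
    rw [if_neg (by rw [Nat.even_add_one]; exact not_not.2 hi)] at h
    exact h
  · rw [if_neg hi]
    rw [if_pos (by rw [Nat.even_add_one]; exact hi)] at h
    exact not_not.2 h

private lemma ccD_closed {m : ℕ} (T : Set (CcX m)) (i : ℕ) : IsClosed (ccD T i) := by
  cases i with
  | zero => exact isClosed_univ
  | succ i => exact isClosed_closure

/-- points of the closure are specialisations -/
private lemma cc_spec {m : ℕ} {T Z : Set (CcX m)} (hT : Topology.IsConstructible T)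
    (hZ : IsClosed Z) {x : CcX m} (hx : x ∈ closure (Z ∩ T)) : ∃ y ∈ Z ∩ T, y ≤ x := by
  obtain ⟨S, _, f, rfl⟩ := PrimeSpectrum.exists_range_eq_of_isConstructible hT
  have hpre : IsClosed (PrimeSpectrum.comap f ⁻¹' Z) := hZ.preimage (PrimeSpectrum.continuous_comap f)
  obtain ⟨J, hJ⟩ := (PrimeSpectrum.isClosed_iff_zeroLocus_ideal _).1 hpre
  have hsub : Z ∩ Set.range (PrimeSpectrum.comap f) ⊆
      PrimeSpectrum.zeroLocus (J.comap f : Set (MvPolynomial (Fin m) ℂ)) := by
    rintro _ ⟨hz, q, rfl⟩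
    have hq : q ∈ PrimeSpectrum.zeroLocus (J : Set S) := by
      rw [← hJ]
      exact hz
    exact Ideal.comap_mono hq
  have hx' : x ∈ PrimeSpectrum.zeroLocus (J.comap f : Set (MvPolynomial (Fin m) ℂ)) :=
    closure_minimal hsub (PrimeSpectrum.isClosed_zeroLocus _) hx
  obtain ⟨q, hqI, hq, hqle⟩ := x.asIdeal.exists_ideal_comap_le_prime J hx'
  refine ⟨PrimeSpectrum.comap f ⟨q, hq⟩, ⟨?_, ⟨q, hq⟩, rfl⟩, hqle⟩
  have : (⟨q, hq⟩ : PrimeSpectrum S) ∈ PrimeSpectrum.comap f ⁻¹' Z := by
    rw [hJ]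
    exact hqI
  exact this

/-- chains of primes -/
private lemma cc_chain {m : ℕ} {T : Set (CcX m)} (hT : Topology.IsConstructible T) (i : ℕ) :
    ∀ x ∈ ccD T i ∩ ccT T i, ∃ p : LTSeries (CcX m), p.length = i ∧ p.last = x := by
  induction i with
  | zero =>
    intro x _
    exact ⟨RelSeries.singleton _ x, rfl, rfl⟩
  | succ i ih =>
    rintro x ⟨hx1, hx2⟩
    obtain ⟨y, hy, hyx⟩ := cc_spec (ccT_con hT i) (ccD_closed T i) hx1
    obtain ⟨p, hp1, hp2⟩ := ih y hy
    have hne : y ≠ x := by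
      rintro rfl
      exact ccT_succ hx2 hy.2
    have hlt : p.last < x := by
      rw [hp2]
      exact lt_of_le_of_ne hyx hne
    refine ⟨p.snoc x hlt, ?_, ?_⟩
    · show p.length + 1 = i + 1
      rw [hp1]
    · exact RelSeries.last_snoc p x hlt

private lemma cc_empty {m : ℕ} {T : Set (CcX m)} (hT : Topology.IsConstructible T) {i : ℕ}
    (hi : m < i) : ccD T (i + 1) = ∅ := by
  by_contra hne
  obtain ⟨x, hx⟩ := Set.nonempty_iff_ne_empty.2 hne
  obtain ⟨y, hy, -⟩ := cc_spec (ccT_con hT i) (ccD_closed T i) hx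
  obtain ⟨p, hp, -⟩ := cc_chain hT i y hy
  have h1 : (p.length : WithBot ℕ∞) ≤ ringKrullDim (MvPolynomial (Fin m) ℂ) :=
    Order.LTSeries.length_le_krullDim p
  rw [MvPolynomial.ringKrullDim_of_isNoetherianRing, ringKrullDim_eq_zero_of_field, hp, zero_add,
    Nat.card_fin] at h1
  have h2 : i ≤ m := by exact_mod_cast h1
  omega

private lemma cc_alg {m : ℕ} {D : Set (CcX m)} (hD : IsClosed D) : IsAlg {z | spt z ∈ D} := by
  obtain ⟨I, hI⟩ := (PrimeSpectrum.isClosed_iff_zeroLocus_ideal D).1 hD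
  obtain ⟨s, hs⟩ := (isNoetherianRing_iff_ideal_fg _).1
    (inferInstance : IsNoetherianRing (MvPolynomial (Fin m) ℂ)) I
  refine ⟨s, ?_⟩
  ext z
  have h1 : spt z ∈ D ↔ I ≤ RingHom.ker (eval z) := by
    rw [hI]
    exact Iff.rfl
  show spt z ∈ D ↔ ∀ f ∈ s, eval z f = 0
  rw [h1, ← hs, Ideal.span_le]
  constructor
  · intro h f hf
    exact h hf
  · intro h f hf
    exact h f hf

theorem con_chain {m : ℕ} {S : Set (Fin m → ℂ)} (h : Con S) :
    ∃ Z : ℕ → Set (Fin m → ℂ), (∀ i, IsAlg (Z i)) ∧ (∀ i, Z (i + 1) ⊆ Z i) ∧ Z (m + 2) = ∅ ∧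
      ∀ i z, z ∉ Z i → (∀ j < i, z ∈ Z j) → (z ∈ S ↔ Odd i) := by
  obtain ⟨T, hT, hS⟩ := h
  refine ⟨fun i => {z | spt z ∈ ccD T (i + 1)}, fun i => cc_alg (ccD_closed T _), fun i z hz => ?_,
    ?_, fun i z hz hj => ?_⟩
  · have hsub : ccD T (i + 1 + 1) ⊆ ccD T (i + 1) :=
      closure_minimal Set.inter_subset_left (ccD_closed T _)
    exact hsub hz
  · have h0 : ccD T (m + 2 + 1) = ∅ := cc_empty hT (by omega)
    refine Set.eq_empty_iff_forall_notMem.2 fun z hz => ?_
    have hz' : spt z ∈ ccD T (m + 2 + 1) := hz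
    rw [h0] at hz'
    exact hz'
  · have h1 : spt z ∈ ccD T i := by
      cases i with
      | zero => exact Set.mem_univ _
      | succ j => exact hj j (Nat.lt_succ_self j)
    have h2 : spt z ∉ ccT T i := fun h3 => hz (subset_closure ⟨h1, h3⟩)
    rw [hS z]
    unfold ccT at h2
    by_cases hi : Even i
    · rw [if_pos hi] at h2
      exact iff_of_false h2 (Nat.not_odd_iff_even.2 hi)
    · rw [if_neg hi] at h2
      exact iff_of_true (not_not.1 h2) (Nat.not_even_iff_odd.1 hi)

end VRB
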