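import Pool.Agent.VRB.Alg

/-!
# VRB: constructible sets of points (definitions)
-/

namespace VRB

open MvPolynomial

/-- the maximal ideal of a point, as a point of the spectrum -/
noncomputable def spt {m : ℕ} (z : Fin m → ℂ) : PrimeSpectrum (MvPolynomial (Fin m) ℂ) :=
  ⟨RingHom.ker (eval z), RingHom.ker_isPrime _⟩

/-- constructible sets of points -/
def Con {m : ℕ} (S : Set (Fin m → ℂ)) : Prop :=
  ∃ T : Set (PrimeSpectrum (MvPolynomial (Fin m) ℂ)),
    Topology.IsConstructible T ∧ ∀ z, z ∈ S ↔ spt z ∈ T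

end VRB
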