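import Pool.Agent.VRB.Alg

/-!
# VRB-Dcal: calculus of differentials

The map `dd` is a derivation, `dc F z` is additive in `F` and
`dc (C a * g) z = eval z g • dd a + a • dc g z`.
-/

namespace VRB

open MvPolynomial

theorem dd_add (x y : ℂ) : dd (x + y) = dd x + dd y := by
  exact map_add _ x y

theorem dd_sub (x y : ℂ) : dd (x - y) = dd x - dd y := by
  exact map_sub _ x y

theorem dd_mul (x y : ℂ) : dd (x * y) = x • dd y + y • dd x := by
  exact Derivation.leibniz _ x y

theorem dd_zero : dd 0 = 0 := by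
  exact map_zero _

theorem dd_one : dd 1 = 0 := by
  exact Derivation.map_one_eq_zero _

theorem dd_mem {K : Subfield ℂ} {x : ℂ} (h : x ∈ K) : dd x ∈ dK K := by
  exact Submodule.subset_span ⟨x, h, rfl⟩

theorem dK_mono {K K' : Subfield ℂ} (h : K ≤ K') : dK K ≤ dK K' := by
  apply Submodule.span_mono
  rintro _ ⟨x, hx, rfl⟩
  exact ⟨x, h hx, rfl⟩

private theorem dcal_sum {ι : Type*} (s : Finset ι) (f : ι → ℂ) :
    dd (∑ i ∈ s, f i) = ∑ i ∈ s, dd (f i) := by
  exact map_sum _ f s

private theorem dcal_prod {ι : Type*} {S : Submodule ℂ Om} (s : Finset ι) (f : ι → ℂ)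
    (h : ∀ i ∈ s, dd (f i) ∈ S) : dd (∏ i ∈ s, f i) ∈ S := by
  classical
  induction s using Finset.induction_on with
  | empty =>
    rw [Finset.prod_empty, dd_one]
    exact S.zero_mem
  | insert i s hi ih =>
    rw [Finset.prod_insert hi, dd_mul]
    exact S.add_mem (S.smul_mem _ (ih fun j hj => h j (Finset.mem_insert_of_mem hj)))
      (S.smul_mem _ (h i (Finset.mem_insert_self _ _)))

private theorem dcal_pow {S : Submodule ℂ Om} {x : ℂ} (h : dd x ∈ S) (n : ℕ) :
    dd (x ^ n) ∈ S := by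
  induction n with
  | zero =>
    rw [pow_zero, dd_one]
    exact S.zero_mem
  | succ n ih =>
    rw [pow_succ, dd_mul]
    exact S.add_mem (S.smul_mem _ h) (S.smul_mem _ ih)

/-- the differential of a value -/
theorem dd_eval {L : ℕ} (F : MvPolynomial (Fin L) ℂ) (z : Fin L → ℂ) :
    dd (eval z F) - dc F z ∈ Submodule.span ℂ (Set.range fun v => dd (z v)) := by
  rw [MvPolynomial.eval_eq', dcal_sum, dc, ← Finset.sum_sub_distrib]
  apply Submodule.sum_mem
  intro m _
  rw [dd_mul, add_sub_cancel_right]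
  apply Submodule.smul_mem
  apply dcal_prod
  intro v _
  apply dcal_pow
  exact Submodule.subset_span ⟨v, rfl⟩

theorem dc_coefIn {L : ℕ} {K : Subfield ℂ} {F : MvPolynomial (Fin L) ℂ} (h : CoefIn K F)
    (z : Fin L → ℂ) : dc F z ∈ dK K := by
  apply Submodule.sum_mem
  intro m _
  exact Submodule.smul_mem _ _ (dd_mem (h m))

private theorem dcal_sub {L : ℕ} (F : MvPolynomial (Fin L) ℂ) (z : Fin L → ℂ)
    (T : Finset (Fin L →₀ ℕ)) (h : F.support ⊆ T) :
    dc F z = ∑ m ∈ T, (∏ v, z v ^ m v) • dd (coeff m F) := by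
  rw [dc]
  apply Finset.sum_subset h
  intro m _ hm
  rw [notMem_support_iff.1 hm, dd_zero, smul_zero]

private theorem dcal_add {L : ℕ} (F G : MvPolynomial (Fin L) ℂ) (z : Fin L → ℂ) :
    dc (F + G) z = dc F z + dc G z := by
  classical
  rw [dcal_sub (F + G) z (F.support ∪ G.support) support_add,
    dcal_sub F z (F.support ∪ G.support) Finset.subset_union_left,
    dcal_sub G z (F.support ∪ G.support) Finset.subset_union_right, ← Finset.sum_add_distrib]
  refine Finset.sum_congr rfl fun m _ => ?_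
  rw [coeff_add, dd_add, smul_add]

private theorem dcal_zero {L : ℕ} (z : Fin L → ℂ) : dc (0 : MvPolynomial (Fin L) ℂ) z = 0 := by
  simp [dc]

private theorem dcal_fsum {L : ℕ} {ι : Type*} (s : Finset ι) (F : ι → MvPolynomial (Fin L) ℂ)
    (z : Fin L → ℂ) : dc (∑ i ∈ s, F i) z = ∑ i ∈ s, dc (F i) z := by
  classical
  induction s using Finset.induction_on with
  | empty => simp [dcal_zero]
  | insert i s hi ih => rw [Finset.sum_insert hi, dcal_add, ih, Finset.sum_insert hi]

private theorem dcal_C_mul {L : ℕ} (a : ℂ) (g : MvPolynomial (Fin L) ℂ) (z : Fin L → ℂ) :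
    dc (C a * g) z = eval z g • dd a + a • dc g z := by
  have hs : (C a * g).support ⊆ g.support := by
    intro m hm
    rw [mem_support_iff, coeff_C_mul] at hm
    rw [mem_support_iff]
    intro h0
    exact hm (by rw [h0, mul_zero])
  rw [dcal_sub (C a * g) z g.support hs, MvPolynomial.eval_eq', dc, Finset.sum_smul,
    Finset.smul_sum, ← Finset.sum_add_distrib]
  refine Finset.sum_congr rfl fun m _ => ?_
  rw [coeff_C_mul, dd_mul, smul_add, smul_smul, smul_smul, smul_smul, add_comm,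
    mul_comm (coeff m g), mul_comm a]

theorem dc_comb {L M : ℕ} {K : Subfield ℂ} (g : Fin M → MvPolynomial (Fin L) ℂ) (a : Fin M → ℂ)
    (hg : ∀ k, CoefIn K (g k)) (z : Fin L → ℂ) :
    dc (∑ k, C (a k) * g k) z - ∑ k, eval z (g k) • dd (a k) ∈ dK K := by
  rw [dcal_fsum, ← Finset.sum_sub_distrib]
  apply Submodule.sum_mem
  intro k _
  rw [dcal_C_mul, add_sub_cancel_left]
  exact Submodule.smul_mem _ _ (dc_coefIn (hg k) z)

private theorem dcal_mono (n : ℕ) (p : Mon n) (z : Fin (6 * n + 1) → ℂ) :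
    dc (mono n p) z = 0 := by
  have h : mono n p = MvPolynomial.map (algebraMap ℚ ℂ)
      ((∏ i : Fin n, X ⟨i, by omega⟩ ^ (p.1 i : ℕ)) *
        ∏ i : Fin n, X ⟨n + i, by omega⟩ ^ (p.2 i : ℕ)) := by
    rw [mono, map_mul, map_prod, map_prod]
    simp only [map_pow, map_X]
  rw [dc]
  apply Finset.sum_eq_zero
  intro m _
  rw [h, coeff_map]
  have : dd (algebraMap ℚ ℂ (coeff m ((∏ i : Fin n, X ⟨i, by omega⟩ ^ (p.1 i : ℕ)) *
      ∏ i : Fin n, X ⟨n + i, by omega⟩ ^ (p.2 i : ℕ) : MvPolynomial (Fin (6 * n + 1)) ℚ))) = 0 :=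
    Derivation.map_algebraMap _ _
  rw [this, smul_zero]

theorem dc_low {n : ℕ} (a : Mon n → ℂ) (z : Fin (6 * n + 1) → ℂ) :
    dc (∑ p, C (a p) * mono n p) z = ∑ p, eval z (mono n p) • dd (a p) := by
  rw [dcal_fsum]
  refine Finset.sum_congr rfl fun p _ => ?_
  rw [dcal_C_mul, dcal_mono, smul_zero, add_zero]

end VRB
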