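import Pool.Agent.VRB.Dli
import Pool.Agent.VRB.Dcal

/-!
# VRB-GenTest: a generic polynomial does not vanish at `m + 1` points with `m` parameters

If all the `m + 1` values vanish, the evaluation vectors of the differentials of the coefficients lie in
the span of the `m` differentials of the parameters modulo `dK K`, which contradicts the independence of
the coefficients (`dli`) and the separation property of `Gen`.
-/

namespace VRB

open MvPolynomial

theorem gen_test {K : Subfield ℂ} {L : ℕ} {Y : Set (Fin L → ℂ)} {R : ℕ}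
    {F : MvPolynomial (Fin L) ℂ} (h : Gen K Y R F) {m : ℕ} (z : Fin m → ℂ)
    (y : Fin (m + 1) → (Fin L → ℂ)) (hinj : Function.Injective y) (hY : ∀ j, y j ∉ Y)
    (hR : m + 1 ≤ R) (hc : ∀ j v, y j v ∈ K ∨ ∃ i, y j v = z i) : ∃ j, eval (y j) F ≠ 0 := by
  obtain ⟨M, g, a, hg, ha, hF, -, hsep⟩ := h
  by_contra hcon
  push Not at hcon
  -- the values of the linear part lie in the span of the parameters modulo `dK K`
  have hspan : ∀ j, Submodule.span ℂ (Set.range fun v => dd (y j v)) ≤
      Submodule.span ℂ (Set.range fun i => dd (z i)) ⊔ dK K := by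
    intro j
    rw [Submodule.span_le]
    rintro _ ⟨v, rfl⟩
    rcases hc j v with h1 | ⟨i, h1⟩
    · exact Submodule.mem_sup_right (dd_mem h1)
    · apply Submodule.mem_sup_left
      change dd (y j v) ∈ _
      rw [h1]
      exact Submodule.subset_span ⟨i, rfl⟩
  have hW : ∀ j, ∑ k, eval (y j) (g k) • dd (a k) ∈
      Submodule.span ℂ (Set.range fun i => dd (z i)) ⊔ dK K := by
    intro j
    have h1 := hspan j (dd_eval F (y j))
    rw [hcon j, dd_zero, zero_sub] at h1
    have h2 : dc F (y j) - ∑ k, eval (y j) (g k) • dd (a k) ∈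
        Submodule.span ℂ (Set.range fun i => dd (z i)) ⊔ dK K := by
      rw [hF]
      exact Submodule.mem_sup_right (dc_comb g a hg (y j))
    have h3 := Submodule.neg_mem _ (Submodule.add_mem _ h1 h2)
    have h4 : -(-dc F (y j) + (dc F (y j) - ∑ k, eval (y j) (g k) • dd (a k))) =
        ∑ k, eval (y j) (g k) • dd (a k) := by
      abel
    rwa [h4] at h3
  have hA : ∀ j, ∃ (A : Fin m → ℂ) (r : Om), r ∈ dK K ∧
      ∑ k, eval (y j) (g k) • dd (a k) = ∑ i, A i • dd (z i) + r := by
    intro j
    obtain ⟨u, hu, r, hr, hur⟩ := Submodule.mem_sup.1 (hW j)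
    obtain ⟨A, hA⟩ := (Submodule.mem_span_range_iff_exists_fun ℂ).1 hu
    exact ⟨A, r, hr, by rw [hA, hur]⟩
  choose A r hr hAr using hA
  -- a nontrivial relation
  obtain ⟨c, hc0, hcne⟩ : ∃ c : Fin (m + 1) → ℂ, (∑ j, c j • A j = 0) ∧ c ≠ 0 := by
    have hker : LinearMap.ker (Fintype.linearCombination ℂ A) ≠ ⊥ := by
      apply LinearMap.ker_ne_bot_of_finrank_lt
      rw [Module.finrank_fin_fun, Module.finrank_fin_fun]
      exact Nat.lt_succ_self m
    obtain ⟨c, hc1, hc2⟩ := Submodule.exists_mem_ne_zero_of_ne_bot hker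
    refine ⟨c, ?_, hc2⟩
    have h1 := LinearMap.mem_ker.1 hc1
    rwa [Fintype.linearCombination_apply] at h1
  have hcA : ∀ i, ∑ j, c j * A j i = 0 := by
    intro i
    have h1 := congrFun hc0 i
    simpa [Finset.sum_apply] using h1
  have hmem : ∑ k, (∑ j, c j * eval (y j) (g k)) • dd (a k) ∈ dK K := by
    have h1 : ∑ k, (∑ j, c j * eval (y j) (g k)) • dd (a k) =
        ∑ j, c j • ∑ k, eval (y j) (g k) • dd (a k) := by
      simp only [Finset.sum_smul, Finset.smul_sum, smul_smul]
      exact Finset.sum_comm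
    have h2 : ∑ j, c j • ∑ k, eval (y j) (g k) • dd (a k) = ∑ j, c j • r j := by
      have h3 : ∑ j, c j • ∑ i, A j i • dd (z i) = 0 := by
        have h4 : ∑ j, c j • ∑ i, A j i • dd (z i) = ∑ i, (∑ j, c j * A j i) • dd (z i) := by
          simp only [Finset.sum_smul, Finset.smul_sum, smul_smul]
          exact Finset.sum_comm
        rw [h4]
        apply Finset.sum_eq_zero
        intro i _
        rw [hcA i, zero_smul]
      calc ∑ j, c j • ∑ k, eval (y j) (g k) • dd (a k)
          = ∑ j, (c j • ∑ i, A j i • dd (z i) + c j • r j) := by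
            refine Finset.sum_congr rfl fun j _ => ?_
            rw [hAr j, smul_add]
        _ = ∑ j, c j • r j := by rw [Finset.sum_add_distrib, h3, zero_add]
    rw [h1, h2]
    exact Submodule.sum_mem _ fun j _ => Submodule.smul_mem _ _ (hr j)
  have hrel : ∀ k, ∑ j, c j * eval (y j) (g k) = 0 := dli ha _ hmem
  apply hcne
  funext j0
  classical
  have hS : (Finset.univ.image y).card ≤ R :=
    le_trans Finset.card_image_le (by simpa using hR)
  obtain ⟨l, hl⟩ := hsep (Finset.univ.image y) hS
    (by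
      intro y' hy'
      obtain ⟨j, -, rfl⟩ := Finset.mem_image.1 hy'
      exact hY j)
    (y j0) (Finset.mem_image_of_mem y (Finset.mem_univ j0))
  have h1 : ∀ j, ∑ k, l k * eval (y j) (g k) = if y j = y j0 then 1 else 0 := fun j =>
    hl (y j) (Finset.mem_image_of_mem y (Finset.mem_univ j))
  have h2 : ∑ j, c j * ∑ k, l k * eval (y j) (g k) = 0 := by
    have h3 : ∑ j, c j * ∑ k, l k * eval (y j) (g k) =
        ∑ k, l k * ∑ j, c j * eval (y j) (g k) := by
      simp only [Finset.mul_sum]
      rw [Finset.sum_comm]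
      refine Finset.sum_congr rfl fun k _ => Finset.sum_congr rfl fun j _ => ?_
      ring
    rw [h3]
    apply Finset.sum_eq_zero
    intro k _
    rw [hrel k, mul_zero]
  have h3 : ∑ j, c j * ∑ k, l k * eval (y j) (g k) = c j0 := by
    rw [Finset.sum_eq_single j0]
    · rw [h1 j0, if_pos rfl, mul_one]
    · intro j _ hj
      rw [h1 j, if_neg (fun he => hj (hinj he)), mul_zero]
    · intro hj
      exact absurd (Finset.mem_univ j0) hj
  rw [h3] at h2
  exact h2


end VRB
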