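import Pool.Agent.VRB.Alg

/-!
# VRB-Deg: the degree of the hard family

## Plan
`Φ (6 n + 1) = ∑ C (a p) * mono n p`; `bind₁ (bits n n e)` of `rename val (mono n p)` is a constant (`0` or `1`) times
`∏ i : Fin n, X i ^ (p.1 i)`, degree at most `n` (each `p.1 i ≤ 1`), variables `X i`, `i < n`
(`vars` of sums, products, powers).
-/

namespace VRB

open MvPolynomial

private theorem bind_rename {n : ℕ} (e : Fin n → Bool) (p : Mon n) :
    bind₁ (bits n n e) (rename (fun v : Fin (6 * n + 1) => (v : ℕ)) (mono n p)) =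
      C (∏ i : Fin n, (if e i then (1 : ℂ) else 0) ^ (p.2 i : ℕ)) *
        ∏ i : Fin n, X (i : ℕ) ^ (p.1 i : ℕ) := by
  have h1 : ∀ i : Fin n, bits n n e (i : ℕ) = X (i : ℕ) := by
    intro i
    unfold bits
    rw [if_pos i.2]
  have h2 : ∀ i : Fin n, bits n n e (n + (i : ℕ)) =
      (C (if e i then (1 : ℂ) else 0) : MvPolynomial ℕ ℂ) := by
    intro i
    unfold bits
    have h3 : n + (i : ℕ) - n = (i : ℕ) := by omega
    have h4 : n + (i : ℕ) - n < n := by omega
    rw [if_neg (by omega), dif_pos h4]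
    have h5 : (⟨n + (i : ℕ) - n, h4⟩ : Fin n) = i := Fin.ext h3
    rw [h5]
    split_ifs <;> simp
  unfold mono
  rw [map_mul, map_mul, map_prod, map_prod, map_prod, map_prod, mul_comm, map_prod]
  congr 1
  · refine Finset.prod_congr rfl fun i _ => ?_
    rw [map_pow, map_pow, rename_X, bind₁_X_right, h2, map_pow]
  · refine Finset.prod_congr rfl fun i _ => ?_
    rw [map_pow, map_pow, rename_X, bind₁_X_right, h1]

theorem fam_deg {A Φ : Orc} {K : ℕ → Subfield ℂ} {Y : ∀ L, Set (Fin L → ℂ)}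
    (hT : Tower A Φ K Y) (n : ℕ) : (fam Φ n).totalDegree ≤ n ∧ ∀ v ∈ (fam Φ n).vars, v < n := by
  obtain ⟨a, -, ha⟩ := hT.lev1 n
  have hd : ∀ p : Mon n, (∏ i : Fin n, X (i : ℕ) ^ (p.1 i : ℕ) : MvPolynomial ℕ ℂ) ∈
      restrictTotalDegree ℕ ℂ n := by
    intro p
    rw [mem_restrictTotalDegree]
    refine (totalDegree_finsetProd _ _).trans ?_
    calc ∑ i : Fin n, (X (i : ℕ) ^ (p.1 i : ℕ) : MvPolynomial ℕ ℂ).totalDegree
        ≤ ∑ _i : Fin n, 1 := by
          refine Finset.sum_le_sum fun i _ => ?_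
          rw [totalDegree_X_pow]
          omega
      _ = n := by simp
  have hv : ∀ p : Mon n, (∏ i : Fin n, X (i : ℕ) ^ (p.1 i : ℕ) : MvPolynomial ℕ ℂ) ∈
      supported ℂ {v : ℕ | v < n} := by
    intro p
    refine Subalgebra.prod_mem _ fun i _ => Subalgebra.pow_mem _ ?_ _
    exact X_mem_supported.2 i.2
  have hfam : fam Φ n = ∑ e : Fin n → Bool, ∑ p : Mon n,
      (a p * ∏ i : Fin n, (if e i then (1 : ℂ) else 0) ^ (p.2 i : ℕ)) •
        (∏ i : Fin n, X (i : ℕ) ^ (p.1 i : ℕ) : MvPolynomial ℕ ℂ) := by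
    unfold fam
    refine Finset.sum_congr rfl fun e _ => ?_
    rw [ha, map_sum, map_sum]
    refine Finset.sum_congr rfl fun p _ => ?_
    rw [map_mul, map_mul, rename_C, bind₁_C_right, bind_rename, ← mul_assoc, ← C_mul,
      smul_eq_C_mul]
  constructor
  · rw [← mem_restrictTotalDegree, hfam]
    exact Submodule.sum_mem _ fun e _ => Submodule.sum_mem _ fun p _ =>
      Submodule.smul_mem _ _ (hd p)
  · have h : fam Φ n ∈ supported ℂ {v : ℕ | v < n} := by
      rw [hfam]
      exact Subalgebra.sum_mem _ fun e _ => Subalgebra.sum_mem _ fun p _ =>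
        Subalgebra.smul_mem _ (hv p) _
    rw [mem_supported] at h
    exact fun v hv => h hv

end VRB
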