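import Pool.Agent.VRB.Alg

/-!
# VRB-FamMem: the hard family is in VNP
-/

namespace VRB

open MvPolynomial

private theorem famMem_mono_deg (n : ℕ) (p : Mon n) : (mono n p).totalDegree ≤ 3 * n := by
  unfold mono
  refine (totalDegree_mul _ _).trans ?_
  have h1 : (∏ i : Fin n, (X ⟨i, by omega⟩ : MvPolynomial (Fin (6 * n + 1)) ℂ) ^
      (p.1 i : ℕ)).totalDegree ≤ n := by
    refine (totalDegree_finsetProd _ _).trans ?_
    calc (∑ i : Fin n, ((X ⟨i, by omega⟩ : MvPolynomial (Fin (6 * n + 1)) ℂ) ^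
        (p.1 i : ℕ)).totalDegree) ≤ ∑ _i : Fin n, 1 := by
          refine Finset.sum_le_sum fun i _ => ?_
          rw [totalDegree_X_pow]
          omega
      _ = n := by simp
  have h2 : (∏ i : Fin n, (X ⟨n + i, by omega⟩ : MvPolynomial (Fin (6 * n + 1)) ℂ) ^
      (p.2 i : ℕ)).totalDegree ≤ 2 * n := by
    refine (totalDegree_finsetProd _ _).trans ?_
    calc (∑ i : Fin n, ((X ⟨n + i, by omega⟩ : MvPolynomial (Fin (6 * n + 1)) ℂ) ^
        (p.2 i : ℕ)).totalDegree) ≤ ∑ _i : Fin n, 2 := by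
          refine Finset.sum_le_sum fun i _ => ?_
          rw [totalDegree_X_pow]
          omega
      _ = 2 * n := by simp [mul_comm]
  omega

private theorem famMem_low_deg {K : Subfield ℂ} {n : ℕ} {F : MvPolynomial (Fin (6 * n + 1)) ℂ}
    (h : Low K n F) : F.totalDegree ≤ 3 * n := by
  obtain ⟨a, -, rfl⟩ := h
  refine (totalDegree_finsetSum _ _).trans ?_
  refine Finset.sup_le fun p _ => ?_
  refine (totalDegree_mul _ _).trans ?_
  rw [totalDegree_C, zero_add]
  exact famMem_mono_deg n p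

private theorem famMem_bits_deg (a b : ℕ) (e : Fin b → Bool) (v : ℕ) :
    (bits a b e v).totalDegree ≤ 1 := by
  unfold bits
  split_ifs
  · rw [totalDegree_X]
  · simp
  · simp
  · simp

private theorem famMem_bind_deg {f : ℕ → MvPolynomial ℕ ℂ} (hf : ∀ v, (f v).totalDegree ≤ 1)
    (p : MvPolynomial ℕ ℂ) : (bind₁ f p).totalDegree ≤ p.totalDegree := by
  have h0 : bind₁ f p = ∑ d ∈ p.support, C (p.coeff d) * ∏ i ∈ d.support, f i ^ d i := by
    show aeval f p = _
    rw [aeval_def, eval₂_eq]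
    rfl
  rw [h0]
  refine (totalDegree_finsetSum _ _).trans ?_
  refine Finset.sup_le fun d hd => ?_
  refine (totalDegree_mul _ _).trans ?_
  rw [totalDegree_C, zero_add]
  refine (totalDegree_finsetProd _ _).trans ?_
  refine le_trans ?_ (le_totalDegree hd)
  rw [Finsupp.sum]
  refine Finset.sum_le_sum fun i _ => ?_
  refine (totalDegree_pow _ _).trans ?_
  calc d i * (f i).totalDegree ≤ d i * 1 := Nat.mul_le_mul_left _ (hf i)
    _ = d i := mul_one _

private theorem famMem_bits_vars {a b : ℕ} {e : Fin b → Bool} {v j : ℕ}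
    (h : j ∈ (bits a b e v).vars) : j < a := by
  unfold bits at h
  split_ifs at h with h1 h2 h3
  · rw [vars_X, Finset.mem_singleton] at h
    omega
  · simp at h
  · simp at h
  · simp at h

private theorem famMem_size (n : ℕ) : 6 * n + 2 ≤ (n + 2) ^ 3 := by
  nlinarith [sq_nonneg n, Nat.zero_le n, Nat.zero_le (n ^ 3)]

private theorem famMem_comp (Φ : Orc) (n : ℕ) :
    Comp Φ ((n + 2) ^ 3) (rename (fun v : Fin (6 * n + 1) => (v : ℕ)) (Φ (6 * n + 1))) := by
  have hs := famMem_size n
  refine ⟨fun i => if (i : ℕ) < 6 * n + 1 then X (i : ℕ) else if (i : ℕ) = 6 * n + 1 then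
    rename (fun v : Fin (6 * n + 1) => (v : ℕ)) (Φ (6 * n + 1)) else C 0,
    ⟨⟨6 * n + 1, by omega⟩, by simp⟩, ?_⟩
  intro i
  by_cases h1 : (i : ℕ) < 6 * n + 1
  · right; left
    exact ⟨(i : ℕ), by simp only [h1, if_true]⟩
  · by_cases h2 : (i : ℕ) = 6 * n + 1
    · right; right; right
      refine ⟨6 * n + 1, fun l => ⟨(l : ℕ), by omega⟩, by omega, ?_, ?_⟩
      · intro l
        rw [Fin.lt_def]
        have := l.isLt
        simp only
        omega
      · simp only [h2, if_true]
        have h3 : (fun l : Fin (6 * n + 1) => if (l : ℕ) < 6 * n + 1 then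
            (X (l : ℕ) : MvPolynomial ℕ ℂ) else if (l : ℕ) = 6 * n + 1 then
            rename (fun v : Fin (6 * n + 1) => (v : ℕ)) (Φ (6 * n + 1)) else C 0) =
            fun l : Fin (6 * n + 1) => (X (l : ℕ) : MvPolynomial ℕ ℂ) := by
          funext l
          rw [if_pos l.isLt]
        rw [h3]
        have h4 : rename (fun v : Fin (6 * n + 1) => (v : ℕ)) (Φ (6 * n + 1)) =
            aeval (fun l : Fin (6 * n + 1) => (X (l : ℕ) : MvPolynomial ℕ ℂ)) (Φ (6 * n + 1)) := by
          have h5 : (rename (fun v : Fin (6 * n + 1) => (v : ℕ)) :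
              MvPolynomial (Fin (6 * n + 1)) ℂ →ₐ[ℂ] MvPolynomial ℕ ℂ) =
              aeval (fun l : Fin (6 * n + 1) => (X (l : ℕ) : MvPolynomial ℕ ℂ)) := by
            ext l
            simp
          rw [h5]
        rw [h4]
        simp
    · left
      exact ⟨0, by simp only [h1, h2, if_false]⟩

theorem fam_mem {A Φ : Orc} {K : ℕ → Subfield ℂ} {Y : ∀ L, Set (Fin L → ℂ)}
    (hT : Tower A Φ K Y) : InVNP Φ (fam Φ) := by
  classical
  have hdeg : ∀ n, (rename (fun v : Fin (6 * n + 1) => (v : ℕ)) (Φ (6 * n + 1))).totalDegree ≤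
      3 * n := fun n => (totalDegree_rename_le _ _).trans (famMem_low_deg (hT.lev1 n))
  refine ⟨⟨3, fun n => ⟨?_, ?_⟩⟩, fun n => rename (fun v : Fin (6 * n + 1) => (v : ℕ))
    (Φ (6 * n + 1)), fun n => n, fun n => n, ⟨⟨3, fun n => ⟨?_, ?_⟩⟩, ⟨3, fun n => ?_⟩⟩,
    ⟨3, fun n => ?_⟩, fun n => rfl⟩
  · have hs := famMem_size n
    unfold fam
    refine (totalDegree_finsetSum _ _).trans ?_
    refine Finset.sup_le fun e _ => ?_
    refine (famMem_bind_deg (famMem_bits_deg n n e) _).trans ?_
    exact (hdeg n).trans (by omega)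
  · intro v hv
    have hs := famMem_size n
    unfold fam at hv
    have h1 := vars_sum_subset _ _ hv
    rw [Finset.mem_biUnion] at h1
    obtain ⟨e, -, he⟩ := h1
    obtain ⟨i, -, hi⟩ := mem_vars_bind₁ _ _ he
    have := famMem_bits_vars hi
    omega
  · have hs := famMem_size n
    exact (hdeg n).trans (by omega)
  · intro v hv
    have hs := famMem_size n
    have h1 := vars_rename _ _ hv
    rw [Finset.mem_image] at h1
    obtain ⟨i, -, rfl⟩ := h1
    have := i.isLt
    omega
  · exact famMem_comp Φ n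
  · have hs := famMem_size n
    constructor <;> simp only <;> omega

end VRB
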