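import Pool.Agent.VRB.NpP
import Pool.Agent.VRB.TowerEx
import Pool.Agent.VRB.Lower
import Pool.Agent.VRB.FamMem

/-!
# VRB-Final: the theorem
-/

namespace VRB

open MvPolynomial

theorem main (A : Orc) : ∃ Φ : Orc, (∀ L, Φ (3 * L) = rename (Fin.castLE (by omega)) (A L)) ∧
    (∀ B, InNP Φ B ↔ InP Φ B) ∧ ∃ f, InVNP Φ f ∧ ¬ InVP Φ f ∧
      ∀ n s, s * (s + 1) < 2 ^ n → ¬ Comp Φ s (f n) := by
  obtain ⟨Φ, K, hT⟩ := tower_exists A Yset yset_alg yset_congr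
  exact ⟨Φ, hT.lev0, fun B => ⟨np_p hT, p_np⟩, fam Φ, fam_mem hT, not_inVP hT,
    fun n s hs => lower hT hs⟩

end VRB
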