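import Pool.Agent.VRB.TDef
import Pool.Agent.VRB.Indep

/-!
# VRB-TEx: existence of the second oracle

A countable field `K0` contains the coefficients of all `A L`, there is a family of algebraically
independent numbers over `K0` indexed by the countable type `Ix`, and the levels of the oracle are
defined separately.
-/

namespace VRB

open MvPolynomial

theorem exists_indep_ix (K : Subfield ℂ) (hK : (K : Set ℂ).Countable) :
    ∃ a : Ix → ℂ, AlgebraicIndependent K a := by
  obtain ⟨s, hs⟩ := exists_isTranscendenceBasis K ℂ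
  have hKc : Cardinal.mk K ≤ Cardinal.aleph0 := Cardinal.le_aleph0_iff_set_countable.mpr hK
  have hinf : Infinite s := by
    by_contra hfin
    rw [not_infinite_iff_finite] at hfin
    have h1 : Algebra.IsAlgebraic (Algebra.adjoin K (Set.range (Subtype.val : s → ℂ))) ℂ :=
      hs.isAlgebraic
    have h2 := Algebra.cardinalMk_adjoin_le K (Set.range (Subtype.val : s → ℂ))
    have h3 : Cardinal.mk (Set.range (Subtype.val : s → ℂ)) ≤ Cardinal.aleph0 :=
      Cardinal.le_aleph0_iff_set_countable.mpr (Set.countable_range _)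
    have h4 : Cardinal.mk (Algebra.adjoin K (Set.range (Subtype.val : s → ℂ))) ≤
        Cardinal.aleph0 := h2.trans (max_le (max_le hKc h3) le_rfl)
    have h5 := Algebra.IsAlgebraic.cardinalMk_le_max
      (Algebra.adjoin K (Set.range (Subtype.val : s → ℂ))) ℂ
    have h6 : Cardinal.mk ℂ ≤ Cardinal.aleph0 := h5.trans (max_le h4 le_rfl)
    rw [Cardinal.mk_complex] at h6
    exact absurd h6 (not_le.mpr Cardinal.aleph0_lt_continuum)
  obtain ⟨f, hf⟩ := exists_injective_nat Ix
  exact ⟨(Subtype.val : s → ℂ) ∘ (fun i => Infinite.natEmbedding s (f i)),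
    hs.1.comp _ ((Infinite.natEmbedding s).injective.comp hf)⟩

private theorem tex_level (A : Orc) (a : Ix → ℂ) (L : ℕ) : ∃ F : MvPolynomial (Fin L) ℂ,
    (∀ (M : ℕ) (h : 3 * M = L), F = h ▸ (rename (Fin.castLE (by omega)) (A M) :
      MvPolynomial (Fin (3 * M)) ℂ)) ∧
    (∀ (n : ℕ) (h : 6 * n + 1 = L), F = h ▸ (∑ p : Mon n, C (a ⟨6 * n + 1, lex n p⟩) * mono n p :
      MvPolynomial (Fin (6 * n + 1)) ℂ)) ∧
    (∀ n : ℕ, 6 * n + 4 = L → F = 0) ∧
    (L % 3 = 2 → F = ∑ m : Fin L → Fin (2 ^ L + 1),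
      C (a ⟨L, fun i => (m i : ℕ)⟩) * ∏ i, X i ^ (m i : ℕ)) := by
  have h3 : L % 3 = 0 ∨ L % 3 = 1 ∨ L % 3 = 2 := by omega
  rcases h3 with h | h | h
  · obtain ⟨M, rfl⟩ : ∃ M, 3 * M = L := ⟨L / 3, by omega⟩
    refine ⟨rename (Fin.castLE (by omega)) (A M), ?_, ?_, ?_, ?_⟩
    · intro M' hM'
      obtain rfl : M' = M := by omega
      rfl
    · intro n hn
      omega
    · intro n hn
      omega
    · intro h'
      omega
  · by_cases h6 : L % 6 = 1
    · obtain ⟨n, rfl⟩ : ∃ n, 6 * n + 1 = L := ⟨L / 6, by omega⟩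
      refine ⟨∑ p : Mon n, C (a ⟨6 * n + 1, lex n p⟩) * mono n p, ?_, ?_, ?_, ?_⟩
      · intro M' hM'
        omega
      · intro n' hn'
        obtain rfl : n' = n := by omega
        rfl
      · intro n' hn'
        omega
      · intro h'
        omega
    · refine ⟨0, ?_, ?_, fun _ _ => rfl, ?_⟩
      · intro M' hM'
        omega
      · intro n' hn'
        omega
      · intro h'
        omega
  · refine ⟨∑ m : Fin L → Fin (2 ^ L + 1),
      C (a ⟨L, fun i => (m i : ℕ)⟩) * ∏ i, X i ^ (m i : ℕ), ?_, ?_, ?_, fun _ => rfl⟩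
    · intro M' hM'
      omega
    · intro n' hn'
      omega
    · intro n' hn'
      omega

theorem tw_exists (A : Orc) : ∃ (Φ : Orc) (K0 : Subfield ℂ) (a : Ix → ℂ), Tw A Φ K0 a := by
  have hK1 : ((Subfield.closure (∅ : Set ℂ) : Subfield ℂ) : Set ℂ).Countable := by
    have h1 := Subfield.cardinalMk_closure_le_max (∅ : Set ℂ)
    have h2 : Cardinal.mk ↥(∅ : Set ℂ) ≤ Cardinal.aleph0 :=
      Cardinal.le_aleph0_iff_set_countable.mpr Set.countable_empty
    exact Cardinal.le_aleph0_iff_set_countable.mp (h1.trans (max_le h2 le_rfl))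
  obtain ⟨K0, _, hS, hK0⟩ := field_ext _ hK1
    (Set.range (fun p : (Σ L : ℕ, (Fin L →₀ ℕ)) => coeff p.2 (A p.1))) (Set.countable_range _)
  obtain ⟨a, ha⟩ := exists_indep_ix K0 hK0
  choose Φ h0 h1 h4 h2 using tex_level A a
  exact ⟨Φ, K0, a, hK0, ha, fun L m => hS ⟨⟨L, m⟩, rfl⟩, fun L => h0 (3 * L) L rfl,
    fun n => h1 (6 * n + 1) n rfl, fun n => h4 (6 * n + 4) n rfl, fun L hL => h2 L hL⟩

end VRB
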