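import Pool.Agent.VRB.TDef

/-!
# VRB-TSep: the monomials of the box separate points

## Plan
`L` variables, exponents at most `2 ^ L` in each variable. For `y ∈ S`, `y ≠ y0`, choose a coordinate `v` with
`y v ≠ y0 v`; `G = ∏ y ∈ S.erase y0, (X v - C (y v))`, scaled such that `G(y0) = 1`: product of at most
`S.card - 1 < 2 ^ L` factors, so the degree in each variable (`degreeOf`) is at most `2 ^ L`; its coefficients
`l m = coeff m G` (as a finsupp) have the property: `eval y G = ∑ m ∈ support, coeff m G * ∏ y ^ m`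
(`eval_eq'`), the support lies in the box (`degreeOf_le_iff`/`le_degreeOf...`), reindex by
`m : Fin L → Fin (2 ^ L + 1)`.
-/

namespace VRB

open MvPolynomial

theorem box_sep {L : ℕ} (S : Finset (Fin L → ℂ)) (hS : S.card ≤ 2 ^ L) (y0 : Fin L → ℂ)
    (h0 : y0 ∈ S) : ∃ l : (Fin L → Fin (2 ^ L + 1)) → ℂ, ∀ y ∈ S,
      ∑ m, l m * ∏ i, y i ^ (m i : ℕ) = if y = y0 then 1 else 0 := by
  classical
  let g : (Fin L → ℂ) → MvPolynomial (Fin L) ℂ := fun y =>
    if h : ∃ v, y v ≠ y0 v then X h.choose - C (y h.choose) else 1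
  have hg1 : ∀ y, y ≠ y0 → eval y (g y) = 0 := by
    intro y hy
    have h : ∃ v, y v ≠ y0 v := Function.ne_iff.1 hy
    simp only [g]
    rw [dif_pos h]
    simp
  have hg2 : ∀ y, eval y0 (g y) ≠ 0 := by
    intro y
    simp only [g]
    by_cases h : ∃ v, y v ≠ y0 v
    · rw [dif_pos h]
      have := h.choose_spec
      simp only [map_sub, eval_X, eval_C]
      exact sub_ne_zero.2 (Ne.symm this)
    · rw [dif_neg h]
      simp
  have hg3 : ∀ y, (g y).totalDegree ≤ 1 := by
    intro y
    simp only [g]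
    by_cases h : ∃ v, y v ≠ y0 v
    · rw [dif_pos h]
      refine (totalDegree_sub _ _).trans ?_
      rw [totalDegree_X, totalDegree_C]
      simp
    · rw [dif_neg h]
      simp
  set P : MvPolynomial (Fin L) ℂ := ∏ y ∈ S.erase y0, g y with hPdef
  have hP0 : eval y0 P ≠ 0 := by
    rw [hPdef, eval_prod]
    exact Finset.prod_ne_zero_iff.2 fun y _ => hg2 y
  have hP : ∀ y ∈ S, y ≠ y0 → eval y P = 0 := by
    intro y hy hne
    rw [hPdef, eval_prod]
    exact Finset.prod_eq_zero (Finset.mem_erase.2 ⟨hne, hy⟩) (hg1 y hne)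
  have hdeg : P.totalDegree ≤ 2 ^ L := by
    rw [hPdef]
    refine (totalDegree_finsetProd _ _).trans ?_
    refine (Finset.sum_le_card_nsmul _ _ 1 fun y _ => hg3 y).trans ?_
    rw [smul_eq_mul, mul_one]
    exact (Finset.card_erase_le).trans hS
  let e : (Fin L → Fin (2 ^ L + 1)) → (Fin L →₀ ℕ) := fun m =>
    Finsupp.equivFunOnFinite.symm (fun i => (m i : ℕ))
  have he : Function.Injective e := by
    intro m m' h
    have h1 := Finsupp.equivFunOnFinite.symm.injective h
    funext i
    exact Fin.ext (congrFun h1 i)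
  refine ⟨fun m => (eval y0 P)⁻¹ * coeff (e m) P, fun y hy => ?_⟩
  have key : ∑ m, coeff (e m) P * ∏ i, y i ^ (m i : ℕ) = eval y P := by
    rw [eval_eq']
    have h1 : ∑ m, coeff (e m) P * ∏ i, y i ^ (m i : ℕ) =
        ∑ d ∈ Finset.univ.map ⟨e, he⟩, coeff d P * ∏ i, y i ^ d i := by
      rw [Finset.sum_map]
      rfl
    rw [h1]
    symm
    apply Finset.sum_subset
    · intro d hd
      rw [Finset.mem_map]
      have hd1 : ∀ i, d i ≤ 2 ^ L := by
        intro i
        have h2 := le_totalDegree hd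
        refine le_trans ?_ (h2.trans hdeg)
        by_cases hi : i ∈ d.support
        · exact Finset.single_le_sum (f := fun j => d j) (fun _ _ => Nat.zero_le _) hi
        · rw [Finsupp.notMem_support_iff.1 hi]
          exact Nat.zero_le _
      refine ⟨fun i => ⟨d i, Nat.lt_succ_of_le (hd1 i)⟩, Finset.mem_univ _, ?_⟩
      ext i
      rfl
    · intro d _ hd
      rw [notMem_support_iff.1 hd, zero_mul]
  have h2 : ∑ m, (eval y0 P)⁻¹ * coeff (e m) P * ∏ i, y i ^ (m i : ℕ) =
      (eval y0 P)⁻¹ * eval y P := by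
    rw [← key, Finset.mul_sum]
    exact Finset.sum_congr rfl fun m _ => mul_assoc _ _ _
  rw [h2]
  split_ifs with h
  · rw [h]
    exact inv_mul_cancel₀ hP0
  · rw [hP y hy h, mul_zero]

end VRB
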