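import Pool.Agent.VRB.TGood
import Pool.Agent.VRB.TSep
import Pool.Agent.VRB.Indep

/-!
# VRB-TCmp: the two inputs

## Plan
`F = Fld K0 a C n T`, `P = pd a`, `R = 2 ^ (6 n + 2)`.
`low`: coefficients of `Φ L`, `L ≤ T`, `L` not one of the two levels, are in `F` (cases of `L` modulo `6`; for
`3 M` in `K0`). `val`: `eval z (Φ L) = ∑ m, a m * ∏ z ^ m` (`lev2`), `dd_mul`, `dd (∏ z ^ m) ∈ span (dd (z v))`.
`G` = field generated by `F` and all `a i`: countable. `ξ` transcendental over `G`, even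
`AlgebraicIndependent G (fun _ : Fin 1 => ξ)` (`exists_indep`), so `dd ξ ∉ dK G` (`dli`). `ind`: the sum is
`x • dd ξ + ∑ i β i • dd (a i)`, where `β` collects `∑ q ∈ S, c q * ∏ q.2 ^ m` for the indices of the two levels;
all `dd (a i)` and `dK F` are in `dK G`, so `x = 0`; then `β = 0` by `hg`; for each of the two levels `L` the points
`z` with `⟨L, z⟩ ∈ S` are at most `R ≤ 2 ^ L` many, so `box_sep` gives `c q = 0`.
`κ`: the polynomial `V(y) = ∑ k ≤ 2 ^ L, a_(k, 0, .., 0) y ^ k` (`L = 6 n + 2`; terms with a positive exponent of a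
variable other than the first one vanish at `pt L y`) has positive degree (`a i ≠ 0`), so it has a root
`κ` (`IsAlgClosed.exists_root`): `0 = dd (V κ) = V'(κ) • dd κ + pd a ⟨L, pt L κ⟩`; `V'(κ) ≠ 0`, since `pd a ⟨L, pt L κ⟩ ≠ 0`
by `ind` (`S` = one query). `r = -V'(κ)⁻¹`. `ω = W κ`: `dd ω = W'(κ) • dd κ + pd a ⟨6 n + 5, pt _ κ⟩`.
Last property: if `V(y) = 0` then `y` is algebraic over `G`, so is `W(y)`; but `ξ` is transcendental over `G`.
-/

namespace VRB

open MvPolynomial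

private theorem cmp_ci_C {σ : Type} {K : Subfield ℂ} {c : ℂ} (hc : c ∈ K) :
    CoefIn K (C c : MvPolynomial σ ℂ) := by
  classical
  intro m
  rw [coeff_C]
  split_ifs
  · exact hc
  · exact K.zero_mem

private theorem cmp_ci_X {σ : Type} {K : Subfield ℂ} (i : σ) :
    CoefIn K (X i : MvPolynomial σ ℂ) := by
  classical
  intro m
  rw [coeff_X']
  split_ifs
  · exact K.one_mem
  · exact K.zero_mem

private theorem cmp_ci_mul {σ : Type} {K : Subfield ℂ} {f g : MvPolynomial σ ℂ}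
    (hf : CoefIn K f) (hg : CoefIn K g) : CoefIn K (f * g) := by
  classical
  intro m
  rw [coeff_mul]
  exact sum_mem fun p _ => K.mul_mem (hf _) (hg _)

private theorem cmp_ci_sum {σ ι : Type} {K : Subfield ℂ} (s : Finset ι)
    (f : ι → MvPolynomial σ ℂ) (hf : ∀ i ∈ s, CoefIn K (f i)) : CoefIn K (∑ i ∈ s, f i) := by
  intro m
  rw [coeff_sum]
  exact sum_mem fun i hi => hf i hi m

private theorem cmp_ci_one {σ : Type} {K : Subfield ℂ} :
    CoefIn K (1 : MvPolynomial σ ℂ) := by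
  rw [← C_1]
  exact cmp_ci_C K.one_mem

private theorem cmp_ci_pow {σ : Type} {K : Subfield ℂ} {f : MvPolynomial σ ℂ}
    (hf : CoefIn K f) (k : ℕ) : CoefIn K (f ^ k) := by
  induction k with
  | zero => rw [pow_zero]; exact cmp_ci_one
  | succ k ih => rw [pow_succ]; exact cmp_ci_mul ih hf

private theorem cmp_ci_prod {σ ι : Type} {K : Subfield ℂ} (s : Finset ι)
    (f : ι → MvPolynomial σ ℂ) (hf : ∀ i ∈ s, CoefIn K (f i)) : CoefIn K (∏ i ∈ s, f i) := by
  classical
  induction s using Finset.induction_on with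
  | empty => rw [Finset.prod_empty]; exact cmp_ci_one
  | insert i s hi ih =>
    rw [Finset.prod_insert hi]
    exact cmp_ci_mul (hf i (Finset.mem_insert_self _ _))
      (ih fun j hj => hf j (Finset.mem_insert_of_mem hj))

private theorem cmp_ci_rename {σ τ : Type} {K : Subfield ℂ} (f : σ → τ)
    (hf : Function.Injective f) {p : MvPolynomial σ ℂ} (hp : CoefIn K p) :
    CoefIn K (rename f p) := by
  intro m
  by_cases h : coeff m (rename f p) = 0
  · rw [h]; exact K.zero_mem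
  · obtain ⟨u, hu, _⟩ := coeff_rename_ne_zero f p m h
    rw [← hu, coeff_rename_mapDomain f hf]
    exact hp u

private theorem cmp_low {A Φ : Orc} {K0 : Subfield ℂ} {a : Ix → ℂ} (h : Tw A Φ K0 a)
    (C' : Finset ℂ) (n T L : ℕ) (hL : L ≤ T) (h2 : L ≠ 6 * n + 2) (h5 : L ≠ 6 * n + 5) :
    CoefIn (Fld K0 a C' n T) (Φ L) := by
  have hK : K0 ≤ Fld K0 a C' n T := fun x hx => Subfield.subset_closure (Or.inl hx)
  have ha : ∀ i : Ix, i.1 = L → a i ∈ Fld K0 a C' n T := by
    intro i hi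
    refine Subfield.subset_closure (Or.inr (Or.inr ⟨i, ⟨?_, ?_, ?_⟩, rfl⟩))
    · rw [hi]; exact hL
    · rw [hi]; exact h2
    · rw [hi]; exact h5
  have h6 : L % 3 = 0 ∨ L % 3 = 2 ∨ L % 6 = 1 ∨ L % 6 = 4 := by omega
  rcases h6 with h6 | h6 | h6 | h6
  · obtain ⟨M, rfl⟩ : ∃ M, L = 3 * M := ⟨L / 3, by omega⟩
    rw [h.lev0 M]
    apply cmp_ci_rename
    · exact Fin.castLE_injective _
    · exact fun m => hK (h.base M m)
  · rw [h.lev2 L h6]
    exact cmp_ci_sum _ _ fun m _ => cmp_ci_mul (cmp_ci_C (ha _ rfl))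
      (cmp_ci_prod _ _ fun i _ => cmp_ci_pow (cmp_ci_X i) _)
  · obtain ⟨M, rfl⟩ : ∃ M, L = 6 * M + 1 := ⟨L / 6, by omega⟩
    rw [h.lev1 M]
    refine cmp_ci_sum _ _ fun p _ => cmp_ci_mul (cmp_ci_C (ha _ rfl)) ?_
    unfold mono
    exact cmp_ci_mul (cmp_ci_prod _ _ fun i _ => cmp_ci_pow (cmp_ci_X _) _)
      (cmp_ci_prod _ _ fun i _ => cmp_ci_pow (cmp_ci_X _) _)
  · obtain ⟨M, rfl⟩ : ∃ M, L = 6 * M + 4 := ⟨L / 6, by omega⟩
    rw [h.lev4 M]
    intro m
    rw [coeff_zero]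
    exact zero_mem _

private theorem cmp_dd_sum {ι : Type*} (s : Finset ι) (f : ι → ℂ) :
    dd (∑ i ∈ s, f i) = ∑ i ∈ s, dd (f i) := by
  exact map_sum _ f s

private theorem cmp_dd_pow {S : Submodule ℂ Om} {x : ℂ} (h : dd x ∈ S) (n : ℕ) :
    dd (x ^ n) ∈ S := by
  induction n with
  | zero =>
    rw [pow_zero, dd_one]
    exact S.zero_mem
  | succ n ih =>
    rw [pow_succ, dd_mul]
    exact S.add_mem (S.smul_mem _ h) (S.smul_mem _ ih)

private theorem cmp_dd_prod {ι : Type*} {S : Submodule ℂ Om} (s : Finset ι) (f : ι → ℂ)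
    (h : ∀ i ∈ s, dd (f i) ∈ S) : dd (∏ i ∈ s, f i) ∈ S := by
  classical
  induction s using Finset.induction_on with
  | empty =>
    rw [Finset.prod_empty, dd_one]
    exact S.zero_mem
  | insert i s hi ih =>
    rw [Finset.prod_insert hi, dd_mul]
    exact S.add_mem (S.smul_mem _ (ih fun j hj => h j (Finset.mem_insert_of_mem hj)))
      (S.smul_mem _ (h i (Finset.mem_insert_self _ _)))

private theorem cmp_val {A Φ : Orc} {K0 : Subfield ℂ} {a : Ix → ℂ} (h : Tw A Φ K0 a) (q : Qr)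
    (hq : q.1 % 3 = 2) :
    dd (eval q.2 (Φ q.1)) - pd a q ∈ Submodule.span ℂ (Set.range fun v => dd (q.2 v)) := by
  have h1 : eval q.2 (Φ q.1) = ∑ m : Fin q.1 → Fin (2 ^ q.1 + 1),
      a ⟨q.1, fun i => (m i : ℕ)⟩ * ∏ i, q.2 i ^ (m i : ℕ) := by
    rw [h.lev2 q.1 hq, map_sum]
    refine Finset.sum_congr rfl fun m _ => ?_
    rw [map_mul, eval_C, map_prod]
    congr 1
    refine Finset.prod_congr rfl fun i _ => ?_
    rw [map_pow, eval_X]
  rw [h1, pd, cmp_dd_sum, ← Finset.sum_sub_distrib]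
  refine Submodule.sum_mem _ fun m _ => ?_
  rw [dd_mul, add_sub_cancel_right]
  exact Submodule.smul_mem _ _ (cmp_dd_prod Finset.univ (fun i => q.2 i ^ (m i : ℕ)) fun i _ =>
    cmp_dd_pow (Submodule.subset_span (Set.mem_range_self i)) _)

/-- the combination of indices which belongs to a query -/
private noncomputable def cmpBe (q : Qr) : Ix →₀ ℂ :=
  ∑ m : Fin q.1 → Fin (2 ^ q.1 + 1), (∏ i, q.2 i ^ (m i : ℕ)) •
    Finsupp.single (⟨q.1, fun i => (m i : ℕ)⟩ : Ix) 1

private theorem cmpBe_lin (a : Ix → ℂ) (q : Qr) :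
    Finsupp.linearCombination ℂ (fun i => dd (a i)) (cmpBe q) = pd a q := by
  rw [cmpBe, pd, map_sum]
  refine Finset.sum_congr rfl fun m _ => ?_
  rw [map_smul, Finsupp.linearCombination_single, one_smul]

private theorem cmpBe_ne (q : Qr) (i : Ix) (h : q.1 ≠ i.1) : cmpBe q i = 0 := by
  classical
  rw [cmpBe, Finsupp.finsetSum_apply]
  refine Finset.sum_eq_zero fun m _ => ?_
  rw [Finsupp.smul_apply, Finsupp.single_apply, if_neg, smul_zero]
  intro he
  exact h (congrArg Sigma.fst he)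

private theorem cmpBe_eq (L : ℕ) (z : Fin L → ℂ) (m : Fin L → Fin (2 ^ L + 1)) :
    cmpBe ⟨L, z⟩ ⟨L, fun i => (m i : ℕ)⟩ = ∏ i, z i ^ (m i : ℕ) := by
  classical
  rw [cmpBe, Finsupp.finsetSum_apply, Finset.sum_eq_single m]
  · rw [Finsupp.smul_apply, Finsupp.single_apply, if_pos rfl, smul_eq_mul, mul_one]
  · intro m' _ hm'
    rw [Finsupp.smul_apply, Finsupp.single_apply, if_neg, smul_zero]
    intro he
    apply hm'
    have h1 : (fun i => (m' i : ℕ)) = fun i => (m i : ℕ) := by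
      simpa using he
    funext i
    exact Fin.ext (congrFun h1 i)
  · intro hm
    exact absurd (Finset.mem_univ m) hm

private theorem cmp_ind {F : Subfield ℂ} {a : Ix → ℂ} {n : ℕ}
    (hg : ∀ β : Ix →₀ ℂ, (∀ i ∈ β.support, i.1 = 6 * n + 2 ∨ i.1 = 6 * n + 5) →
      (β.sum fun i b => b • dd (a i)) ∈ dK F → β = 0)
    (S : Finset Qr) (c : Qr → ℂ) (hS : S.card ≤ 2 ^ (6 * n + 2))
    (hL : ∀ q ∈ S, q.1 = 6 * n + 2 ∨ q.1 = 6 * n + 5)
    (hm : ∑ q ∈ S, c q • pd a q ∈ dK F) : ∀ q ∈ S, c q = 0 := by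
  classical
  set β : Ix →₀ ℂ := ∑ q ∈ S, c q • cmpBe q with hβ
  have hβi : ∀ i, β i = ∑ q ∈ S, c q * cmpBe q i := by
    intro i
    rw [hβ, Finsupp.finsetSum_apply]
    rfl
  have h0 : β = 0 := by
    apply hg
    · intro i hi
      by_contra hcon
      rw [Finsupp.mem_support_iff] at hi
      apply hi
      rw [hβi]
      refine Finset.sum_eq_zero fun q hq => ?_
      rw [cmpBe_ne, mul_zero]
      intro he
      rw [← he] at hcon
      exact hcon (hL q hq)
    · have h1 : (β.sum fun i b => b • dd (a i)) =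
          Finsupp.linearCombination ℂ (fun i => dd (a i)) β := rfl
      rw [h1, hβ, map_sum]
      have h2 : ∑ q ∈ S, Finsupp.linearCombination ℂ (fun i => dd (a i)) (c q • cmpBe q) =
          ∑ q ∈ S, c q • pd a q := by
        refine Finset.sum_congr rfl fun q _ => ?_
        rw [map_smul, cmpBe_lin]
      rw [h2]
      exact hm
  rintro ⟨L, z0⟩ hq0
  have hLv : L = 6 * n + 2 ∨ L = 6 * n + 5 := hL _ hq0
  set SL : Finset (Fin L → ℂ) := S.preimage (fun z => (⟨L, z⟩ : Qr))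
    (fun x _ y _ hxy => by simpa using hxy) with hSL
  have hmem : ∀ z, z ∈ SL ↔ (⟨L, z⟩ : Qr) ∈ S := by
    intro z
    rw [hSL, Finset.mem_preimage]
  have hcard : SL.card ≤ 2 ^ L := by
    have h1 : SL.card ≤ S.card := by
      refine Finset.card_le_card_of_injOn (fun z => (⟨L, z⟩ : Qr)) ?_ ?_
      · intro z hz
        exact (hmem z).1 hz
      · intro x _ y _ hxy
        simpa using hxy
    refine h1.trans (hS.trans (Nat.pow_le_pow_right (by norm_num) ?_))
    rcases hLv with h | h <;> omega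
  obtain ⟨l, hl⟩ := box_sep SL hcard z0 ((hmem z0).2 hq0)
  have key : ∀ q ∈ S, ∑ m : Fin L → Fin (2 ^ L + 1), l m * cmpBe q ⟨L, fun i => (m i : ℕ)⟩ =
      if q = (⟨L, z0⟩ : Qr) then 1 else 0 := by
    rintro ⟨L', z⟩ hq
    by_cases hLL : L' = L
    · subst hLL
      have h1 := hl z ((hmem z).2 hq)
      have h2 : ∑ m : Fin L' → Fin (2 ^ L' + 1),
          l m * cmpBe ⟨L', z⟩ ⟨L', fun i => (m i : ℕ)⟩ =
          ∑ m : Fin L' → Fin (2 ^ L' + 1), l m * ∏ i, z i ^ (m i : ℕ) :=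
        Finset.sum_congr rfl fun m _ => by rw [cmpBe_eq]
      rw [h2, h1]
      by_cases hz : z = z0
      · rw [if_pos hz, if_pos (by rw [hz])]
      · rw [if_neg hz, if_neg]
        intro he
        apply hz
        simpa using he
    · rw [if_neg fun he => hLL (congrArg Sigma.fst he)]
      refine Finset.sum_eq_zero fun m _ => ?_
      rw [cmpBe_ne _ _ hLL, mul_zero]
  have h3 : ∑ m : Fin L → Fin (2 ^ L + 1), l m * β ⟨L, fun i => (m i : ℕ)⟩ = 0 := by
    rw [h0]
    refine Finset.sum_eq_zero fun m _ => ?_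
    rw [Finsupp.zero_apply, mul_zero]
  have h4 : ∑ m : Fin L → Fin (2 ^ L + 1), l m * β ⟨L, fun i => (m i : ℕ)⟩ =
      ∑ q ∈ S, c q * (if q = (⟨L, z0⟩ : Qr) then 1 else 0) := by
    calc ∑ m : Fin L → Fin (2 ^ L + 1), l m * β ⟨L, fun i => (m i : ℕ)⟩
        = ∑ m : Fin L → Fin (2 ^ L + 1), ∑ q ∈ S,
            c q * (l m * cmpBe q ⟨L, fun i => (m i : ℕ)⟩) := by
          refine Finset.sum_congr rfl fun m _ => ?_
          rw [hβi, Finset.mul_sum]
          refine Finset.sum_congr rfl fun q _ => ?_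
          ring
      _ = ∑ q ∈ S, c q * ∑ m : Fin L → Fin (2 ^ L + 1),
            l m * cmpBe q ⟨L, fun i => (m i : ℕ)⟩ := by
          rw [Finset.sum_comm]
          refine Finset.sum_congr rfl fun q _ => ?_
          rw [Finset.mul_sum]
      _ = _ := by
          refine Finset.sum_congr rfl fun q hq => ?_
          rw [key q hq]
  rw [h4, Finset.sum_eq_single (⟨L, z0⟩ : Qr)] at h3
  · rw [if_pos rfl, mul_one] at h3
    exact h3
  · intro q _ hq
    rw [if_neg hq, mul_zero]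
  · intro hq
    exact absurd hq0 hq

private theorem cmp_closure_countable (S : Set ℂ) (hS : S.Countable) :
    ((Subfield.closure S : Subfield ℂ) : Set ℂ).Countable := by
  have h1 := Subfield.cardinalMk_closure_le_max S
  have h2 : Cardinal.mk ↥S ≤ Cardinal.aleph0 := Cardinal.le_aleph0_iff_set_countable.mpr hS
  exact Cardinal.le_aleph0_iff_set_countable.mp (h1.trans (max_le h2 le_rfl))

private theorem cmp_span_pt (L : ℕ) (y : ℂ) :
    Submodule.span ℂ (Set.range fun v => dd (pt L y v)) ≤ Submodule.span ℂ {dd y} := by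
  rw [Submodule.span_le]
  rintro _ ⟨v, rfl⟩
  show dd (pt L y v) ∈ Submodule.span ℂ {dd y}
  unfold pt
  split_ifs
  · exact Submodule.mem_span_singleton_self _
  · rw [dd_zero]
    exact Submodule.zero_mem _

private theorem cmp_pt {A Φ : Orc} {K0 : Subfield ℂ} {a : Ix → ℂ} (h : Tw A Φ K0 a) (L : ℕ)
    (hL : L % 3 = 2) (y : ℂ) :
    ∃ r : ℂ, dd (eval (pt L y) (Φ L)) = r • dd y + pd a ⟨L, pt L y⟩ := by
  have h1 := cmp_span_pt L y (cmp_val h ⟨L, pt L y⟩ hL)
  obtain ⟨r, hr⟩ := Submodule.mem_span_singleton.1 h1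
  exact ⟨r, (sub_eq_iff_eq_add.1 hr.symm)⟩

theorem cmp_exists {A Φ : Orc} {K0 : Subfield ℂ} {a : Ix → ℂ} (h : Tw A Φ K0 a) (C : Finset ℂ)
    (n T : ℕ) (hg : ∀ β : Ix →₀ ℂ, (∀ i ∈ β.support, i.1 = 6 * n + 2 ∨ i.1 = 6 * n + 5) →
      (β.sum fun i b => b • dd (a i)) ∈ dK (Fld K0 a C n T) → β = 0) :
    ∃ ξ ω κ : ℂ, Cmp Φ (Fld K0 a C n T) n (2 ^ (6 * n + 2)) T (pd a) ξ ω κ ∧
      eval (pt (6 * n + 2) κ) (Φ (6 * n + 2)) = 0 ∧
      eval (pt (6 * n + 5) κ) (Φ (6 * n + 5)) = ω ∧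
      ∀ y, eval (pt (6 * n + 2) y) (Φ (6 * n + 2)) = 0 →
        eval (pt (6 * n + 5) y) (Φ (6 * n + 5)) ≠ ξ := by
  classical
  set F := Fld K0 a C n T with hF
  set G : Subfield ℂ := Subfield.closure ((F : Set ℂ) ∪ Set.range a) with hG
  have hFc : (F : Set ℂ).Countable := by
    rw [hF, Fld]
    refine cmp_closure_countable _ (h.ctb.union ((Finset.countable_toSet C).union ?_))
    exact (Set.to_countable _).image a
  have hGc : (G : Set ℂ).Countable :=
    cmp_closure_countable _ (hFc.union (Set.countable_range a))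
  have hFG : F ≤ G := fun x hx => Subfield.subset_closure (Or.inl hx)
  have haG : ∀ i, a i ∈ G := fun i => Subfield.subset_closure (Or.inr ⟨i, rfl⟩)
  have hpG : ∀ q : Qr, pd a q ∈ dK G := by
    intro q
    unfold pd
    exact Submodule.sum_mem _ fun m _ => Submodule.smul_mem _ _ (dd_mem (haG _))
  obtain ⟨ξ', hξ'⟩ := exists_indep G hGc (Fin 1)
  have hξ1 : ∀ x : ℂ, x • dd (ξ' 0) ∈ dK G → x = 0 := by
    intro x hx
    refine dli hξ' (fun _ => x) ?_ 0
    rw [Fin.sum_univ_one]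
    exact hx
  set ξ := ξ' 0 with hξ
  have hind : ∀ (S : Finset Qr) (x : ℂ) (c : Qr → ℂ), S.card ≤ 2 ^ (6 * n + 2) →
      (∀ q ∈ S, q.1 = 6 * n + 2 ∨ q.1 = 6 * n + 5) →
      x • dd ξ + ∑ q ∈ S, c q • pd a q ∈ dK F → x = 0 ∧ ∀ q ∈ S, c q = 0 := by
    intro S x c hS hL hm
    have hx : x = 0 := by
      apply hξ1
      have h1 : x • dd ξ + ∑ q ∈ S, c q • pd a q ∈ dK G := dK_mono hFG hm
      have h2 : ∑ q ∈ S, c q • pd a q ∈ dK G :=
        Submodule.sum_mem _ fun q _ => Submodule.smul_mem _ _ (hpG q)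
      exact (Submodule.add_mem_iff_left _ h2).1 h1
    refine ⟨hx, ?_⟩
    rw [hx, zero_smul, zero_add] at hm
    exact cmp_ind hg S c hS hL hm
  -- single queries
  have hone : ∀ q : Qr, (q.1 = 6 * n + 2 ∨ q.1 = 6 * n + 5) → pd a q ≠ 0 := by
    intro q hq h0
    have h1 := (hind {q} 0 (fun _ => 1) (by
      rw [Finset.card_singleton]
      exact Nat.one_le_two_pow) (by
        intro q' hq'
        rw [Finset.mem_singleton] at hq'
        rw [hq']
        exact hq) (by
        rw [zero_smul, zero_add, Finset.sum_singleton, one_smul, h0]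
        exact Submodule.zero_mem _)).2 q (Finset.mem_singleton_self q)
    exact one_ne_zero h1
  have hm2 : (6 * n + 2) % 3 = 2 := by omega
  have hm5 : (6 * n + 5) % 3 = 2 := by omega
  -- the polynomial
  set V : Polynomial ℂ := MvPolynomial.aeval (fun i : Fin (6 * n + 2) =>
    if (i : ℕ) = 0 then (Polynomial.X : Polynomial ℂ) else 0) (Φ (6 * n + 2)) with hV
  have hVe : ∀ y, V.eval y = eval (pt (6 * n + 2) y) (Φ (6 * n + 2)) := by
    intro y
    have h1 : (Polynomial.evalRingHom y).comp (MvPolynomial.aeval (fun i : Fin (6 * n + 2) =>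
        if (i : ℕ) = 0 then (Polynomial.X : Polynomial ℂ) else 0) :
          MvPolynomial (Fin (6 * n + 2)) ℂ →ₐ[ℂ] Polynomial ℂ).toRingHom =
        (eval (pt (6 * n + 2) y) : MvPolynomial (Fin (6 * n + 2)) ℂ →+* ℂ) := by
      apply MvPolynomial.ringHom_ext
      · intro r
        simp
      · intro i
        show Polynomial.eval y (MvPolynomial.aeval (fun i : Fin (6 * n + 2) =>
          if (i : ℕ) = 0 then (Polynomial.X : Polynomial ℂ) else 0) (MvPolynomial.X i)) =
            eval (pt (6 * n + 2) y) (MvPolynomial.X i)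
        rw [MvPolynomial.aeval_X, MvPolynomial.eval_X]
        unfold pt
        split_ifs
        · exact Polynomial.eval_X
        · exact Polynomial.eval_zero
    exact congrFun (congrArg (fun f : MvPolynomial (Fin (6 * n + 2)) ℂ →+* ℂ => (f : _ → ℂ)) h1)
      (Φ (6 * n + 2))
  have hdd1 : dd 1 = 0 := dd_one
  have hroot : ∃ κ, V.eval κ = 0 := by
    have hdeg : V.degree ≠ 0 := by
      intro hd
      have hc := Polynomial.eq_C_of_degree_eq_zero hd
      have h01 : V.eval 0 = V.eval 1 := by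
        rw [hc, Polynomial.eval_C, Polynomial.eval_C]
      rw [hVe, hVe] at h01
      obtain ⟨r0, hr0⟩ := cmp_pt h (6 * n + 2) hm2 0
      obtain ⟨r1, hr1⟩ := cmp_pt h (6 * n + 2) hm2 1
      rw [dd_zero, smul_zero, zero_add] at hr0
      rw [hdd1, smul_zero, zero_add] at hr1
      have h2 : pd a ⟨6 * n + 2, pt (6 * n + 2) 0⟩ = pd a ⟨6 * n + 2, pt (6 * n + 2) 1⟩ := by
        rw [← hr0, ← hr1, h01]
      have hne : (⟨6 * n + 2, pt (6 * n + 2) 0⟩ : Qr) ≠ ⟨6 * n + 2, pt (6 * n + 2) 1⟩ := by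
        intro he
        have h3 : pt (6 * n + 2) 0 = pt (6 * n + 2) 1 := by simpa using he
        have h4 := congrFun h3 ⟨0, by omega⟩
        simp [pt] at h4
      have h5 := (hind {⟨6 * n + 2, pt (6 * n + 2) 0⟩, ⟨6 * n + 2, pt (6 * n + 2) 1⟩} 0
        (fun q => if q = (⟨6 * n + 2, pt (6 * n + 2) 0⟩ : Qr) then 1 else -1) (by
          refine (Finset.card_le_two).trans ?_
          calc 2 = 2 ^ 1 := by norm_num
            _ ≤ 2 ^ (6 * n + 2) := Nat.pow_le_pow_right (by norm_num) (by omega)) (by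
          intro q hq
          rw [Finset.mem_insert, Finset.mem_singleton] at hq
          rcases hq with hq | hq <;> (rw [hq]; exact Or.inl rfl)) (by
          rw [zero_smul, zero_add, Finset.sum_pair hne, if_pos rfl, if_neg hne.symm, h2, one_smul,
            neg_smul, one_smul, add_neg_cancel]
          exact Submodule.zero_mem _)).2 _ (Finset.mem_insert_self _ _)
      rw [if_pos rfl] at h5
      exact one_ne_zero h5
    exact IsAlgClosed.exists_root V hdeg
  obtain ⟨κ, hκ⟩ := hroot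
  have hroots : ∀ y, eval (pt (6 * n + 2) y) (Φ (6 * n + 2)) = 0 →
      ∃ r : ℂ, r ≠ 0 ∧ dd y = r • pd a ⟨6 * n + 2, pt (6 * n + 2) y⟩ := by
    intro y hy
    obtain ⟨r, hr⟩ := cmp_pt h (6 * n + 2) hm2 y
    rw [hy, dd_zero] at hr
    have hp := hone ⟨6 * n + 2, pt (6 * n + 2) y⟩ (Or.inl rfl)
    have hr0 : r ≠ 0 := by
      intro h0
      rw [h0, zero_smul, zero_add] at hr
      exact hp hr.symm
    refine ⟨-r⁻¹, neg_ne_zero.2 (inv_ne_zero hr0), ?_⟩
    have h1 : pd a ⟨6 * n + 2, pt (6 * n + 2) y⟩ = -(r • dd y) := by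
      rw [eq_neg_iff_add_eq_zero, add_comm]
      exact hr.symm
    rw [h1, neg_smul, smul_neg, neg_neg, smul_smul, inv_mul_cancel₀ hr0, one_smul]
  have hκ0 : eval (pt (6 * n + 2) κ) (Φ (6 * n + 2)) = 0 := by rw [← hVe]; exact hκ
  refine ⟨ξ, eval (pt (6 * n + 5) κ) (Φ (6 * n + 5)), κ, ?_, hκ0, rfl, ?_⟩
  · exact
      { ctb := hFc
        low := fun L hL h2 h5 => cmp_low h C n T L hL h2 h5
        val := fun q hq => cmp_val h q (by rcases hq with hq | hq <;> omega)
        ind := hind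
        kap := hroots κ hκ0
        omg := by
          obtain ⟨r, hr⟩ := cmp_pt h (6 * n + 5) hm5 κ
          obtain ⟨s, _, hs⟩ := hroots κ hκ0
          refine ⟨r * s, ?_⟩
          rw [hr, hs, smul_smul] }
  · intro y hy he
    obtain ⟨r, _, hr⟩ := hroots y hy
    have hyG : dd y ∈ dK G := by
      rw [hr]
      exact Submodule.smul_mem _ _ (hpG _)
    obtain ⟨s, hs⟩ := cmp_pt h (6 * n + 5) hm5 y
    have h1 : dd ξ ∈ dK G := by
      rw [← he, hs]
      exact Submodule.add_mem _ (Submodule.smul_mem _ _ hyG) (hpG _)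
    have h2 := hξ1 1 (by rw [one_smul]; exact h1)
    exact one_ne_zero h2

end VRB
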