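import Pool.Agent.VRB.TNp
import Pool.Agent.VRB.TNotP
import Pool.Agent.VRB.TEx
import Pool.Agent.VRB.TTow
import Pool.Agent.VRB.Final
import Pool.Agent.VRB.Deg

/-!
# VRB-TFin: the second oracle
-/

namespace VRB

open MvPolynomial

theorem second (A : Orc) : ∃ Φ : Orc, (∀ L, Φ (3 * L) = rename (Fin.castLE (by omega)) (A L)) ∧
    (∃ B, InNP Φ B ∧ ¬ InP Φ B) ∧ ∃ f, InVNP Φ f ∧ (∀ n, (f n).totalDegree ≤ n) ∧
      (∀ n s, s * (s + 1) < 2 ^ n → ¬ Comp Φ s (f n)) ∧ ¬ InVP Φ f := by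
  obtain ⟨Φ, K0, a, hT⟩ := tw_exists A
  obtain ⟨K, hK⟩ := tw_tower hT
  exact ⟨Φ, hT.lev0, ⟨Bset Φ, bset_np Φ, not_inP hT⟩, fam Φ, fam_mem hK,
    fun n => (fam_deg hK n).1, fun n s hs => lower hK hs, not_inVP hK⟩

end VRB
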