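import Pool.Agent.VRB.Indep

/-!
# VRB-GenEx: existence of generic polynomials

## Plan
`interp`: `Y = {y | ∀ f ∈ T, eval y f = 0}`, `D = (sup of the total degrees of f ∈ T) + R`. For
`y0 ∈ S` choose `f ∈ T` with `eval y0 f ≠ 0` and for each `y ∈ S`, `y ≠ y0`, a coordinate `v` with
`y v ≠ y0 v`; `G = C c * f * ∏ y ∈ S.erase y0, (X v - C (y v))` has the right values for a suitable
constant `c` and degree at most `D`.
`gen_exists`: let `V` be the subspace of the polynomials of total degree at most `D` which vanish on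
`Y`; it is finite-dimensional (a subspace of `MvPolynomial.restrictTotalDegree (Fin L) ℂ D`, or: the
finitely many monomials of degree at most `D` span), let `g : Fin M → MvPolynomial (Fin L) ℂ` be a
finite spanning family of `V`. `K` = field generated by `K0` and the coefficients of the `g k`
(`field_ext`, a countable set), `a` from `exists_indep`, `F = ∑ k, C (a k) * g k`. The last property:
`G = ∑ k, l k • g k` for `G` from `interp`.
`low_exists`: `exists_indep` with `ι = Mon n`.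
-/

namespace VRB

open MvPolynomial

/-- the polynomials of total degree at most `D` which vanish on `Y` -/
private def GenExV {L : ℕ} (Y : Set (Fin L → ℂ)) (D : ℕ) :
    Submodule ℂ (MvPolynomial (Fin L) ℂ) where
  carrier := {G | G.totalDegree ≤ D ∧ ∀ y ∈ Y, eval y G = 0}
  add_mem' := by
    rintro F G ⟨h1, h2⟩ ⟨h3, h4⟩
    refine ⟨(totalDegree_add F G).trans (max_le h1 h3), fun y hy => ?_⟩
    rw [map_add, h2 y hy, h4 y hy, add_zero]
  zero_mem' := ⟨by rw [totalDegree_zero]; exact Nat.zero_le _, fun y _ => map_zero _⟩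
  smul_mem' := by
    rintro c F ⟨h1, h2⟩
    refine ⟨(totalDegree_smul_le c F).trans h1, fun y hy => ?_⟩
    rw [smul_eval, h2 y hy, mul_zero]

private theorem GenExV_fg {L : ℕ} (Y : Set (Fin L → ℂ)) (D : ℕ) : (GenExV Y D).FG := by
  have h : GenExV Y D ≤ restrictTotalDegree (Fin L) ℂ D := by
    intro G hG
    rw [mem_restrictTotalDegree]
    exact hG.1
  have h1 : FiniteDimensional ℂ (GenExV Y D) := Submodule.finiteDimensional_of_le h
  exact Module.Finite.iff_fg.1 h1

theorem interp {L : ℕ} {Y : Set (Fin L → ℂ)} (hY : IsAlg Y) (R : ℕ) :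
    ∃ D : ℕ, ∀ S : Finset (Fin L → ℂ), S.card ≤ R → (∀ y ∈ S, y ∉ Y) → ∀ y0 ∈ S,
      ∃ G : MvPolynomial (Fin L) ℂ, G.totalDegree ≤ D ∧ (∀ y ∈ Y, eval y G = 0) ∧
        ∀ y ∈ S, eval y G = if y = y0 then 1 else 0 := by
  classical
  obtain ⟨T, rfl⟩ := hY
  refine ⟨T.sup totalDegree + R, fun S hS hSY y0 hy0 => ?_⟩
  obtain ⟨f, hfT, hf⟩ : ∃ f ∈ T, eval y0 f ≠ 0 := by
    by_contra hcon
    push Not at hcon
    exact hSY y0 hy0 hcon
  have hsep : ∀ y : Fin L → ℂ, ∃ G : MvPolynomial (Fin L) ℂ, G.totalDegree ≤ 1 ∧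
      (y ≠ y0 → eval y G = 0 ∧ eval y0 G ≠ 0) := by
    intro y
    by_cases hy : y = y0
    · exact ⟨0, by rw [totalDegree_zero]; exact Nat.zero_le _, fun h => absurd hy h⟩
    · obtain ⟨v, hv⟩ := Function.ne_iff.1 hy
      refine ⟨X v - C (y v), ?_, fun _ => ⟨?_, ?_⟩⟩
      · refine (totalDegree_sub _ _).trans (max_le ?_ ?_)
        · rw [totalDegree_X]
        · rw [totalDegree_C]
          exact Nat.zero_le _
      · rw [map_sub, eval_X, eval_C, sub_self]
      · rw [map_sub, eval_X, eval_C, sub_ne_zero]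
        exact hv.symm
  choose g hg1 hg2 using hsep
  have hP0 : eval y0 (f * ∏ y ∈ S.erase y0, g y) ≠ 0 := by
    rw [map_mul, map_prod]
    refine mul_ne_zero hf (Finset.prod_ne_zero_iff.2 fun y hy => ?_)
    exact (hg2 y (Finset.ne_of_mem_erase hy)).2
  obtain ⟨c, hc⟩ : ∃ c : ℂ, c * eval y0 (f * ∏ y ∈ S.erase y0, g y) = 1 :=
    ⟨_, inv_mul_cancel₀ hP0⟩
  refine ⟨C c * (f * ∏ y ∈ S.erase y0, g y), ?_, ?_, ?_⟩
  · refine (totalDegree_mul _ _).trans ?_
    rw [totalDegree_C, Nat.zero_add]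
    refine (totalDegree_mul _ _).trans ?_
    refine Nat.add_le_add (Finset.le_sup (f := totalDegree) hfT) ?_
    refine (totalDegree_finsetProd _ _).trans ?_
    refine (Finset.sum_le_sum fun y _ => hg1 y).trans ?_
    rw [Finset.sum_const, smul_eq_mul, mul_one]
    exact (Finset.card_erase_le).trans hS
  · intro y hy
    rw [map_mul, map_mul, hy f hfT, zero_mul, mul_zero]
  · intro y hy
    by_cases h : y = y0
    · rw [if_pos h, h, map_mul, eval_C, hc]
    · rw [if_neg h, map_mul, map_mul, map_prod,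
        Finset.prod_eq_zero (Finset.mem_erase.2 ⟨h, hy⟩) (hg2 y h).1, mul_zero, mul_zero]

theorem gen_exists {L : ℕ} {Y : Set (Fin L → ℂ)} (hY : IsAlg Y) (R : ℕ) (K0 : Subfield ℂ)
    (hK0 : (K0 : Set ℂ).Countable) :
    ∃ (K : Subfield ℂ) (F : MvPolynomial (Fin L) ℂ),
      K0 ≤ K ∧ (K : Set ℂ).Countable ∧ Gen K Y R F := by
  obtain ⟨D, hD⟩ := interp hY R
  obtain ⟨M, g, hg⟩ := Submodule.fg_iff_exists_fin_generating_family.1 (GenExV_fg Y D)
  obtain ⟨K, hK0K, hKS, hK⟩ := field_ext K0 hK0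
    (Set.range fun p : Fin M × (Fin L →₀ ℕ) => coeff p.2 (g p.1)) (Set.countable_range _)
  obtain ⟨a, ha⟩ := exists_indep K hK (Fin M)
  have hgV : ∀ k, g k ∈ GenExV Y D := fun k => by
    rw [← hg]
    exact Submodule.subset_span ⟨k, rfl⟩
  refine ⟨K, ∑ k, C (a k) * g k, hK0K, hK, M, g, a, ?_, ha, rfl, ?_, ?_⟩
  · intro k m
    exact hKS ⟨(k, m), rfl⟩
  · intro k y hy
    exact (hgV k).2 y hy
  · intro S hS hSY y0 hy0
    obtain ⟨G, hG1, hG2, hG3⟩ := hD S hS hSY y0 hy0
    have hG : G ∈ Submodule.span ℂ (Set.range g) := by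
      rw [hg]
      exact ⟨hG1, hG2⟩
    obtain ⟨l, hl⟩ := (Submodule.mem_span_range_iff_exists_fun ℂ).1 hG
    refine ⟨l, fun y hy => ?_⟩
    rw [← hG3 y hy, ← hl, map_sum]
    refine Finset.sum_congr rfl fun k _ => ?_
    rw [smul_eval]

theorem low_exists (n : ℕ) (K : Subfield ℂ) (hK : (K : Set ℂ).Countable) :
    ∃ F : MvPolynomial (Fin (6 * n + 1)) ℂ, Low K n F := by
  obtain ⟨a, ha⟩ := exists_indep K hK (Mon n)
  exact ⟨∑ p, C (a p) * mono n p, a, ha, rfl⟩

end VRB
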