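import Pool.Agent.VRB.Alg

/-!
# VRB-LowDual: exponential sums are independent of few values

A dual functional for the monomials `mono n p`: it vanishes at fewer than `2 ^ n` given points and
picks out the value of the exponential sum at a Boolean point `x0`.
-/

namespace VRB

open MvPolynomial

private noncomputable def ldLin (b : Bool) (t : ℂ) : ℂ := if b then t else 1 - t

private noncomputable def ldC (b : Bool) : Fin 2 → ℂ := if b then ![0, 1] else ![1, -1]

private noncomputable def ldD (b b' : Bool) : Fin 3 → ℂ :=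
  if b then (if b' then ![0, 0, 1] else ![0, 1, -1])
  else (if b' then ![0, 1, -1] else ![1, -2, 1])

private theorem ldC_eq (b : Bool) (t : ℂ) : ∑ j : Fin 2, ldC b j * t ^ (j : ℕ) = ldLin b t := by
  cases b
  · simp [ldC, ldLin, Fin.sum_univ_two]; ring
  · simp [ldC, ldLin, Fin.sum_univ_two]

private theorem ldD_eq (b b' : Bool) (t : ℂ) :
    ∑ j : Fin 3, ldD b b' j * t ^ (j : ℕ) = ldLin b t * ldLin b' t := by
  cases b <;> cases b' <;> simp [ldD, ldLin, Fin.sum_univ_three] <;> ring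

private theorem ldLin_bit (b b' : Bool) :
    ldLin b (if b' then 1 else 0) = if b = b' then 1 else 0 := by
  cases b <;> cases b' <;> simp [ldLin]

private theorem ld_prod_sum (n m : ℕ) (f : Fin n → Fin m → ℂ) :
    ∏ i, ∑ j, f i j = ∑ p : Fin n → Fin m, ∏ i, f i (p i) := by
  rw [Finset.prod_univ_sum, Fintype.piFinset_univ]

private theorem ld_eval (n : ℕ) (z : Fin (6 * n + 1) → ℂ) (p : Mon n) :
    eval z (mono n p) = (∏ i : Fin n, z ⟨i, by omega⟩ ^ (p.1 i : ℕ)) *
      ∏ i : Fin n, z ⟨n + i, by omega⟩ ^ (p.2 i : ℕ) := by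
  simp only [mono, map_mul, map_prod, map_pow, eval_X]

/-- the coefficients -/
private noncomputable def ldL (n : ℕ) (x0 e0 : Fin n → Bool) (lam : (Fin n → Bool) → ℂ)
    (p : Mon n) : ℂ :=
  (∏ i, ldC (x0 i) (p.1 i)) * ∑ b : Fin n → Bool, lam b * ∏ i, ldD (b i) (e0 i) (p.2 i)

private theorem ldL_sum (n : ℕ) (x0 e0 : Fin n → Bool) (lam : (Fin n → Bool) → ℂ)
    (z : Fin (6 * n + 1) → ℂ) :
    ∑ p, ldL n x0 e0 lam p * eval z (mono n p) =
      (∏ i : Fin n, ldLin (x0 i) (z ⟨i, by omega⟩)) *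
        ((∑ b : Fin n → Bool, lam b * ∏ i : Fin n, ldLin (b i) (z ⟨n + i, by omega⟩)) *
          ∏ i : Fin n, ldLin (e0 i) (z ⟨n + i, by omega⟩)) := by
  have h1 : ∏ i : Fin n, ldLin (x0 i) (z ⟨i, by omega⟩) =
      ∑ p : Fin n → Fin 2, ∏ i : Fin n, ldC (x0 i) (p i) * z ⟨i, by omega⟩ ^ (p i : ℕ) := by
    refine Eq.trans ?_ (ld_prod_sum n 2
      fun i j => ldC (x0 i) j * z ⟨i, by omega⟩ ^ (j : ℕ))
    exact Finset.prod_congr rfl fun i _ => (ldC_eq _ _).symm
  have h2 : (∑ b : Fin n → Bool, lam b * ∏ i : Fin n, ldLin (b i) (z ⟨n + i, by omega⟩)) *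
          ∏ i : Fin n, ldLin (e0 i) (z ⟨n + i, by omega⟩) =
      ∑ p : Fin n → Fin 3, (∑ b : Fin n → Bool, lam b * ∏ i, ldD (b i) (e0 i) (p i)) *
        ∏ i : Fin n, z ⟨n + i, by omega⟩ ^ (p i : ℕ) := by
    have h3 : ∀ b : Fin n → Bool, (∏ i : Fin n, ldLin (b i) (z ⟨n + i, by omega⟩)) *
        ∏ i : Fin n, ldLin (e0 i) (z ⟨n + i, by omega⟩) =
        ∑ p : Fin n → Fin 3, (∏ i, ldD (b i) (e0 i) (p i)) *
          ∏ i : Fin n, z ⟨n + i, by omega⟩ ^ (p i : ℕ) := by
      intro b
      rw [← Finset.prod_mul_distrib]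
      calc ∏ i : Fin n, ldLin (b i) (z ⟨n + i, by omega⟩) * ldLin (e0 i) (z ⟨n + i, by omega⟩) =
          ∏ i : Fin n, ∑ j : Fin 3, ldD (b i) (e0 i) j * z ⟨n + i, by omega⟩ ^ (j : ℕ) :=
            Finset.prod_congr rfl fun i _ => (ldD_eq _ _ _).symm
        _ = ∑ p : Fin n → Fin 3, ∏ i : Fin n,
            ldD (b i) (e0 i) (p i) * z ⟨n + i, by omega⟩ ^ (p i : ℕ) := ld_prod_sum _ _ _
        _ = _ := Finset.sum_congr rfl fun p _ => Finset.prod_mul_distrib
    rw [Finset.sum_mul]
    simp only [Finset.sum_mul]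
    rw [Finset.sum_comm]
    refine Finset.sum_congr rfl fun b _ => ?_
    rw [mul_assoc, h3 b, Finset.mul_sum]
    exact Finset.sum_congr rfl fun p _ => (mul_assoc _ _ _).symm
  rw [h1, h2, Fintype.sum_mul_sum, ← Fintype.sum_prod_type']
  refine Finset.sum_congr rfl fun p _ => ?_
  rw [ld_eval, ldL, Finset.prod_mul_distrib]
  ring

theorem low_dual (n : ℕ) (Q : Finset (Fin (6 * n + 1) → ℂ)) (hQ : Q.card < 2 ^ n)
    (x0 : Fin n → Bool) :
    ∃ l : Mon n → ℂ, (∀ z ∈ Q, ∑ p, l p * eval z (mono n p) = 0) ∧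
      ∀ x : Fin n → Bool, ∑ e : Fin n → Bool, ∑ p, l p * eval (bpt n x e) (mono n p) =
        if x = x0 then 1 else 0 := by
  classical
  -- a nonzero multilinear polynomial which vanishes on the second parts of the points of `Q`
  let T : ((Fin n → Bool) → ℂ) →ₗ[ℂ] (Q → ℂ) :=
    { toFun := fun lam z => ∑ b : Fin n → Bool,
        lam b * ∏ i : Fin n, ldLin (b i) (z.1 ⟨n + i, by omega⟩)
      map_add' := fun u v => by
        funext z
        simp only [Pi.add_apply, add_mul, Finset.sum_add_distrib]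
      map_smul' := fun t u => by
        funext z
        simp only [Pi.smul_apply, smul_eq_mul, mul_assoc, Finset.mul_sum, RingHom.id_apply] }
  have hker : LinearMap.ker T ≠ ⊥ := by
    apply LinearMap.ker_ne_bot_of_finrank_lt
    rw [Module.finrank_fintype_fun_eq_card, Module.finrank_fintype_fun_eq_card]
    simpa using hQ
  obtain ⟨mu, hmu, hne⟩ := (Submodule.ne_bot_iff _).1 hker
  obtain ⟨e0, he0⟩ : ∃ e0, mu e0 ≠ 0 := by
    by_contra h
    push Not at h
    exact hne (funext h)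
  have hz : ∀ z ∈ Q, ∑ b : Fin n → Bool,
      mu b * ∏ i : Fin n, ldLin (b i) (z ⟨n + i, by omega⟩) = 0 := by
    intro z hzQ
    exact congrFun (LinearMap.mem_ker.1 hmu) ⟨z, hzQ⟩
  refine ⟨ldL n x0 e0 fun b => mu b / mu e0, fun z hzQ => ?_, fun x => ?_⟩
  · rw [ldL_sum]
    have h1 : ∑ b : Fin n → Bool, mu b / mu e0 *
        ∏ i : Fin n, ldLin (b i) (z ⟨n + i, by omega⟩) = 0 := by
      have h2 : ∑ b : Fin n → Bool, mu b / mu e0 *
          ∏ i : Fin n, ldLin (b i) (z ⟨n + i, by omega⟩) =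
          (mu e0)⁻¹ * ∑ b : Fin n → Bool,
            mu b * ∏ i : Fin n, ldLin (b i) (z ⟨n + i, by omega⟩) := by
        rw [Finset.mul_sum]
        exact Finset.sum_congr rfl fun b _ => by rw [div_eq_inv_mul, mul_assoc]
      rw [h2, hz z hzQ, mul_zero]
    rw [h1, zero_mul, mul_zero]
  · have hx : ∀ (y : Fin n → Bool) (e : Fin n → Bool),
        ∏ i : Fin n, ldLin (y i) (bpt n x e ⟨i, by omega⟩) = if y = x then 1 else 0 := by
      intro y e
      have h1 : ∀ i : Fin n, ldLin (y i) (bpt n x e ⟨i, by omega⟩) =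
          if y i = x i then 1 else 0 := by
        intro i
        rw [← ldLin_bit]
        congr 1
        simp [bpt]
      rw [Finset.prod_congr rfl fun i _ => h1 i, Finset.prod_ite_zero]
      simp [funext_iff]
    have he : ∀ (y : Fin n → Bool) (e : Fin n → Bool),
        ∏ i : Fin n, ldLin (y i) (bpt n x e ⟨n + i, by omega⟩) = if y = e then 1 else 0 := by
      intro y e
      have h1 : ∀ i : Fin n, ldLin (y i) (bpt n x e ⟨n + i, by omega⟩) =
          if y i = e i then 1 else 0 := by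
        intro i
        rw [← ldLin_bit]
        congr 1
        simp [bpt]
      rw [Finset.prod_congr rfl fun i _ => h1 i, Finset.prod_ite_zero]
      simp [funext_iff]
    have hsum : ∀ e : Fin n → Bool,
        ∑ p, ldL n x0 e0 (fun b => mu b / mu e0) p * eval (bpt n x e) (mono n p) =
          if e0 = e then (if x0 = x then 1 else 0) else 0 := by
      intro e
      rw [ldL_sum, hx, he]
      simp only [he]
      by_cases h : e0 = e
      · subst h
        simp [div_self he0]
      · simp [h]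
    rw [Finset.sum_congr rfl fun e _ => hsum e]
    simp [eq_comm]

end VRB
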