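import Pool.Agent.VRB.LbRun
import Pool.Agent.VRB.Dli
import Pool.Agent.VRB.LowDual

/-!
# VRB-LbLev: the exponential sums are independent of the queries

The differential of the exponential sum at a Boolean point is a sum of differentials `dc` of the
coefficients of `Φ ℓ`, `ℓ = 6 n + 1`. In a relation the queries of the levels above `ℓ` are
left out one level after the other; at the end the level `ℓ` is compared with `low_dual`.
-/

namespace VRB

open MvPolynomial

private theorem ev_bind {σ τ : Type} (y : τ → ℂ) (f : ℕ → MvPolynomial τ ℂ) (g : σ → ℕ)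
    (P : MvPolynomial σ ℂ) :
    eval y (bind₁ f (rename g P)) = eval (fun i => eval y (f (g i))) P := by
  induction P using MvPolynomial.induction_on with
  | C a => simp
  | add p q hp hq => rw [map_add, map_add, map_add, hp, hq, map_add]
  | mul_X p i hp =>
    rw [map_mul, map_mul, map_mul, hp, map_mul, rename_X, bind₁_X_right, eval_X]

private theorem pt_eq {n : ℕ} (x e : Fin n → Bool) (v : Fin (6 * n + 1)) :
    eval (pv x) (bits n n e v) = bpt n x e v := by
  unfold bits bpt pv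
  by_cases h : (v : ℕ) < n
  · rw [if_pos h, dif_pos h, eval_X, dif_pos h]
  · rw [if_neg h, dif_neg h]
    by_cases h' : (v : ℕ) - n < n
    · rw [dif_pos h', dif_pos h']
      split_ifs
      · rw [map_one]
      · rw [map_zero]
    · rw [dif_neg h', dif_neg h', map_zero]

/-- the value is zero or one -/
private def Z1 (t : ℂ) : Prop := t = 0 ∨ t = 1

private theorem Z1.mul {s t : ℂ} (hs : Z1 s) (ht : Z1 t) : Z1 (s * t) := by
  rcases hs with rfl | rfl
  · left; rw [zero_mul]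
  · rw [one_mul]; exact ht

private theorem Z1.pow {t : ℂ} (ht : Z1 t) (k : ℕ) : Z1 (t ^ k) := by
  induction k with
  | zero => right; rw [pow_zero]
  | succ k ih => rw [pow_succ]; exact ih.mul ht

private theorem Z1.prod {ι : Type} (s : Finset ι) (f : ι → ℂ) (h : ∀ i ∈ s, Z1 (f i)) :
    Z1 (∏ i ∈ s, f i) := by
  classical
  induction s using Finset.induction_on with
  | empty => right; rw [Finset.prod_empty]
  | insert a s ha ih =>
    rw [Finset.prod_insert ha]
    exact (h a (Finset.mem_insert_self a s)).mul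
      (ih fun i hi => h i (Finset.mem_insert_of_mem hi))

private theorem Z1.dd {t : ℂ} (h : Z1 t) : VRB.dd t = 0 := by
  rcases h with rfl | rfl
  · exact dd_zero
  · exact dd_one

private theorem z1_bpt {n : ℕ} (x e : Fin n → Bool) (v : Fin (6 * n + 1)) :
    Z1 (bpt n x e v) := by
  unfold bpt Z1
  split_ifs <;> simp

private theorem z1_mono {n : ℕ} (x e : Fin n → Bool) (p : Mon n) :
    Z1 (eval (bpt n x e) (mono n p)) := by
  unfold mono
  rw [map_mul, map_prod, map_prod]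
  refine (Z1.prod _ _ fun i _ => ?_).mul (Z1.prod _ _ fun i _ => ?_)
  · rw [map_pow, eval_X]
    exact (z1_bpt x e _).pow _
  · rw [map_pow, eval_X]
    exact (z1_bpt x e _).pow _

private theorem dd_sum {ι : Type} (s : Finset ι) (f : ι → ℂ) :
    dd (∑ i ∈ s, f i) = ∑ i ∈ s, dd (f i) := by
  classical
  induction s using Finset.induction_on with
  | empty => rw [Finset.sum_empty, Finset.sum_empty, dd_zero]
  | insert a s ha ih => rw [Finset.sum_insert ha, Finset.sum_insert ha, dd_add, ih]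

private theorem dd_fam {A Φ : Orc} {K : ℕ → Subfield ℂ} {Y : ∀ L, Set (Fin L → ℂ)}
    (hT : Tower A Φ K Y) {n : ℕ} (x : Fin n → Bool) :
    dd (eval (pv x) (fam Φ n)) = ∑ e : Fin n → Bool, dc (Φ (6 * n + 1)) (bpt n x e) := by
  obtain ⟨a, -, ha⟩ := hT.lev1 n
  unfold fam
  rw [map_sum, dd_sum]
  refine Finset.sum_congr rfl fun e _ => ?_
  rw [ev_bind]
  have h1 : (fun i : Fin (6 * n + 1) => eval (pv x) (bits n n e (i : ℕ))) = bpt n x e :=
    funext fun i => pt_eq x e i
  rw [h1, ha, dc_low, map_sum, dd_sum]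
  refine Finset.sum_congr rfl fun p _ => ?_
  rw [map_mul, eval_C, dd_mul, (z1_mono x e p).dd, smul_zero, zero_add]

private theorem coefIn_rename {L M : ℕ} {K : Subfield ℂ} (f : Fin L → Fin M)
    (hf : Function.Injective f) {P : MvPolynomial (Fin L) ℂ} (h : CoefIn K P) :
    CoefIn K (rename f P) := by
  intro m
  by_cases h0 : coeff m (rename f P) = 0
  · rw [h0]
    exact K.zero_mem
  · obtain ⟨u, hu, -⟩ := coeff_rename_ne_zero f P m h0
    rw [← hu, coeff_rename_mapDomain f hf]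
    exact h u

open Classical in
/-- the points of the queries of a level -/
private noncomputable def lvQ (Q : Finset (Σ L : ℕ, Fin L → ℂ)) (L : ℕ) :
    Finset (Fin L → ℂ) :=
  Q.preimage (fun z => (⟨L, z⟩ : Σ L : ℕ, Fin L → ℂ)) fun _ _ _ _ h => sigma_mk_injective h

private theorem mem_lvQ {Q : Finset (Σ L : ℕ, Fin L → ℂ)} {L : ℕ} {z : Fin L → ℂ} :
    z ∈ lvQ Q L ↔ (⟨L, z⟩ : Σ L : ℕ, Fin L → ℂ) ∈ Q := by
  unfold lvQ
  rw [Finset.mem_preimage]

/-- the points of a level as queries -/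
private def smk (L : ℕ) : (Fin L → ℂ) ↪ (Σ L : ℕ, Fin L → ℂ) :=
  ⟨fun z => ⟨L, z⟩, fun _ _ h => sigma_mk_injective h⟩

open Classical in
private theorem lvQ_map (Q : Finset (Σ L : ℕ, Fin L → ℂ)) (L : ℕ) :
    (lvQ Q L).map (smk L) = Q.filter fun q => q.1 = L := by
  ext ⟨M, z⟩
  simp only [smk, Finset.mem_map, Function.Embedding.coeFn_mk, Finset.mem_filter, mem_lvQ]
  constructor
  · rintro ⟨w, hw, hq⟩
    cases hq
    exact ⟨hw, rfl⟩
  · rintro ⟨h1, rfl⟩
    exact ⟨z, h1, rfl⟩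

private theorem lvQ_card (Q : Finset (Σ L : ℕ, Fin L → ℂ)) (L : ℕ) :
    (lvQ Q L).card ≤ Q.card := by
  classical
  rw [← Finset.card_map (smk L), lvQ_map]
  exact Finset.card_filter_le _ _

/-- the part of a level -/
private noncomputable def WL (Φ : Orc) (Y : ∀ L, Set (Fin L → ℂ))
    (Q : Finset (Σ L : ℕ, Fin L → ℂ)) (μ : (Σ L : ℕ, Fin L → ℂ) → ℂ) (L : ℕ) : Om :=
  ∑ z ∈ lvQ Q L, μ ⟨L, z⟩ • qv Φ Y ⟨L, z⟩

private theorem sum_WL (Φ : Orc) (Y : ∀ L, Set (Fin L → ℂ))
    (Q : Finset (Σ L : ℕ, Fin L → ℂ)) (μ : (Σ L : ℕ, Fin L → ℂ) → ℂ) (B : ℕ)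
    (hB : ∀ q ∈ Q, q.1 < B) :
    ∑ q ∈ Q, μ q • qv Φ Y q = ∑ L ∈ Finset.range B, WL Φ Y Q μ L := by
  classical
  rw [← Finset.sum_fiberwise_of_maps_to (g := fun q : Σ L : ℕ, Fin L → ℂ => q.1)
    (t := Finset.range B) (fun q hq => Finset.mem_range.2 (hB q hq))]
  refine Finset.sum_congr rfl fun L _ => ?_
  rw [← lvQ_map, Finset.sum_map]
  rfl

private theorem WL_mem {Φ : Orc} {Y : ∀ L, Set (Fin L → ℂ)} (Q : Finset (Σ L : ℕ, Fin L → ℂ)) (μ : (Σ L : ℕ, Fin L → ℂ) → ℂ)
    (L : ℕ) {K' : Subfield ℂ} (h : CoefIn K' (Φ L)) : WL Φ Y Q μ L ∈ dK K' := by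
  unfold WL
  refine Submodule.sum_mem _ fun z _ => Submodule.smul_mem _ _ ?_
  unfold qv
  split_ifs
  · exact Submodule.zero_mem _
  · exact dc_coefIn h z

/-- a level above the level of the exponential sums can be left out -/
private theorem WL_step {A Φ : Orc} {K : ℕ → Subfield ℂ} {Y : ∀ L, Set (Fin L → ℂ)}
    (hT : Tower A Φ K Y) (Q : Finset (Σ L : ℕ, Fin L → ℂ)) (μ : (Σ L : ℕ, Fin L → ℂ) → ℂ)
    (L : ℕ) (hL : Q.card ≤ 2 ^ L) (h : WL Φ Y Q μ L ∈ dK (K L)) :
    WL Φ Y Q μ L ∈ dK (K 0) := by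
  classical
  rcases (by omega : L % 3 = 0 ∨ L % 3 = 2 ∨ L % 6 = 1 ∨ L % 6 = 4) with h0 | h0 | h0 | h0
  · obtain ⟨M, rfl⟩ : ∃ M, L = 3 * M := ⟨L / 3, by omega⟩
    apply WL_mem
    rw [hT.lev0 M]
    exact coefIn_rename _ (Fin.castLE_injective _) (hT.base M)
  · -- generic in the ideal
    obtain ⟨M, g, a, hg, hind, hF, hY, hsep⟩ := hT.lev2 L h0
    set S : Finset (Fin L → ℂ) := (lvQ Q L).filter fun z => z ∉ Y L with hS
    have h1 : WL Φ Y Q μ L = ∑ z ∈ S, μ ⟨L, z⟩ • dc (Φ L) z := by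
      unfold WL
      rw [hS, Finset.sum_filter]
      refine Finset.sum_congr rfl fun z _ => ?_
      unfold qv
      by_cases hz : z ∈ Y L
      · rw [if_pos ⟨h0, hz⟩, if_neg (not_not.2 hz), smul_zero]
      · rw [if_neg (fun h => hz h.2), if_pos hz]
    have h2 : ∑ k, (∑ z ∈ S, μ ⟨L, z⟩ * eval z (g k)) • dd (a k) ∈ dK (K L) := by
      have h3 : ∑ k, (∑ z ∈ S, μ ⟨L, z⟩ * eval z (g k)) • dd (a k) =
          WL Φ Y Q μ L - ∑ z ∈ S, μ ⟨L, z⟩ •
            (dc (∑ k, C (a k) * g k) z - ∑ k, eval z (g k) • dd (a k)) := by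
        rw [h1, ← hF, ← Finset.sum_sub_distrib]
        simp_rw [Finset.sum_smul]
        rw [Finset.sum_comm]
        refine Finset.sum_congr rfl fun z _ => ?_
        rw [← smul_sub, sub_sub_cancel, Finset.smul_sum]
        refine Finset.sum_congr rfl fun k _ => ?_
        rw [smul_smul]
      rw [h3]
      refine Submodule.sub_mem _ h (Submodule.sum_mem _ fun z _ => Submodule.smul_mem _ _ ?_)
      exact dc_comb g a hg z
    have h3 : ∀ k, ∑ z ∈ S, μ ⟨L, z⟩ * eval z (g k) = 0 := dli hind _ h2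
    have h4 : ∀ y0 ∈ S, μ ⟨L, y0⟩ = 0 := by
      intro y0 hy0
      obtain ⟨l, hl⟩ := hsep S (by
        refine le_trans ?_ hL
        exact (Finset.card_filter_le _ _).trans (lvQ_card Q L))
        (fun y hy => (Finset.mem_filter.1 hy).2) y0 hy0
      have h5 : ∑ k, l k * ∑ z ∈ S, μ ⟨L, z⟩ * eval z (g k) = μ ⟨L, y0⟩ := by
        simp_rw [Finset.mul_sum]
        rw [Finset.sum_comm]
        have h6 : ∀ z ∈ S, ∑ k, l k * (μ ⟨L, z⟩ * eval z (g k)) =
            μ ⟨L, z⟩ * (if z = y0 then 1 else 0) := by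
          intro z hz
          rw [← hl z hz, Finset.mul_sum]
          refine Finset.sum_congr rfl fun k _ => ?_
          ring
        rw [Finset.sum_congr rfl h6]
        simp [hy0]
      rw [← h5]
      refine Finset.sum_eq_zero fun k _ => ?_
      rw [h3 k, mul_zero]
    rw [h1, Finset.sum_eq_zero]
    · exact Submodule.zero_mem _
    · intro z hz
      rw [h4 z hz, zero_smul]
  · obtain ⟨m, rfl⟩ : ∃ m, L = 6 * m + 1 := ⟨L / 6, by omega⟩
    obtain ⟨b, hind, hF⟩ := hT.lev1 m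
    have h1 : WL Φ Y Q μ (6 * m + 1) =
        ∑ p, (∑ z ∈ lvQ Q (6 * m + 1), μ ⟨6 * m + 1, z⟩ * eval z (mono m p)) • dd (b p) := by
      unfold WL
      simp_rw [Finset.sum_smul]
      rw [Finset.sum_comm]
      refine Finset.sum_congr rfl fun z _ => ?_
      unfold qv
      rw [if_neg (fun h => by have := h.1; simp only at this; omega)]
      simp only
      rw [hF, dc_low, Finset.smul_sum]
      refine Finset.sum_congr rfl fun p _ => ?_
      rw [smul_smul]
    rw [h1] at h ⊢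
    have h3 := dli hind _ h
    rw [Finset.sum_eq_zero]
    · exact Submodule.zero_mem _
    · intro p _
      rw [h3 p, zero_smul]
  · obtain ⟨m, rfl⟩ : ∃ m, L = 6 * m + 4 := ⟨L / 6, by omega⟩
    apply WL_mem
    rw [hT.lev4 m]
    intro d
    rw [coeff_zero]
    exact (K 0).zero_mem

theorem lb_lev {A Φ : Orc} {K : ℕ → Subfield ℂ} {Y : ∀ L, Set (Fin L → ℂ)} (hT : Tower A Φ K Y)
    {n : ℕ} (N : Finset (Fin n → Bool)) (Q : Finset (Σ L : ℕ, Fin L → ℂ)) (hQ : Q.card < 2 ^ n)
    (c : (Fin n → Bool) → ℂ)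
    (h : ∑ x ∈ N, c x • dd (eval (pv x) (fam Φ n)) ∈ Submodule.span ℂ (qv Φ Y '' (Q : Set _))) :
    ∀ x ∈ N, c x = 0 := by
  classical
  have hK : Monotone K := monotone_nat_of_le_succ hT.mono
  obtain ⟨μ, hμ⟩ := (Submodule.mem_span_image_finset_iff_exists_fun' ℂ).1 h
  set V : Om := ∑ x ∈ N, c x • dd (eval (pv x) (fam Φ n)) with hV
  have hVe : V = ∑ x ∈ N, c x • ∑ e : Fin n → Bool, dc (Φ (6 * n + 1)) (bpt n x e) := by
    rw [hV]
    refine Finset.sum_congr rfl fun x _ => ?_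
    rw [dd_fam hT]
  have hVm : V ∈ dK (K (6 * n + 1 + 1)) := by
    rw [hVe]
    exact Submodule.sum_mem _ fun x _ => Submodule.smul_mem _ _
      (Submodule.sum_mem _ fun e _ => dc_coefIn (hT.coef _) _)
  -- the levels above are left out
  obtain ⟨B, hB⟩ : ∃ B : ℕ, ∀ q ∈ Q, q.1 < B := by
    refine ⟨Q.sup (fun q => q.1) + 1, fun q hq => Nat.lt_succ_of_le ?_⟩
    exact Finset.le_sup (f := fun q : Σ L : ℕ, Fin L → ℂ => q.1) hq
  have hdown : ∀ j : ℕ, V - ∑ L ∈ Finset.range (max B (6 * n + 2) - j), WL Φ Y Q μ L ∈ dK (K 0) ∨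
      max B (6 * n + 2) - j < 6 * n + 2 := by
    intro j
    induction j with
    | zero =>
      left
      rw [Nat.sub_zero, ← sum_WL Φ Y Q μ _ (fun q hq => (hB q hq).trans_le (le_max_left _ _)),
        hμ, sub_self]
      exact Submodule.zero_mem _
    | succ j ih =>
      rcases ih with ih | ih
      · by_cases hj : max B (6 * n + 2) - (j + 1) < 6 * n + 2
        · exact Or.inr hj
        · left
          push Not at hj
          obtain ⟨L, hL⟩ : ∃ L, max B (6 * n + 2) - (j + 1) = L := ⟨_, rfl⟩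
          have hL1 : max B (6 * n + 2) - j = L + 1 := by omega
          rw [hL1, Finset.sum_range_succ] at ih
          rw [hL] at hj ⊢
          have h1 : WL Φ Y Q μ L ∈ dK (K L) := by
            have h2 : WL Φ Y Q μ L = (V - ∑ L ∈ Finset.range L, WL Φ Y Q μ L) -
                (V - (∑ L ∈ Finset.range L, WL Φ Y Q μ L + WL Φ Y Q μ L)) := by abel
            rw [h2]
            refine Submodule.sub_mem _ (Submodule.sub_mem _ ?_ ?_) (dK_mono (hK (Nat.zero_le _)) ih)
            · exact dK_mono (hK (by omega)) hVm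
            · refine Submodule.sum_mem _ fun M hM => ?_
              have hM' := Finset.mem_range.1 hM
              exact dK_mono (hK (by omega)) (WL_mem Q μ M (hT.coef M))
          have h3 := WL_step hT Q μ L (hQ.le.trans
            (Nat.pow_le_pow_right (by norm_num) (by omega))) h1
          have h4 : V - ∑ L ∈ Finset.range L, WL Φ Y Q μ L =
              (V - (∑ L ∈ Finset.range L, WL Φ Y Q μ L + WL Φ Y Q μ L)) + WL Φ Y Q μ L := by
            abel
          rw [h4]
          exact Submodule.add_mem _ ih h3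
      · right
        omega
  have hlev : V - ∑ L ∈ Finset.range (6 * n + 2), WL Φ Y Q μ L ∈ dK (K 0) := by
    have h1 := hdown (max B (6 * n + 2) - (6 * n + 2))
    have h2 : max B (6 * n + 2) - (max B (6 * n + 2) - (6 * n + 2)) = 6 * n + 2 := by
      have := le_max_right B (6 * n + 2)
      omega
    rw [h2] at h1
    rcases h1 with h1 | h1
    · exact h1
    · exact absurd h1 (lt_irrefl _)
  -- the level of the exponential sums
  obtain ⟨a, hind, hF⟩ := hT.lev1 n
  have hmain : V - WL Φ Y Q μ (6 * n + 1) ∈ dK (K (6 * n + 1)) := by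
    rw [Finset.sum_range_succ] at hlev
    have h1 : V - WL Φ Y Q μ (6 * n + 1) =
        (V - (∑ L ∈ Finset.range (6 * n + 1), WL Φ Y Q μ L + WL Φ Y Q μ (6 * n + 1))) +
          ∑ L ∈ Finset.range (6 * n + 1), WL Φ Y Q μ L := by abel
    rw [h1]
    refine Submodule.add_mem _ (dK_mono (hK (Nat.zero_le _)) hlev)
      (Submodule.sum_mem _ fun M hM => ?_)
    have hM' := Finset.mem_range.1 hM
    exact dK_mono (hK (by omega)) (WL_mem Q μ M (hT.coef M))
  have hW : WL Φ Y Q μ (6 * n + 1) =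
      ∑ p, (∑ z ∈ lvQ Q (6 * n + 1), μ ⟨6 * n + 1, z⟩ * eval z (mono n p)) • dd (a p) := by
    unfold WL
    simp_rw [Finset.sum_smul]
    rw [Finset.sum_comm]
    refine Finset.sum_congr rfl fun z _ => ?_
    unfold qv
    rw [if_neg (fun h => by have := h.1; simp only at this; omega)]
    simp only
    rw [hF, dc_low, Finset.smul_sum]
    refine Finset.sum_congr rfl fun p _ => ?_
    rw [smul_smul]
  have hV2 : V = ∑ p, (∑ x ∈ N, c x * ∑ e : Fin n → Bool, eval (bpt n x e) (mono n p)) •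
      dd (a p) := by
    rw [hVe]
    simp_rw [Finset.sum_smul]
    rw [Finset.sum_comm]
    refine Finset.sum_congr rfl fun x _ => ?_
    simp_rw [← smul_smul]
    rw [← Finset.smul_sum]
    congr 1
    simp_rw [Finset.sum_smul]
    rw [Finset.sum_comm]
    refine Finset.sum_congr rfl fun e _ => ?_
    rw [hF, dc_low]
  have hcoef : ∀ p, ∑ x ∈ N, c x * ∑ e : Fin n → Bool, eval (bpt n x e) (mono n p) =
      ∑ z ∈ lvQ Q (6 * n + 1), μ ⟨6 * n + 1, z⟩ * eval z (mono n p) := by
    intro p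
    rw [hV2, hW, ← Finset.sum_sub_distrib] at hmain
    simp_rw [← sub_smul] at hmain
    exact sub_eq_zero.1 (dli hind _ hmain p)
  intro x0 hx0
  obtain ⟨l, hl1, hl2⟩ := low_dual n (lvQ Q (6 * n + 1)) ((lvQ_card Q _).trans_lt hQ) x0
  have h1 : ∑ p, l p * ∑ z ∈ lvQ Q (6 * n + 1), μ ⟨6 * n + 1, z⟩ * eval z (mono n p) = 0 := by
    simp_rw [Finset.mul_sum]
    rw [Finset.sum_comm]
    refine Finset.sum_eq_zero fun z hz => ?_
    have h2 : ∑ p, l p * (μ ⟨6 * n + 1, z⟩ * eval z (mono n p)) =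
        μ ⟨6 * n + 1, z⟩ * ∑ p, l p * eval z (mono n p) := by
      rw [Finset.mul_sum]
      refine Finset.sum_congr rfl fun p _ => ?_
      ring
    rw [h2, hl1 z hz, mul_zero]
  have h2 : ∑ p, l p * ∑ x ∈ N, c x * ∑ e : Fin n → Bool, eval (bpt n x e) (mono n p) =
      c x0 := by
    have h3 : ∀ x ∈ N, ∑ p, l p * (c x * ∑ e : Fin n → Bool, eval (bpt n x e) (mono n p)) =
        c x * (if x = x0 then 1 else 0) := by
      intro x _
      rw [← hl2 x, Finset.sum_comm, Finset.mul_sum]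
      refine Finset.sum_congr rfl fun p _ => ?_
      rw [← Finset.mul_sum]
      ring
    have h4 : ∑ p, l p * ∑ x ∈ N, c x * ∑ e : Fin n → Bool, eval (bpt n x e) (mono n p) =
        ∑ x ∈ N, ∑ p, l p * (c x * ∑ e : Fin n → Bool, eval (bpt n x e) (mono n p)) := by
      rw [Finset.sum_comm]
      refine Finset.sum_congr rfl fun p _ => ?_
      rw [Finset.mul_sum]
    rw [h4, Finset.sum_congr rfl h3]
    simp [hx0]
  rw [← h2]
  simp_rw [hcoef]
  exact h1

end VRB
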