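import Pool.Agent.VRB.Dcal

/-!
# VRB-LbRun: differentials of the values of a circuit

`qv Φ Y (L, z)`: the differential of the coefficients of `Φ L` at `z`, except when the value is `0`
because `z ∈ Y L`, `L = 2 mod 3`.

## Plan
Let `g` be the circuit. `C` = the constants of the constant gates (choose one for each such gate),
so at most `s` numbers. For a Boolean point `x` the queries are the pairs `(L, fun l => pt x (g (w
l)))` for the oracle gates, at most `s` for each `x`. By strong induction on the gate `i`, for all
`x ∈ N`: `dd (eval (pv x) (g i)) ∈ span (dd '' C) ⊔ span (qv '' Q)`: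
constants; variables: the value is `0` or `1`, `dd_zero`, `dd_one`; `dd_add`, `dd_sub`, `dd_mul`;
oracle gates: `eval (pv x) (aeval (fun l => g (w l)) (Φ L)) = eval z (Φ L)`; if `L % 3 = 2` and
`z ∈ Y L` the value is `0` (`hY`), otherwise `dd_eval` and `qv = dc (Φ L) z`.
`Q` as a finite set: image of `N ×ˢ univ` (`Fin s`), so `Q.card ≤ N.card * s`. Choose a default query
`(0, _)` for gates which are no oracle gates.
-/

namespace VRB

open MvPolynomial

/-- the Boolean point as a valuation of the variables -/
noncomputable def pv {n : ℕ} (x : Fin n → Bool) : ℕ → ℂ := fun v =>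
  if h : v < n then (if x ⟨v, h⟩ then 1 else 0) else 0

open Classical in
/-- the new differential of a query -/
noncomputable def qv (Φ : Orc) (Y : ∀ L, Set (Fin L → ℂ)) (q : Σ L : ℕ, Fin L → ℂ) : Om :=
  if q.1 % 3 = 2 ∧ q.2 ∈ Y q.1 then 0 else dc (Φ q.1) q.2

private lemma eval_aeval_aux {L : ℕ} (y : ℕ → ℂ) (G : Fin L → MvPolynomial ℕ ℂ)
    (p : MvPolynomial (Fin L) ℂ) :
    eval y (aeval G p) = eval (fun l => eval y (G l)) p := by
  induction p using MvPolynomial.induction_on with
  | C c => simp
  | add p q hp hq => rw [map_add, map_add, map_add, hp, hq]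
  | mul_X p v hp => rw [map_mul, map_mul, map_mul, hp, aeval_X, eval_X]

theorem lb_run {Φ : Orc} {Y : ∀ L, Set (Fin L → ℂ)}
    (hY : ∀ L, L % 3 = 2 → ∀ z ∈ Y L, eval z (Φ L) = 0) {s : ℕ} {f : MvPolynomial ℕ ℂ}
    (hf : Comp Φ s f) {n : ℕ} (N : Finset (Fin n → Bool)) :
    ∃ (C : Finset ℂ) (Q : Finset (Σ L : ℕ, Fin L → ℂ)), C.card ≤ s ∧ Q.card ≤ N.card * s ∧
      ∀ x ∈ N, dd (eval (pv x) f) ∈
        Submodule.span ℂ (dd '' (C : Set ℂ)) ⊔ Submodule.span ℂ (qv Φ Y '' (Q : Set _)) := by
  classical
  obtain ⟨g, ⟨i0, hi0⟩, hg⟩ := hf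
  let cst : Fin s → ℂ := fun i => if h : ∃ c : ℂ, g i = C c then h.choose else 0
  let qr : (Fin n → Bool) → Fin s → (Σ L : ℕ, Fin L → ℂ) := fun x i =>
    if h : ∃ (L : ℕ) (w : Fin L → Fin s), L ≤ s ∧ (∀ l, w l < i) ∧
        g i = aeval (fun l => g (w l)) (Φ L) then
      ⟨h.choose, fun l => eval (pv x) (g (h.choose_spec.choose l))⟩
    else ⟨0, fun l => l.elim0⟩
  refine ⟨Finset.univ.image cst,
    (N ×ˢ (Finset.univ : Finset (Fin s))).image (fun q => qr q.1 q.2), ?_, ?_, ?_⟩
  · exact Finset.card_image_le.trans (by simp)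
  · refine Finset.card_image_le.trans ?_
    rw [Finset.card_product, Finset.card_univ, Fintype.card_fin]
  · intro x hx
    set W : Submodule ℂ Om := Submodule.span ℂ (dd '' ((Finset.univ.image cst : Finset ℂ) : Set ℂ)) ⊔
      Submodule.span ℂ (qv Φ Y '' (((N ×ˢ (Finset.univ : Finset (Fin s))).image
        (fun q => qr q.1 q.2) : Finset (Σ L : ℕ, Fin L → ℂ)) : Set _)) with hW
    have hcW : ∀ i, dd (cst i) ∈ W := by
      intro i
      apply Submodule.mem_sup_left
      apply Submodule.subset_span
      exact ⟨cst i, by simp, rfl⟩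
    have hqW : ∀ i, qv Φ Y (qr x i) ∈ W := by
      intro i
      apply Submodule.mem_sup_right
      apply Submodule.subset_span
      refine ⟨qr x i, ?_, rfl⟩
      rw [Finset.mem_coe, Finset.mem_image]
      exact ⟨(x, i), by simp [hx], rfl⟩
    have main : ∀ (k : ℕ) (i : Fin s), (i : ℕ) = k → dd (eval (pv x) (g i)) ∈ W := by
      intro k
      induction k using Nat.strong_induction_on with
      | _ k ih =>
        intro i hik
        have ih' : ∀ j : Fin s, j < i → dd (eval (pv x) (g j)) ∈ W := fun j hj =>
          ih j (by rw [← hik]; exact hj) j rfl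
        rcases hg i with hc | ⟨v, hv⟩ | ⟨j, l, hj, hl, h3⟩ | h4
        · have h1 : g i = C (cst i) := by
            have : cst i = hc.choose := by simp only [cst]; rw [dif_pos hc]
            rw [this]; exact hc.choose_spec
          rw [h1, eval_C]
          exact hcW i
        · rw [hv, eval_X]
          unfold pv
          split_ifs
          · rw [dd_one]; exact W.zero_mem
          · rw [dd_zero]; exact W.zero_mem
          · rw [dd_zero]; exact W.zero_mem
        · rcases h3 with h3 | h3 | h3
          · rw [h3, map_add, dd_add]; exact W.add_mem (ih' j hj) (ih' l hl)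
          · rw [h3, map_sub, dd_sub]; exact W.sub_mem (ih' j hj) (ih' l hl)
          · rw [h3, map_mul, dd_mul]
            exact W.add_mem (W.smul_mem _ (ih' l hl)) (W.smul_mem _ (ih' j hj))
        · obtain ⟨hL, hw, hgi⟩ := h4.choose_spec.choose_spec
          have hqr : qr x i = ⟨h4.choose, fun l => eval (pv x) (g (h4.choose_spec.choose l))⟩ := by
            simp only [qr]; rw [dif_pos h4]
          have hq := hqW i
          rw [hqr] at hq
          generalize h4.choose_spec.choose = w at hw hgi hq
          generalize h4.choose = L at w hL hw hgi hq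
          set z : Fin L → ℂ := fun l => eval (pv x) (g (w l)) with hz
          have hev : eval (pv x) (g i) = eval z (Φ L) := by
            rw [hgi]
            exact eval_aeval_aux _ _ _
          rw [hev]
          by_cases hY' : L % 3 = 2 ∧ z ∈ Y L
          · rw [hY L hY'.1 z hY'.2, dd_zero]; exact W.zero_mem
          · have hqv : qv Φ Y ⟨L, z⟩ = dc (Φ L) z := by
              unfold qv
              rw [if_neg hY']
            rw [hqv] at hq
            have h5 := dd_eval (Φ L) z
            have h6 : Submodule.span ℂ (Set.range fun v => dd (z v)) ≤ W := by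
              rw [Submodule.span_le]
              rintro _ ⟨v, rfl⟩
              exact ih' (w v) (hw v)
            have h7 := W.add_mem (h6 h5) hq
            rwa [sub_add_cancel] at h7
    rw [← hi0]
    exact main i0 i0 rfl

end VRB
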