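import Pool.Agent.VRB.PrPre
import Pool.Agent.VRB.PrSrch

/-!
# VRB-PrMain: the deciding program

The program prepares the padding, searches for the first nonzero answer of the oracle and accepts if
its number is odd; the running time is polynomial.
-/

namespace VRB

private theorem PrMain_ws (x : List ℂ) (d : ℕ) :
    upd (upd (upd (upd (upd (inp x []) 3 [(x.length : ℂ)]) 7 (List.replicate d 0)) 8 [0]) 10 [0])
      11 [0] = ws x d 0 0 [0] := by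
  funext i
  unfold upd ws inp
  by_cases h0 : i = 0
  · subst h0; simp
  by_cases h3 : i = 3
  · subst h3; simp
  by_cases h7 : i = 7
  · subst h7; simp
  by_cases h8 : i = 8
  · subst h8; simp
  by_cases h10 : i = 10
  · subst h10; simp
  by_cases h11 : i = 11
  · subst h11; simp
  simp [h0, h3, h7, h8, h10, h11]

private theorem PrMain_run (Φ : Orc) (e : ℕ) (c : List ℂ) (k q : ℕ) (x : List ℂ) (d r0 t1 t2 : ℕ)
    (h1 : Run Φ (pre k q) (inp x []) (upd (upd (inp x []) 3 [(x.length : ℂ)]) 7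
      (List.replicate d 0)) t1)
    (h2 : Run Φ (srch e c) (ws x d 0 0 [0]) (ws x d r0 (if Odd r0 then 1 else 0) []) t2) :
    ∃ σ : St, Run Φ (prg e c k q) (inp x []) σ
      (t1 + (1 + (1 + (1 + (t2 + ((2 * x.length + 1) + 1)))))) ∧ (Acc σ ↔ Odd r0) := by
  obtain ⟨s1, hs1⟩ : ∃ s1, s1 = upd (upd (inp x []) 3 [(x.length : ℂ)]) 7
    (List.replicate d 0) := ⟨_, rfl⟩
  obtain ⟨s2, hs2⟩ : ∃ s2, s2 = ws x d r0 (if Odd r0 then 1 else 0) [] := ⟨_, rfl⟩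
  rw [← hs1] at h1
  rw [← hs2] at h2
  have e8 : s1 8 = [] := by
    rw [hs1]
    simp [upd, inp]
  have e10 : upd s1 8 [0] 10 = [] := by
    rw [hs1]
    simp [upd, inp]
  have e11 : upd (upd s1 8 [0]) 10 [0] 11 = [] := by
    rw [hs1]
    simp [upd, inp]
  have p8 : Run Φ (.push 8 0) s1 (upd s1 8 [0]) 1 := by
    have := Run.push (Φ := Φ) 8 0 s1
    rwa [e8] at this
  have p10 : Run Φ (.push 10 0) (upd s1 8 [0]) (upd (upd s1 8 [0]) 10 [0]) 1 := by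
    have := Run.push (Φ := Φ) 10 0 (upd s1 8 [0])
    rwa [e10] at this
  have p11 : Run Φ (.push 11 0) (upd (upd s1 8 [0]) 10 [0])
      (upd (upd (upd s1 8 [0]) 10 [0]) 11 [0]) 1 := by
    have := Run.push (Φ := Φ) 11 0 (upd (upd s1 8 [0]) 10 [0])
    rwa [e11] at this
  have ew : upd (upd (upd s1 8 [0]) 10 [0]) 11 [0] = ws x d 0 0 [0] := by
    rw [hs1]
    exact PrMain_ws x d
  rw [ew] at p11
  have pc := clr_run Φ 0 s2
  have ex : s2 0 = x := by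
    rw [hs2]
    simp [ws]
  rw [ex] at pc
  have pl := Run.copy (Φ := Φ) 11 0 (upd s2 0 [])
  refine ⟨_, Run.seq h1 (Run.seq p8 (Run.seq p10 (Run.seq p11 (Run.seq h2 (Run.seq pc pl))))), ?_⟩
  have e1 : upd s2 0 [] 11 = [if Odd r0 then (1 : ℂ) else 0] := by
    rw [hs2]
    simp [upd, ws]
  unfold Acc
  rw [e1]
  by_cases h : Odd r0
  · simp [upd, h]
  · simp [upd, h]

private theorem PrMain_bd (n C k q : ℕ) :
    n + C + (3 * (n + 2) ^ k + 2 * n + q) + 5 ≤ (n + 2) ^ (k + C + q + 12) := by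
  have h1 : (n + 2) ≤ (n + 2) ^ (k + 1) := Nat.le_self_pow (by omega) _
  have h2 : (n + 2) ^ k ≤ (n + 2) ^ (k + 1) := Nat.pow_le_pow_right (by omega) (by omega)
  have h3 : 1 ≤ (n + 2) ^ (k + 1) := Nat.one_le_pow _ _ (by omega)
  have h4 : C + q + 11 ≤ (n + 2) ^ (C + q + 11) :=
    (Nat.lt_pow_self (by omega : 1 < n + 2)).le
  have h5 : n + C + (3 * (n + 2) ^ k + 2 * n + q) + 5 ≤ (n + 2) ^ (k + 1) * (C + q + 11) := by
    nlinarith
  refine h5.trans ((Nat.mul_le_mul_left _ h4).trans (le_of_eq ?_))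
  rw [← pow_add]
  congr 1
  ring

private theorem PrMain_time (n C k q K r0 t1 t2 : ℕ) (h1 : t1 ≤ (n + 2) ^ K)
    (hr : r0 < 3 + (n + C) + (3 * (n + 2) ^ k + 2 * n + q))
    (h2 : t2 ≤ (r0 + 1) * (20 * (n + C + (3 * (n + 2) ^ k + 2 * n + q) + 5)) + 1) :
    t1 + (1 + (1 + (1 + (t2 + ((2 * n + 1) + 1))))) ≤
      (n + 2) ^ (K + 2 * (k + C + q + 12) + 6) := by
  obtain ⟨a, ha⟩ : ∃ a, a = k + C + q + 12 := ⟨_, rfl⟩
  have hb := PrMain_bd n C k q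
  rw [← ha] at hb ⊢
  obtain ⟨D, hD⟩ : ∃ D, D = n + C + (3 * (n + 2) ^ k + 2 * n + q) + 5 := ⟨_, rfl⟩
  rw [← hD] at hb h2
  have h3 : r0 + 1 ≤ D := by omega
  have h4 : t2 ≤ 20 * (n + 2) ^ (2 * a) + 1 := by
    refine h2.trans (Nat.add_le_add_right ?_ 1)
    calc (r0 + 1) * (20 * D) ≤ (n + 2) ^ a * (20 * (n + 2) ^ a) :=
          Nat.mul_le_mul (h3.trans hb) (Nat.mul_le_mul_left _ hb)
      _ = 20 * (n + 2) ^ (2 * a) := by rw [two_mul, pow_add]; ring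
  obtain ⟨N, hN⟩ : ∃ N, N = (n + 2) ^ (K + 2 * a + 1) := ⟨_, rfl⟩
  have a1 : (n + 2) ^ K ≤ N := by
    rw [hN]; exact Nat.pow_le_pow_right (by omega) (by omega)
  have a2 : (n + 2) ^ (2 * a) ≤ N := by
    rw [hN]; exact Nat.pow_le_pow_right (by omega) (by omega)
  have a3 : n + 2 ≤ N := by
    rw [hN]; exact Nat.le_self_pow (by omega) _
  have a4 : (32 : ℕ) ≤ (n + 2) ^ 5 := by
    calc (32 : ℕ) = 2 ^ 5 := by norm_num
      _ ≤ (n + 2) ^ 5 := Nat.pow_le_pow_left (by omega) 5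
  have a5 : (n + 2) ^ (K + 2 * a + 6) = N * (n + 2) ^ 5 := by
    rw [hN, ← pow_add]
  rw [a5]
  calc t1 + (1 + (1 + (1 + (t2 + ((2 * n + 1) + 1))))) ≤ N * 32 := by omega
    _ ≤ N * (n + 2) ^ 5 := Nat.mul_le_mul_left _ a4

theorem search_prog (Φ : Orc) (e : ℕ) (c : List ℂ) (k q : ℕ) (B : Set (List ℂ))
    (H : ∀ x : List ℂ, ∃ r, r < 3 + (x.length + c.length) +
        (3 * (x.length + 2) ^ k + 2 * x.length + q) ∧
      ans Φ (ql e x.length r (x ++ c) (3 * (x.length + 2) ^ k + 2 * x.length + q)) ≠ 0 ∧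
      (∀ r' < r, ans Φ (ql e x.length r' (x ++ c)
        (3 * (x.length + 2) ^ k + 2 * x.length + q)) = 0) ∧ (x ∈ B ↔ Odd r)) : InP Φ B := by
  obtain ⟨K, hK⟩ := pre_run k q
  refine ⟨prg e c k q, K + 2 * (k + c.length + q + 12) + 6, fun x => ?_⟩
  obtain ⟨r0, hr, hne, h0, hB⟩ := H x
  obtain ⟨t1, ht1, h1⟩ := hK Φ x
  obtain ⟨t2, ht2, h2⟩ := srch_run Φ e c x (3 * (x.length + 2) ^ k + 2 * x.length + q) r0 hne h0
  obtain ⟨σ, hσ, hacc⟩ := PrMain_run Φ e c k q x _ r0 t1 t2 h1 h2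
  exact ⟨σ, _, hσ, PrMain_time x.length c.length k q K r0 t1 t2 ht1 hr ht2, hacc.trans hB.symm⟩

end VRB
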