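import Pool.Agent.VRB.PrBase

/-!
# VRB-PrPre: the preparation program

The program builds, from an input of length `n`, the counter stacks used by the main program; its running
time is polynomial in `n`.
-/

namespace VRB

private theorem loop_list (Φ : Orc) (i : ℕ) (p : Prog ℂ) (S : List ℂ → St) (n T : ℕ)
    (hS : ∀ l, S l i = l)
    (hb : ∀ a l, (a :: l).length ≤ n → ∃ t, t ≤ T ∧ Run Φ p (S (a :: l)) (S l) t)
    (l : List ℂ) (hl : l.length ≤ n) :
    ∃ t, t ≤ l.length * (T + 1) + 1 ∧ Run Φ (.loop i p) (S l) (S []) t := by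
  induction l with
  | nil => exact ⟨1, by simp, Run.loop_nil (hS [])⟩
  | cons a l ih =>
    obtain ⟨t1, ht1, h1⟩ := hb a l hl
    obtain ⟨t2, ht2, h2⟩ := ih (by simp only [List.length_cons] at hl; omega)
    refine ⟨t1 + t2 + 1, ?_, Run.loop_cons ?_ h1 h2⟩
    · rw [List.length_cons, add_mul]
      omega
    · rw [hS]
      exact List.cons_ne_nil a l

private theorem upd_same (σ : St) (i : ℕ) (l : List ℂ) : upd σ i l i = l := by simp [upd]

private theorem upd_ne (σ : St) {i j : ℕ} (l : List ℂ) (h : j ≠ i) : upd σ i l j = σ j := by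
  simp [upd, h]

private theorem upd_idem (σ : St) (i : ℕ) (l l' : List ℂ) : upd (upd σ i l) i l' = upd σ i l' := by
  funext j
  by_cases h : j = i
  · simp [upd, h]
  · simp [upd, h]

private theorem upd_comm (σ : St) {i j : ℕ} (l l' : List ℂ) (h : i ≠ j) :
    upd (upd σ i l) j l' = upd (upd σ j l') i l := by
  funext k
  by_cases h1 : k = i
  · subst h1
    simp [upd, h]
  · by_cases h2 : k = j
    · subst h2
      simp [upd, h1]
    · simp [upd, h1, h2]

private theorem upd_self (σ : St) {i : ℕ} {l : List ℂ} (h : σ i = l) : upd σ i l = σ := by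
  funext j
  by_cases h1 : j = i
  · subst h1
    simp [upd, h]
  · simp [upd, h1]

theorem pw_run (Φ : Orc) (k u : ℕ) (σ : St) (h4 : σ 4 = List.replicate u 0) (h5 : σ 5 = [])
    (h6 : σ 6 = []) (h9 : σ 9 = []) :
    ∃ t, t ≤ 20 * (k + 1) * (u + 1) ^ (k + 1) ∧
      Run Φ (pw k) σ (upd σ 5 (List.replicate (u ^ k) 0)) t := by
  induction k with
  | zero =>
    refine ⟨1, ?_, ?_⟩
    · have : 1 ≤ (u + 1) ^ (0 + 1) := Nat.one_le_pow _ _ (Nat.succ_pos u)
      omega
    · have h := Run.push (Φ := Φ) 5 0 σ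
      rw [h5] at h
      exact h
  | succ k ih =>
    obtain ⟨t1, ht1, h1⟩ := ih
    obtain ⟨N, hN⟩ : ∃ N, N = u ^ k := ⟨_, rfl⟩
    rw [← hN] at h1
    have h2 := mv_run Φ (i := 5) (j := 6) (by norm_num) (upd σ 5 (List.replicate N 0))
    rw [upd_same, upd_ne _ _ (by norm_num : (6 : ℕ) ≠ 5), h6, List.append_nil,
      List.reverse_replicate, upd_idem, List.length_replicate] at h2
    obtain ⟨S, hS⟩ : ∃ S : List ℂ → St, ∀ l, S l =
        upd (upd σ 5 (List.replicate ((N - l.length) * u) 0)) 6 l := ⟨_, fun _ => rfl⟩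
    obtain ⟨t3, ht3, h3⟩ := loop_list Φ 6 (.seq (.pop 6) (dup 4 5 9)) S N (7 * u + 3)
      (fun l => by rw [hS, upd_same])
      (by
        intro a l hl
        refine ⟨1 + (7 * u + 2), by omega, ?_⟩
        have e1 := Run.pop (Φ := Φ) 6 (S (a :: l))
        have e2 : upd (S (a :: l)) 6 ((S (a :: l)) 6).tail =
            upd (upd σ 5 (List.replicate ((N - (a :: l).length) * u) 0)) 6 l := by
          rw [hS, upd_same, upd_idem, List.tail_cons]
        rw [e2] at e1
        have e3 := dup_run Φ (a := 4) (b := 5) (c := 9) (by norm_num) (by norm_num) (by norm_num)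
          (upd (upd σ 5 (List.replicate ((N - (a :: l).length) * u) 0)) 6 l)
          (by rw [upd_ne _ _ (by norm_num), upd_ne _ _ (by norm_num), h9])
        rw [upd_ne _ _ (by norm_num : (4 : ℕ) ≠ 6), upd_ne _ _ (by norm_num : (4 : ℕ) ≠ 5), h4,
          upd_ne _ _ (by norm_num : (5 : ℕ) ≠ 6), upd_same, List.length_replicate,
          List.replicate_append_replicate, upd_comm _ _ _ (by norm_num : (6 : ℕ) ≠ 5),
          upd_idem] at e3
        have e4 : u + (N - (a :: l).length) * u = (N - l.length) * u := by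
          have e5 : N - l.length = (N - (a :: l).length) + 1 := by
            simp only [List.length_cons] at hl ⊢
            omega
          rw [e5, add_mul, one_mul, add_comm]
        rw [e4, ← hS] at e3
        exact Run.seq e1 e3)
      (List.replicate N 0) (by rw [List.length_replicate])
    have e1 : S (List.replicate N 0) = upd (upd σ 5 []) 6 (List.replicate N 0) := by
      rw [hS, List.length_replicate, Nat.sub_self, zero_mul, List.replicate_zero]
    have e2 : S [] = upd σ 5 (List.replicate (u ^ (k + 1)) 0) := by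
      rw [hS, List.length_nil, Nat.sub_zero, hN, ← pow_succ]
      exact upd_self _ (by rw [upd_ne _ _ (by norm_num), h6])
    rw [e1, e2] at h3
    refine ⟨t1 + ((3 * N + 1) + t3), ?_, Run.seq h1 (Run.seq h2 h3)⟩
    rw [List.length_replicate] at ht3
    have hle : N ≤ (u + 1) ^ k := by
      rw [hN]
      exact Nat.pow_le_pow_left (Nat.le_succ u) k
    have hM : 1 ≤ (u + 1) ^ (k + 1) := Nat.one_le_pow _ _ (Nat.succ_pos u)
    have hM1 : N * (u + 1) ≤ (u + 1) ^ (k + 1) := by
      rw [pow_succ]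
      exact Nat.mul_le_mul_right _ hle
    have hM2 : (u + 1) ^ (k + 1) ≤ (u + 1) ^ (k + 1 + 1) :=
      Nat.pow_le_pow_right (Nat.succ_pos u) (Nat.le_succ _)
    calc t1 + ((3 * N + 1) + t3) ≤ 20 * (k + 1) * (u + 1) ^ (k + 1) +
        ((3 * N + 1) + (N * (7 * u + 3 + 1) + 1)) := by
          have := ht1
          have := ht3
          omega
      _ = 20 * (k + 1) * (u + 1) ^ (k + 1) + (7 * (N * (u + 1)) + 2) := by ring
      _ ≤ 20 * (k + 1) * (u + 1) ^ (k + 1) + 20 * (u + 1) ^ (k + 1) := by omega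
      _ = 20 * (k + 1 + 1) * (u + 1) ^ (k + 1) := by ring
      _ ≤ 20 * (k + 1 + 1) * (u + 1) ^ (k + 1 + 1) := Nat.mul_le_mul_left _ hM2

/-- the states during the preparation -/
private def NS (x a2 a3 a4 a5 a7 : List ℂ) : St := fun i =>
  if i = 0 then x else if i = 2 then a2 else if i = 3 then a3 else if i = 4 then a4
  else if i = 5 then a5 else if i = 7 then a7 else []

private theorem NS2 (x a2 a3 a4 a5 a7 l : List ℂ) :
    upd (NS x a2 a3 a4 a5 a7) 2 l = NS x l a3 a4 a5 a7 := by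
  funext i
  simp only [upd, NS]
  split_ifs <;> first | rfl | omega

private theorem NS3 (x a2 a3 a4 a5 a7 l : List ℂ) :
    upd (NS x a2 a3 a4 a5 a7) 3 l = NS x a2 l a4 a5 a7 := by
  funext i
  simp only [upd, NS]
  split_ifs <;> first | rfl | omega

private theorem NS4 (x a2 a3 a4 a5 a7 l : List ℂ) :
    upd (NS x a2 a3 a4 a5 a7) 4 l = NS x a2 a3 l a5 a7 := by
  funext i
  simp only [upd, NS]
  split_ifs <;> first | rfl | omega

private theorem NS5 (x a2 a3 a4 a5 a7 l : List ℂ) :
    upd (NS x a2 a3 a4 a5 a7) 5 l = NS x a2 a3 a4 l a7 := by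
  funext i
  simp only [upd, NS]
  split_ifs <;> first | rfl | omega

private theorem NS7 (x a2 a3 a4 a5 a7 l : List ℂ) :
    upd (NS x a2 a3 a4 a5 a7) 7 l = NS x a2 a3 a4 a5 l := by
  funext i
  simp only [upd, NS]
  split_ifs <;> first | rfl | omega

private theorem NS_inp (x : List ℂ) : inp x [] = NS x [] [] [] [] [] := by
  funext i
  simp only [inp, NS]
  split_ifs <;> rfl

private theorem dup2 (Φ : Orc) (x a3 a4 a5 a7 : List ℂ) :
    Run Φ (dup 0 2 9) (NS x [] a3 a4 a5 a7) (NS x x a3 a4 a5 a7) (7 * x.length + 2) := by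
  have h := dup_run Φ (a := 0) (b := 2) (c := 9) (by norm_num) (by norm_num) (by norm_num)
    (NS x [] a3 a4 a5 a7) rfl
  rw [NS2] at h
  have e1 : (NS x [] a3 a4 a5 a7) 0 = x := rfl
  have e2 : (NS x [] a3 a4 a5 a7) 2 = [] := rfl
  rw [e1, e2, List.append_nil] at h
  exact h

private theorem cnt_run (Φ : Orc) (x : List ℂ) : ∃ t, t ≤ 11 * x.length + 4 ∧
    Run Φ cnt (NS x [] [] [] [] []) (NS x [] [(x.length : ℂ)] [] [] []) t := by
  obtain ⟨t, ht, h⟩ := loop_list Φ 2 (.seq (.pop 2) (.seq (.push 3 1) (.add 3)))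
    (fun l => NS x l [(x.length : ℂ) - l.length] [] [] []) x.length 3 (fun l => rfl)
    (by
      intro a l _
      refine ⟨1 + (1 + 1), le_rfl, ?_⟩
      have e1 := Run.pop (Φ := Φ) 2 (NS x (a :: l) [(x.length : ℂ) - (a :: l).length] [] [] [])
      rw [NS2] at e1
      have e2 := Run.push (Φ := Φ) 3 1 (NS x l [(x.length : ℂ) - (a :: l).length] [] [] [])
      rw [NS3] at e2
      have e3 := Run.add (Φ := Φ) 3
        (NS x l (1 :: [(x.length : ℂ) - (a :: l).length]) [] [] [])
      rw [NS3] at e3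
      have e4 : bin (fun x y => x + y)
          ((NS x l (1 :: [(x.length : ℂ) - (a :: l).length]) [] [] []) 3) =
          [(x.length : ℂ) - l.length] := by
        change [1 + ((x.length : ℂ) - (a :: l).length)] = [(x.length : ℂ) - l.length]
        rw [List.length_cons]
        push_cast
        congr 1
        ring
      rw [e4] at e3
      exact Run.seq e1 (Run.seq e2 e3))
    x le_rfl
  have h1 := dup2 Φ x [] [] [] []
  have h2 := Run.push (Φ := Φ) 3 0 (NS x x [] [] [] [])
  rw [NS3] at h2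
  have h3 : (NS x x (0 :: (NS x x [] [] [] []) 3) [] [] []) =
      NS x x [(x.length : ℂ) - x.length] [] [] [] := by
    rw [sub_self]
    rfl
  rw [h3] at h2
  simp only [List.length_nil, Nat.cast_zero, sub_zero] at h
  refine ⟨_, ?_, Run.seq h1 (Run.seq h2 h)⟩
  omega

private theorem una_run (Φ : Orc) (x a3 : List ℂ) : ∃ t, t ≤ 10 * x.length + 5 ∧
    Run Φ una (NS x [] a3 [] [] []) (NS x [] a3 (List.replicate (x.length + 2) 0) [] []) t := by
  obtain ⟨t, ht, h⟩ := loop_list Φ 2 (.seq (.pop 2) (.push 4 0))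
    (fun l => NS x l a3 (List.replicate (x.length - l.length + 2) 0) [] []) x.length 2
    (fun l => rfl)
    (by
      intro a l hl
      refine ⟨1 + 1, le_rfl, ?_⟩
      have e1 := Run.pop (Φ := Φ) 2
        (NS x (a :: l) a3 (List.replicate (x.length - (a :: l).length + 2) 0) [] [])
      rw [NS2] at e1
      have e2 := Run.push (Φ := Φ) 4 0
        (NS x l a3 (List.replicate (x.length - (a :: l).length + 2) 0) [] [])
      rw [NS4] at e2
      have e4 : (0 : ℂ) :: (NS x l a3 (List.replicate (x.length - (a :: l).length + 2) 0) [] []) 4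
          = List.replicate (x.length - l.length + 2) 0 := by
        have e5 : x.length - l.length + 2 = (x.length - (a :: l).length + 2) + 1 := by
          simp only [List.length_cons] at hl ⊢
          omega
        rw [e5, List.replicate_succ]
        rfl
      rw [e4] at e2
      exact Run.seq e1 e2)
    x le_rfl
  have h1 := dup2 Φ x a3 [] [] []
  have h2 := Run.push (Φ := Φ) 4 0 (NS x x a3 [] [] [])
  rw [NS4] at h2
  have h3 := Run.push (Φ := Φ) 4 0 (NS x x a3 (0 :: (NS x x a3 [] [] []) 4) [] [])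
  rw [NS4] at h3
  have e1 : (NS x x a3 (0 :: (NS x x a3 (0 :: (NS x x a3 [] [] []) 4) [] []) 4) [] []) =
      NS x x a3 (List.replicate (x.length - x.length + 2) 0) [] [] := by
    rw [Nat.sub_self]
    rfl
  rw [e1] at h3
  simp only [List.length_nil, Nat.sub_zero] at h
  refine ⟨_, ?_, Run.seq h1 (Run.seq h2 (Run.seq h3 h))⟩
  omega

private theorem loop5_run (Φ : Orc) (x a3 : List ℂ) (N : ℕ) : ∃ t, t ≤ 5 * N + 1 ∧
    Run Φ (.loop 5 (.seq (.pop 5) (.seq (.push 7 0) (.seq (.push 7 0) (.push 7 0)))))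
      (NS x [] a3 [] (List.replicate N 0) []) (NS x [] a3 [] [] (List.replicate (3 * N) 0)) t := by
  obtain ⟨t, ht, h⟩ := loop_list Φ 5
    (.seq (.pop 5) (.seq (.push 7 0) (.seq (.push 7 0) (.push 7 0))))
    (fun l => NS x [] a3 [] l (List.replicate (3 * (N - l.length)) 0)) N 4
    (fun l => rfl)
    (by
      intro a l hl
      refine ⟨1 + (1 + (1 + 1)), le_rfl, ?_⟩
      obtain ⟨R, hR⟩ : ∃ R : List ℂ, R = List.replicate (3 * (N - (a :: l).length)) 0 := ⟨_, rfl⟩
      have e1 := Run.pop (Φ := Φ) 5 (NS x [] a3 [] (a :: l) R)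
      rw [NS5] at e1
      have e2 := Run.push (Φ := Φ) 7 0 (NS x [] a3 [] l R)
      rw [NS7] at e2
      have e3 := Run.push (Φ := Φ) 7 0 (NS x [] a3 [] l (0 :: R))
      rw [NS7] at e3
      have e4 := Run.push (Φ := Φ) 7 0 (NS x [] a3 [] l (0 :: 0 :: R))
      rw [NS7] at e4
      have e5 : (0 : ℂ) :: 0 :: 0 :: R = List.replicate (3 * (N - l.length)) 0 := by
        have e6 : 3 * (N - l.length) = 3 * (N - (a :: l).length) + 1 + 1 + 1 := by
          simp only [List.length_cons] at hl ⊢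
          omega
        rw [e6, List.replicate_succ, List.replicate_succ, List.replicate_succ, hR]
      have e7 := Run.seq e1 (Run.seq e2 (Run.seq e3 e4))
      have e8 : (NS x [] a3 [] l (0 :: (NS x [] a3 [] l (0 :: 0 :: R)) 7)) =
          NS x [] a3 [] l (List.replicate (3 * (N - l.length)) 0) := by
        rw [← e5]
        rfl
      rw [e8, hR] at e7
      exact e7)
    (List.replicate N 0) (by rw [List.length_replicate])
  simp only [List.length_nil, Nat.sub_zero, List.length_replicate, Nat.sub_self, mul_zero,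
    List.replicate_zero] at h
  rw [List.length_replicate] at ht
  exact ⟨t, by omega, h⟩

private theorem loop2_run (Φ : Orc) (x a3 : List ℂ) (M : ℕ) : ∃ t, t ≤ 4 * x.length + 1 ∧
    Run Φ (.loop 2 (.seq (.pop 2) (.seq (.push 7 0) (.push 7 0))))
      (NS x x a3 [] [] (List.replicate M 0))
      (NS x [] a3 [] [] (List.replicate (2 * x.length + M) 0)) t := by
  obtain ⟨t, ht, h⟩ := loop_list Φ 2
    (.seq (.pop 2) (.seq (.push 7 0) (.push 7 0)))
    (fun l => NS x l a3 [] [] (List.replicate (2 * (x.length - l.length) + M) 0)) x.length 3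
    (fun l => rfl)
    (by
      intro a l hl
      refine ⟨1 + (1 + 1), le_rfl, ?_⟩
      obtain ⟨R, hR⟩ : ∃ R : List ℂ,
        R = List.replicate (2 * (x.length - (a :: l).length) + M) 0 := ⟨_, rfl⟩
      have e1 := Run.pop (Φ := Φ) 2 (NS x (a :: l) a3 [] [] R)
      rw [NS2] at e1
      have e2 := Run.push (Φ := Φ) 7 0 (NS x l a3 [] [] R)
      rw [NS7] at e2
      have e3 := Run.push (Φ := Φ) 7 0 (NS x l a3 [] [] (0 :: R))
      rw [NS7] at e3
      have e5 : (0 : ℂ) :: 0 :: R = List.replicate (2 * (x.length - l.length) + M) 0 := by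
        have e6 : 2 * (x.length - l.length) + M =
            2 * (x.length - (a :: l).length) + M + 1 + 1 := by
          simp only [List.length_cons] at hl ⊢
          omega
        rw [e6, List.replicate_succ, List.replicate_succ, hR]
      have e7 := Run.seq e1 (Run.seq e2 e3)
      have e8 : (NS x l a3 [] [] (0 :: (NS x l a3 [] [] (0 :: R)) 7)) =
          NS x l a3 [] [] (List.replicate (2 * (x.length - l.length) + M) 0) := by
        rw [← e5]
        rfl
      rw [e8, hR] at e7
      exact e7)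
    x le_rfl
  simp only [List.length_nil, Nat.sub_zero, Nat.sub_self, mul_zero, zero_add] at h
  exact ⟨t, by omega, h⟩
theorem pre_run (k q : ℕ) : ∃ K : ℕ, ∀ (Φ : Orc) (x : List ℂ), ∃ t, t ≤ (x.length + 2) ^ K ∧
    Run Φ (pre k q) (inp x []) (upd (upd (inp x []) 3 [(x.length : ℂ)]) 7
      (List.replicate (3 * (x.length + 2) ^ k + 2 * x.length + q) 0)) t := by
  refine ⟨22 * (k + 1) + q + 9, fun Φ x => ?_⟩
  obtain ⟨t1, ht1, h1⟩ := cnt_run Φ x
  obtain ⟨t2, ht2, h2⟩ := una_run Φ x [(x.length : ℂ)]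
  obtain ⟨t3, ht3, h3⟩ := pw_run Φ k (x.length + 2)
    (NS x [] [(x.length : ℂ)] (List.replicate (x.length + 2) 0) [] []) rfl rfl rfl rfl
  rw [NS5] at h3
  have h4 := clr_run Φ 4 (NS x [] [(x.length : ℂ)] (List.replicate (x.length + 2) 0)
    (List.replicate ((x.length + 2) ^ k) 0) [])
  rw [NS4] at h4
  have e4 : (NS x [] [(x.length : ℂ)] (List.replicate (x.length + 2) 0)
    (List.replicate ((x.length + 2) ^ k) 0) []) 4 = List.replicate (x.length + 2) 0 := rfl
  rw [e4, List.length_replicate] at h4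
  obtain ⟨t5, ht5, h5⟩ := loop5_run Φ x [(x.length : ℂ)] ((x.length + 2) ^ k)
  have h6 := dup2 Φ x [(x.length : ℂ)] [] [] (List.replicate (3 * (x.length + 2) ^ k) 0)
  obtain ⟨t7, ht7, h7⟩ := loop2_run Φ x [(x.length : ℂ)] (3 * (x.length + 2) ^ k)
  have h8 := clr_run Φ 2 (NS x [] [(x.length : ℂ)] [] []
    (List.replicate (3 * (x.length + 2) ^ k + 2 * x.length + q) 0))
  rw [NS2] at h8
  have e8 : (NS x [] [(x.length : ℂ)] [] []
    (List.replicate (3 * (x.length + 2) ^ k + 2 * x.length + q) 0)) 2 = [] := rfl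
  rw [e8, List.length_nil] at h8
  have h9 := zer_run Φ q (p := clr 2)
    (σ := NS x [] [(x.length : ℂ)] [] [] (List.replicate (2 * x.length + 3 * (x.length + 2) ^ k) 0))
    (σ' := NS x [] [(x.length : ℂ)] [] []
      (List.replicate (3 * (x.length + 2) ^ k + 2 * x.length + q) 0)) (t := 2 * 0 + 1) (by
      rw [NS7]
      have e9 : List.replicate q (0 : ℂ) ++ (NS x [] [(x.length : ℂ)] [] []
          (List.replicate (2 * x.length + 3 * (x.length + 2) ^ k) 0)) 7 =
          List.replicate (3 * (x.length + 2) ^ k + 2 * x.length + q) 0 := by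
        change List.replicate q (0 : ℂ) ++
          (List.replicate (2 * x.length + 3 * (x.length + 2) ^ k) 0) = _
        rw [List.replicate_append_replicate]
        congr 1
        ring
      rw [e9]
      exact h8)
  have e10 : upd (upd (inp x []) 3 [(x.length : ℂ)]) 7
      (List.replicate (3 * (x.length + 2) ^ k + 2 * x.length + q) 0) =
      NS x [] [(x.length : ℂ)] [] []
        (List.replicate (3 * (x.length + 2) ^ k + 2 * x.length + q) 0) := by
    rw [NS_inp, NS3, NS7]
  rw [e10, NS_inp]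
  refine ⟨_, ?_, Run.seq h1 (Run.seq h2 (Run.seq h3 (Run.seq h4 (Run.seq h5
    (Run.seq h6 (Run.seq h7 h9))))))⟩
  obtain ⟨n, hn⟩ : ∃ n, n = x.length := ⟨_, rfl⟩
  rw [← hn] at ht1 ht2 ht3 ht5 ht7 ⊢
  obtain ⟨m, hm⟩ : ∃ m, m = n + 2 := ⟨_, rfl⟩
  have hm2 : 2 ≤ m := by omega
  have hm1 : 1 ≤ m := by omega
  obtain ⟨L, hL⟩ : ∃ L, L = 22 * (k + 1) + q + 7 := ⟨_, rfl⟩
  have b1 : 34 * m ≤ m ^ L := by
    calc 34 * m ≤ 2 ^ 6 * m := Nat.mul_le_mul_right _ (by norm_num)
      _ ≤ m ^ 6 * m := Nat.mul_le_mul_right _ (Nat.pow_le_pow_left hm2 6)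
      _ = m ^ 7 := by ring
      _ ≤ m ^ L := Nat.pow_le_pow_right hm1 (by omega)
  have b2 : q ≤ m ^ L := by
    calc q ≤ 2 ^ q := Nat.lt_two_pow_self.le
      _ ≤ m ^ q := Nat.pow_le_pow_left hm2 q
      _ ≤ m ^ L := Nat.pow_le_pow_right hm1 (by omega)
  have b3 : 20 * (k + 1) * (m + 1) ^ (k + 1) ≤ m ^ L := by
    calc 20 * (k + 1) * (m + 1) ^ (k + 1) ≤ 2 ^ (20 * (k + 1)) * (m ^ 2) ^ (k + 1) := by
          apply Nat.mul_le_mul Nat.lt_two_pow_self.le
          apply Nat.pow_le_pow_left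
          nlinarith
      _ ≤ m ^ (20 * (k + 1)) * (m ^ 2) ^ (k + 1) :=
          Nat.mul_le_mul_right _ (Nat.pow_le_pow_left hm2 _)
      _ = m ^ (22 * (k + 1)) := by
          rw [← pow_mul, ← pow_add]
          congr 1
          ring
      _ ≤ m ^ L := Nat.pow_le_pow_right hm1 (by omega)
  have b4 : 5 * m ^ k ≤ m ^ L := by
    calc 5 * m ^ k ≤ 2 ^ 3 * m ^ k := Nat.mul_le_mul_right _ (by norm_num)
      _ ≤ m ^ 3 * m ^ k := Nat.mul_le_mul_right _ (Nat.pow_le_pow_left hm2 3)
      _ = m ^ (3 + k) := by rw [← pow_add]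
      _ ≤ m ^ L := Nat.pow_le_pow_right hm1 (by omega)
  have b5 : 4 * m ^ L ≤ m ^ (22 * (k + 1) + q + 9) := by
    calc 4 * m ^ L = 2 ^ 2 * m ^ L := by norm_num
      _ ≤ m ^ 2 * m ^ L := Nat.mul_le_mul_right _ (Nat.pow_le_pow_left hm2 2)
      _ = m ^ (22 * (k + 1) + q + 9) := by
          rw [← pow_add]
          congr 1
          omega
  rw [← hm] at ht3 ht5 ⊢
  omega

end VRB
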