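import Pool.Agent.VRB.SkelDef

/-!
# VRB: the deciding program (definitions)

Stacks: `0` input `x`, `2`, `4`, `5`, `6`, `9`: work, `3`: the number `n`, `7`: zeros for padding, `8`:
flag (not empty: go on), `10`: the number `r`, `11`: parity of `r`, `12`: query.
-/

namespace VRB

/-- move the content of stack `i` to stack `j` (reversed) -/
def mv (i j : ℕ) : Prog ℂ := .loop i (.seq (.copy i j) (.pop i))

/-- put a copy of stack `a` on top of stack `b` (stack `c` is empty and used for work) -/
def dup (a b c : ℕ) : Prog ℂ :=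
  .seq (mv a c) (.loop c (.seq (.copy c a) (.seq (.copy c b) (.pop c))))

/-- clear stack `i` -/
def clr (i : ℕ) : Prog ℂ := .loop i (.pop i)

/-- push the list `l` on stack `i` (the head of `l` is the last one pushed) -/
def pushl (i : ℕ) : List ℂ → Prog ℂ → Prog ℂ
  | [], p => p
  | c :: l, p => pushl i l (.seq (.push i c) p)

/-- stack `3` := `[n]` -/
noncomputable def cnt : Prog ℂ :=
  .seq (dup 0 2 9) (.seq (.push 3 0) (.loop 2 (.seq (.pop 2) (.seq (.push 3 1) (.add 3)))))

/-- stack `4` := `n + 2` zeros -/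
noncomputable def una : Prog ℂ :=
  .seq (dup 0 2 9) (.seq (.push 4 0) (.seq (.push 4 0) (.loop 2 (.seq (.pop 2) (.push 4 0)))))

/-- stack `5` := `(n + 2) ^ k` zeros, if stack `4` contains `n + 2` zeros -/
noncomputable def pw : ℕ → Prog ℂ
  | 0 => .push 5 0
  | k + 1 => .seq (pw k) (.seq (mv 5 6) (.loop 6 (.seq (.pop 6) (dup 4 5 9))))

/-- the program pushing `q` zeros on stack `7` and then doing `p` -/
noncomputable def zer : ℕ → Prog ℂ → Prog ℂ
  | 0, p => p
  | q + 1, p => .seq (.push 7 0) (zer q p)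

/-- preparation: stack `3` := `[n]`, stack `7` := `3 (n + 2) ^ k + 2 n + q` zeros -/
noncomputable def pre (k q : ℕ) : Prog ℂ :=
  .seq cnt (.seq una (.seq (pw k) (.seq (clr 4)
    (.seq (.loop 5 (.seq (.pop 5) (.seq (.push 7 0) (.seq (.push 7 0) (.push 7 0)))))
      (.seq (dup 0 2 9) (.seq (.loop 2 (.seq (.pop 2) (.seq (.push 7 0) (.push 7 0))))
        (zer q (clr 2))))))))

/-- build the query on stack `12` and ask -/
noncomputable def qry (e : ℂ) (c : List ℂ) : Prog ℂ :=
  .seq (dup 7 12 9) (pushl 12 c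
    (.seq (dup 0 12 9) (.seq (.copy 10 12) (.seq (.copy 3 12) (.seq (.push 12 e) (.ask 12))))))

/-- the search for the first nonzero answer -/
noncomputable def srch (e : ℂ) (c : List ℂ) : Prog ℂ :=
  .loop 8 (.seq (qry e c) (.ifz 12
    (.seq (.pop 12) (.seq (.push 10 1) (.seq (.add 10) (.seq (.push 11 1) (.sub 11)))))
    (.seq (.pop 12) (.pop 8))))

/-- the whole program -/
noncomputable def prg (e : ℂ) (c : List ℂ) (k q : ℕ) : Prog ℂ :=
  .seq (pre k q) (.seq (.push 8 0) (.seq (.push 10 0) (.seq (.push 11 0)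
    (.seq (srch e c) (.seq (clr 0) (.copy 11 0))))))

/-- the states of the search -/
noncomputable def ws (x : List ℂ) (d : ℕ) (r p : ℂ) (fl : List ℂ) : St := fun i =>
  if i = 0 then x else if i = 3 then [(x.length : ℂ)] else if i = 7 then List.replicate d 0
  else if i = 8 then fl else if i = 10 then [r] else if i = 11 then [p] else []

end VRB
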