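import Pool.Agent.VRB.ConA
import Pool.Agent.VRB.Frac
import Pool.Agent.VRB.Sem

/-!
# VRB-Sym: symbolic execution

A symbolic state assigns to every stack a list of fractions; `sev z S` is its value at the point `z`,
`sok z S`: all denominators are nonzero at `z`. `sym`: the runs of time at most `T` starting in a
symbolic state have finitely many symbolic outcomes (condition, final symbolic state, time), the
conditions are constructible. Proof by induction on the program, for loops inside induction on `T`.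
-/

namespace VRB

open MvPolynomial

/-- symbolic states -/
abbrev SSt (N : ℕ) : Type := ℕ → List (Fr N)

/-- value of a symbolic state -/
noncomputable def sev {N : ℕ} (z : Fin N → ℂ) (S : SSt N) : St := fun i => (S i).map (fval z)

/-- all denominators are nonzero -/
def sok {N : ℕ} (z : Fin N → ℂ) (S : SSt N) : Prop := ∀ i, ∀ f ∈ S i, fok z f

private def SyOn (Φ : Orc) {N : ℕ} (A : Set (Fin N → ℂ)) (P : (Fin N → ℂ) → Prog ℂ) (S : SSt N)
    (T : ℕ) : Prop :=
  ∃ out : List (Set (Fin N → ℂ) × SSt N × ℕ), (∀ o ∈ out, Con o.1) ∧ ∀ z, z ∈ A → sok z S →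
      (∀ o ∈ out, z ∈ o.1 → sok z o.2.1 ∧ o.2.2 ≤ T ∧
        Run Φ (P z) (sev z S) (sev z o.2.1) o.2.2) ∧
      ∀ (σ : St) (t : ℕ), t ≤ T → Run Φ (P z) (sev z S) σ t →
        ∃ o ∈ out, z ∈ o.1 ∧ σ = sev z o.2.1 ∧ t = o.2.2

private lemma SyOn.zero (Φ : Orc) {N : ℕ} (A : Set (Fin N → ℂ)) (P : (Fin N → ℂ) → Prog ℂ)
    (S : SSt N) : SyOn Φ A P S 0 := by
  refine ⟨[], by simp, fun z _ _ => ⟨by simp, fun σ t ht hr => ?_⟩⟩
  have := run_pos hr
  omega

private lemma SyOn.one {Φ : Orc} {N : ℕ} {A : Set (Fin N → ℂ)} {P : (Fin N → ℂ) → Prog ℂ}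
    {S : SSt N} (T : ℕ) (S' : SSt N) (t0 : ℕ)
    (h : ∀ z ∈ A, sok z S → sok z S' ∧ Run Φ (P z) (sev z S) (sev z S') t0) :
    SyOn Φ A P S T := by
  by_cases hT : t0 ≤ T
  · refine ⟨[(Set.univ, S', t0)], ?_, fun z hz hs => ⟨?_, fun σ t ht hr => ?_⟩⟩
    · intro o ho
      rw [List.mem_singleton] at ho
      rw [ho]; exact con_univ
    · intro o ho _
      rw [List.mem_singleton] at ho
      rw [ho]
      exact ⟨(h z hz hs).1, hT, (h z hz hs).2⟩
    · obtain ⟨h1, h2⟩ := run_det hr (h z hz hs).2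
      exact ⟨_, List.mem_singleton.2 rfl, Set.mem_univ _, h1, h2⟩
  · refine ⟨[], by simp, fun z hz hs => ⟨by simp, fun σ t ht hr => ?_⟩⟩
    obtain ⟨h1, h2⟩ := run_det hr (h z hz hs).2
    omega

private lemma SyOn.mono {Φ : Orc} {N : ℕ} {A B : Set (Fin N → ℂ)} {P : (Fin N → ℂ) → Prog ℂ}
    {S : SSt N} {T : ℕ} (h : SyOn Φ A P S T) (hB : B ⊆ A) : SyOn Φ B P S T := by
  obtain ⟨out, h1, h2⟩ := h
  exact ⟨out, h1, fun z hz hs => h2 z (hB hz) hs⟩

private lemma SyOn.glue {Φ : Orc} {N : ℕ} {A : Set (Fin N → ℂ)} {P : (Fin N → ℂ) → Prog ℂ}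
    {S : SSt N} {T : ℕ} (hA : Con A) (h : SyOn Φ A P S T) (h' : SyOn Φ Aᶜ P S T) :
    SyOn Φ Set.univ P S T := by
  obtain ⟨out, h1, h2⟩ := h
  obtain ⟨out', h1', h2'⟩ := h'
  refine ⟨out.map (fun o => (o.1 ∩ A, o.2)) ++ out'.map (fun o => (o.1 ∩ Aᶜ, o.2)), ?_, ?_⟩
  · intro o ho
    rw [List.mem_append, List.mem_map, List.mem_map] at ho
    rcases ho with ⟨o', ho', rfl⟩ | ⟨o', ho', rfl⟩
    · exact con_inter (h1 o' ho') hA
    · exact con_inter (h1' o' ho') (con_compl hA)
  · intro z _ hs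
    constructor
    · intro o ho hz
      rw [List.mem_append, List.mem_map, List.mem_map] at ho
      rcases ho with ⟨o', ho', rfl⟩ | ⟨o', ho', rfl⟩
      · exact (h2 z hz.2 hs).1 o' ho' hz.1
      · exact (h2' z hz.2 hs).1 o' ho' hz.1
    · intro σ t ht hr
      by_cases hz : z ∈ A
      · obtain ⟨o, ho, hz', e⟩ := (h2 z hz hs).2 σ t ht hr
        exact ⟨(o.1 ∩ A, o.2), List.mem_append_left _ (List.mem_map.2 ⟨o, ho, rfl⟩), ⟨hz', hz⟩, e⟩
      · obtain ⟨o, ho, hz', e⟩ := (h2' z hz hs).2 σ t ht hr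
        exact ⟨(o.1 ∩ Aᶜ, o.2), List.mem_append_right _ (List.mem_map.2 ⟨o, ho, rfl⟩),
          ⟨hz', hz⟩, e⟩

/-- one more unit of time -/
private lemma SyOn.shift {Φ : Orc} {N : ℕ} {A : Set (Fin N → ℂ)} {P R : (Fin N → ℂ) → Prog ℂ}
    {S : SSt N} (T : ℕ) (h : ∀ T', SyOn Φ A P S T')
    (hi : ∀ z ∈ A, ∀ σ t, Run Φ (P z) (sev z S) σ t → Run Φ (R z) (sev z S) σ (t + 1))
    (he : ∀ z ∈ A, ∀ σ t, Run Φ (R z) (sev z S) σ t → ∃ t', t = t' + 1 ∧
      Run Φ (P z) (sev z S) σ t') : SyOn Φ A R S T := by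
  rcases T with _ | T
  · exact SyOn.zero Φ A R S
  · obtain ⟨out, h1, h2⟩ := h T
    refine ⟨out.map (fun o => (o.1, o.2.1, o.2.2 + 1)), ?_, fun z hz hs => ⟨?_, ?_⟩⟩
    · intro o ho
      rw [List.mem_map] at ho
      obtain ⟨o', ho', rfl⟩ := ho
      exact h1 o' ho'
    · intro o ho hzo
      rw [List.mem_map] at ho
      obtain ⟨o', ho', rfl⟩ := ho
      obtain ⟨a1, a2, a3⟩ := (h2 z hz hs).1 o' ho' hzo
      exact ⟨a1, Nat.succ_le_succ a2, hi z hz _ _ a3⟩
    · intro σ t ht hr
      obtain ⟨t', rfl, hr'⟩ := he z hz σ t hr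
      obtain ⟨o, ho, hz', e1, e2⟩ := (h2 z hz hs).2 σ t' (by omega) hr'
      exact ⟨_, List.mem_map.2 ⟨o, ho, rfl⟩, hz', e1, by rw [e2]⟩

private lemma SyOn.bind {Φ : Orc} {N : ℕ} {A : Set (Fin N → ℂ)} {P Q R : (Fin N → ℂ) → Prog ℂ}
    {S : SSt N} (T c : ℕ) (h : SyOn Φ A P S T)
    (hQ : ∀ S' : SSt N, ∀ T' ≤ T, SyOn Φ Set.univ Q S' T')
    (hi : ∀ z ∈ A, ∀ σ σ' t t', Run Φ (P z) (sev z S) σ t → Run Φ (Q z) σ σ' t' →
      Run Φ (R z) (sev z S) σ' (t + t' + c))
    (he : ∀ z ∈ A, ∀ σ' t'', Run Φ (R z) (sev z S) σ' t'' → ∃ σ t t', t'' = t + t' + c ∧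
      Run Φ (P z) (sev z S) σ t ∧ Run Φ (Q z) σ σ' t') : SyOn Φ A R S (T + c) := by
  obtain ⟨out, h1, h2⟩ := h
  choose f hf1 hf2 using hQ
  let g : (Set (Fin N → ℂ) × SSt N × ℕ) → List (Set (Fin N → ℂ) × SSt N × ℕ) := fun o =>
    (f o.2.1 (T - o.2.2) (Nat.sub_le _ _)).map
      (fun o' => (o.1 ∩ o'.1, o'.2.1, o.2.2 + o'.2.2 + c))
  refine ⟨out.flatMap g, ?_, fun z hz hs => ⟨?_, ?_⟩⟩
  · intro o ho
    rw [List.mem_flatMap] at ho
    obtain ⟨o1, ho1, ho2⟩ := ho
    rw [List.mem_map] at ho2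
    obtain ⟨o2, ho2, rfl⟩ := ho2
    exact con_inter (h1 o1 ho1) (hf1 _ _ _ o2 ho2)
  · intro o ho hzo
    rw [List.mem_flatMap] at ho
    obtain ⟨o1, ho1, ho2⟩ := ho
    rw [List.mem_map] at ho2
    obtain ⟨o2, ho2, rfl⟩ := ho2
    obtain ⟨a1, a2, a3⟩ := (h2 z hz hs).1 o1 ho1 hzo.1
    obtain ⟨b1, b2, b3⟩ := (hf2 _ _ _ z (Set.mem_univ _) a1).1 o2 ho2 hzo.2
    exact ⟨b1, by simp only; omega, hi z hz _ _ _ _ a3 b3⟩
  · intro σ t'' ht hr
    obtain ⟨σ1, t, t', rfl, hr1, hr2⟩ := he z hz σ t'' hr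
    obtain ⟨o1, ho1, hz1, e1, e2⟩ := (h2 z hz hs).2 σ1 t (by omega) hr1
    obtain ⟨a1, a2, a3⟩ := (h2 z hz hs).1 o1 ho1 hz1
    rw [e1] at hr2
    obtain ⟨o2, ho2, hz2, e3, e4⟩ := (hf2 o1.2.1 (T - o1.2.2) (Nat.sub_le _ _) z
      (Set.mem_univ _) a1).2 σ t' (by omega) hr2
    exact ⟨_, List.mem_flatMap.2 ⟨o1, ho1, List.mem_map.2 ⟨o2, ho2, rfl⟩⟩, ⟨hz1, hz2⟩, e3,
      by rw [e2, e4]⟩

private def updS {N : ℕ} (S : SSt N) (i : ℕ) (l : List (Fr N)) : SSt N :=
  fun j => if j = i then l else S j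

private lemma sev_updS {N : ℕ} (z : Fin N → ℂ) (S : SSt N) (i : ℕ) (l : List (Fr N)) :
    sev z (updS S i l) = upd (sev z S) i (l.map (fval z)) := by
  funext j
  simp only [sev, updS, upd]
  split_ifs <;> rfl

private lemma sok_updS {N : ℕ} {z : Fin N → ℂ} {S : SSt N} (hs : sok z S) (i : ℕ)
    {l : List (Fr N)} (hl : ∀ f ∈ l, fok z f) : sok z (updS S i l) := by
  intro j f hf
  simp only [updS] at hf
  split_ifs at hf with h
  · exact hl f hf
  · exact hs j f hf

private lemma SyOn.upd {Φ : Orc} {N : ℕ} {A : Set (Fin N → ℂ)} {P : (Fin N → ℂ) → Prog ℂ}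
    {S : SSt N} (T : ℕ) (i : ℕ) (l : List (Fr N)) (t0 : ℕ)
    (h : ∀ z ∈ A, sok z S → (∀ f ∈ l, fok z f) ∧
      Run Φ (P z) (sev z S) (upd (sev z S) i (l.map (fval z))) t0) :
    SyOn Φ A P S T := by
  refine SyOn.one T (updS S i l) t0 fun z hz hs => ?_
  obtain ⟨h1, h2⟩ := h z hz hs
  refine ⟨sok_updS hs i h1, ?_⟩
  rw [sev_updS]
  exact h2

/-- a binary operation -/
private lemma SyOn.bin {Φ : Orc} {N : ℕ} {A : Set (Fin N → ℂ)} {P : (Fin N → ℂ) → Prog ℂ}
    {S : SSt N} (T : ℕ) (i : ℕ) (op : ℂ → ℂ → ℂ) (F : Fr N → Fr N → Fr N)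
    (hF : ∀ z ∈ A, ∀ f g l, S i = f :: g :: l → fok z f → fok z g →
      fok z (F f g) ∧ fval z (F f g) = op (fval z f) (fval z g))
    (hrun : ∀ z ∈ A, Run Φ (P z) (sev z S) (VRB.upd (sev z S) i (VRB.bin op (sev z S i))) 1) :
    SyOn Φ A P S T := by
  rcases hS : S i with _ | ⟨f, _ | ⟨g, l⟩⟩
  · refine SyOn.upd T i [] 1 fun z hz hs => ⟨by simp, ?_⟩
    have := hrun z hz
    simpa only [sev, hS, List.map_nil, VRB.bin] using this
  · refine SyOn.upd T i [f] 1 fun z hz hs => ⟨?_, ?_⟩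
    · intro f' hf'
      exact hs i f' (by rw [hS]; exact hf')
    · have := hrun z hz
      simpa only [sev, hS, List.map_nil, List.map_cons, VRB.bin] using this
  · refine SyOn.upd T i (F f g :: l) 1 fun z hz hs => ?_
    have hf : fok z f := hs i f (by rw [hS]; simp)
    have hg : fok z g := hs i g (by rw [hS]; simp)
    obtain ⟨h1, h2⟩ := hF z hz f g l hS hf hg
    refine ⟨?_, ?_⟩
    · intro f' hf'
      rcases List.mem_cons.1 hf' with rfl | hf'
      · exact h1
      · exact hs i f' (by rw [hS]; simp [hf'])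
    · have := hrun z hz
      rw [List.map_cons, h2]
      simpa only [sev, hS, List.map_nil, List.map_cons, VRB.bin] using this

private lemma ans_eq (Φ : Orc) (z : List ℂ) (n : ℕ) (h : z.length = n) :
    ans Φ z = eval (fun k : Fin n => z.get (k.cast h.symm)) (Φ n) := by
  subst h
  rfl

private lemma ans_map (Φ : Orc) {α : Type} (l : List α) (f : α → ℂ) :
    ans Φ (l.map f) = eval (fun k : Fin l.length => f (l.get k)) (Φ l.length) := by
  rw [ans_eq Φ (l.map f) l.length (by simp)]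
  congr 2
  funext k
  simp

private lemma sym_aux (Φ : Orc) {N : ℕ} (c : ℕ → MvPolynomial (Fin N) ℂ) (s : Prog ℕ) :
    ∀ (T : ℕ) (S : SSt N), SyOn Φ Set.univ (fun z => s.map fun r => eval z (c r)) S T := by
  induction s with
  | push i r =>
    intro T S
    refine SyOn.upd T i ((c r, 1) :: S i) 1 fun z _ hs => ⟨?_, ?_⟩
    · intro f hf
      rcases List.mem_cons.1 hf with rfl | hf
      · simp [fok]
      · exact hs i f hf
    · have := Run.push (Φ := Φ) i (eval z (c r)) (sev z S)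
      simpa [fval, sev, Prog.map] using this
  | pop i =>
    intro T S
    refine SyOn.upd T i (S i).tail 1 fun z _ hs => ⟨?_, ?_⟩
    · intro f hf
      exact hs i f (List.mem_of_mem_tail hf)
    · have := Run.pop (Φ := Φ) i (sev z S)
      simpa only [sev, Prog.map, List.map_tail] using this
  | copy i j =>
    intro T S
    refine SyOn.upd T j ((S i).take 1 ++ S j) 1 fun z _ hs => ⟨?_, ?_⟩
    · intro f hf
      rcases List.mem_append.1 hf with hf | hf
      · exact hs i f (List.mem_of_mem_take hf)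
      · exact hs j f hf
    · have := Run.copy (Φ := Φ) i j (sev z S)
      simpa only [sev, Prog.map, List.map_append, List.map_take] using this
  | add i =>
    intro T S
    exact SyOn.bin T i (fun x y => x + y) (fun f g => (f.1 * g.2 + g.1 * f.2, f.2 * g.2))
      (fun z _ f g l _ hf hg => fval_add z f g hf hg) (fun z _ => Run.add i (sev z S))
  | sub i =>
    intro T S
    exact SyOn.bin T i (fun x y => x - y) (fun f g => (f.1 * g.2 - g.1 * f.2, f.2 * g.2))
      (fun z _ f g l _ hf hg => fval_sub z f g hf hg) (fun z _ => Run.sub i (sev z S))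
  | mul i =>
    intro T S
    exact SyOn.bin T i (fun x y => x * y) (fun f g => (f.1 * g.1, f.2 * g.2))
      (fun z _ f g l _ hf hg => fval_mul z f g hf hg) (fun z _ => Run.mul i (sev z S))
  | div i =>
    intro T S
    set h : MvPolynomial (Fin N) ℂ := ((S i).drop 1).head?.elim 0 Prod.fst with hh
    have hS : ∀ f g l, S i = f :: g :: l → h = g.1 := by
      intro f g l e
      rw [hh, e]
      simp
    refine SyOn.glue (con_zero h) ?_ ?_
    · exact SyOn.bin T i (fun x y => x / y) (fun _ _ => (0, 1))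
        (fun z hz f g l e hf hg => ⟨by simp [fok], by
          have hz' : eval z g.1 = 0 := by
            rw [← hS f g l e]; exact hz
          simp only [fval, hz']
          simp⟩) (fun z _ => Run.div i (sev z S))
    · exact SyOn.bin T i (fun x y => x / y) (fun f g => (f.1 * g.2, f.2 * g.1))
        (fun z hz f g l e hf hg => fval_div z f g hf hg (by
          rw [← hS f g l e]; exact hz)) (fun z _ => Run.div i (sev z S))
  | ask i =>
    intro T S
    obtain ⟨g, hg⟩ := frac_eval (Φ (S i).length) (fun k : Fin (S i).length => (S i).get k)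
    refine SyOn.upd T i [g] ((S i).length + 1) fun z _ hs => ?_
    obtain ⟨h1, h2⟩ := hg z (fun l => hs i _ (List.get_mem _ _))
    refine ⟨?_, ?_⟩
    · intro f hf
      rw [List.mem_singleton.1 hf]; exact h1
    · have := Run.ask (Φ := Φ) i (sev z S)
      simp only [sev, ans_map, List.length_map] at this
      rw [List.map_cons, List.map_nil, h2]
      exact this
  | seq p q ihp ihq =>
    intro T S
    refine SyOn.bind (P := fun z => p.map fun r => eval z (c r))
      (Q := fun z => q.map fun r => eval z (c r)) T 0 (ihp T S) (fun S' T' _ => ihq T' S') ?_ ?_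
    · intro z _ σ σ' t t' h h'
      exact (Run.seq h h' : Run Φ _ _ _ (t + t'))
    · intro z _ σ' t'' h
      cases h with
      | seq h h' => exact ⟨_, _, _, rfl, h, h'⟩
  | ifz i p q ihp ihq =>
    intro T S
    rcases hS : S i with _ | ⟨f, l⟩
    · have hne : ∀ z, (sev z S i).head? ≠ some 0 := by
        intro z; simp [sev, hS]
      refine SyOn.shift (P := fun z => q.map fun r => eval z (c r)) T (fun T' => ihq T' S) ?_ ?_
      · intro z _ σ t h
        exact Run.ifz_false (hne z) h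
      · intro z _ σ t h
        cases h with
        | ifz_true h0 _ => exact absurd h0 (hne z)
        | ifz_false _ h => exact ⟨_, rfl, h⟩
    · have hhd : ∀ z, (sev z S i).head? = some (fval z f) := by
        intro z; simp [sev, hS]
      refine SyOn.glue (con_zero (f.1 * f.2)) ?_ ?_
      · have hA : ∀ z, eval z (f.1 * f.2) = 0 → fval z f = 0 := by
          intro z hz
          rw [map_mul, mul_eq_zero] at hz
          rw [fval, div_eq_zero_iff]
          exact hz
        refine SyOn.shift (P := fun z => p.map fun r => eval z (c r)) T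
          (fun T' => (ihp T' S).mono (Set.subset_univ _)) ?_ ?_
        · intro z hz σ t h
          exact Run.ifz_true (by rw [hhd, hA z hz]) h
        · intro z hz σ t h
          cases h with
          | ifz_true _ h => exact ⟨_, rfl, h⟩
          | ifz_false h0 _ => exact absurd (by rw [hhd, hA z hz]) h0
      · have hA : ∀ z, eval z (f.1 * f.2) ≠ 0 → fval z f ≠ 0 := by
          intro z hz
          rw [map_mul] at hz
          rw [fval]
          exact div_ne_zero (left_ne_zero_of_mul hz) (right_ne_zero_of_mul hz)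
        refine SyOn.shift (P := fun z => q.map fun r => eval z (c r)) T
          (fun T' => (ihq T' S).mono (Set.subset_univ _)) ?_ ?_
        · intro z hz σ t h
          exact Run.ifz_false (by
            rw [hhd]
            intro e
            exact hA z hz (Option.some.inj e)) h
        · intro z hz σ t h
          cases h with
          | ifz_true h0 _ =>
            rw [hhd] at h0
            exact absurd (Option.some.inj h0) (hA z hz)
          | ifz_false _ h => exact ⟨_, rfl, h⟩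
  | ifn i p q ihp ihq =>
    intro T S
    by_cases hS : S i = []
    · have he : ∀ z, sev z S i = [] := by
        intro z; simp [sev, hS]
      refine SyOn.shift (P := fun z => p.map fun r => eval z (c r)) T (fun T' => ihp T' S) ?_ ?_
      · intro z _ σ t h
        exact Run.ifn_true (he z) h
      · intro z _ σ t h
        cases h with
        | ifn_true _ h => exact ⟨_, rfl, h⟩
        | ifn_false h0 _ => exact absurd (he z) h0
    · have he : ∀ z, sev z S i ≠ [] := by
        intro z; simpa [sev] using hS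
      refine SyOn.shift (P := fun z => q.map fun r => eval z (c r)) T (fun T' => ihq T' S) ?_ ?_
      · intro z _ σ t h
        exact Run.ifn_false (he z) h
      · intro z _ σ t h
        cases h with
        | ifn_true h0 _ => exact absurd h0 (he z)
        | ifn_false _ h => exact ⟨_, rfl, h⟩
  | loop i p ihp =>
    intro T
    induction T using Nat.strong_induction_on with
    | _ T ih =>
      intro S
      by_cases hS : S i = []
      · have he : ∀ z, sev z S i = [] := by
          intro z; simp [sev, hS]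
        refine SyOn.one T S 1 fun z _ hs => ⟨hs, Run.loop_nil (he z)⟩
      · have he : ∀ z, sev z S i ≠ [] := by
          intro z; simpa [sev] using hS
        rcases T with _ | T
        · exact SyOn.zero Φ _ _ S
        refine SyOn.bind (P := fun z => p.map fun r => eval z (c r))
          (Q := fun z => (Prog.loop i p).map fun r => eval z (c r)) T 1 (ihp T S)
          (fun S' T' hT' => ih T' (by omega) S') ?_ ?_
        · intro z _ σ σ' t t' h h'
          exact Run.loop_cons (he z) h h'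
        · intro z _ σ' t'' h
          cases h with
          | loop_nil h0 => exact absurd h0 (he z)
          | loop_cons _ h h' => exact ⟨_, _, _, rfl, h, h'⟩

theorem sym (Φ : Orc) {N : ℕ} (c : ℕ → MvPolynomial (Fin N) ℂ) (T : ℕ) (s : Prog ℕ) (S : SSt N) :
    ∃ out : List (Set (Fin N → ℂ) × SSt N × ℕ), (∀ o ∈ out, Con o.1) ∧ ∀ z, sok z S →
      (∀ o ∈ out, z ∈ o.1 → sok z o.2.1 ∧ o.2.2 ≤ T ∧
        Run Φ (s.map fun r => eval z (c r)) (sev z S) (sev z o.2.1) o.2.2) ∧
      ∀ (σ : St) (t : ℕ), t ≤ T → Run Φ (s.map fun r => eval z (c r)) (sev z S) σ t →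
        ∃ o ∈ out, z ∈ o.1 ∧ σ = sev z o.2.1 ∧ t = o.2.2 := by
  obtain ⟨out, h1, h2⟩ := sym_aux Φ c s T S
  exact ⟨out, h1, fun z hs => h2 z (Set.mem_univ _) hs⟩

end VRB
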