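import Pool.Agent.VRB.TInd

/-!
# VRB-TGood: for most levels the constants do not help

Induction over the set of constants: a new constant either keeps the family of differentials
independent (and then it is added to the base), or it is, modulo the base, a combination of finitely many
differentials of the family (and then it is absorbed by a larger bound for the levels).
-/

namespace VRB

open Submodule

private theorem good_base {V I : Type*} [AddCommGroup V] [Module ℂ V] (e : I → V) (K : Submodule ℂ V)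
    (hK : ∀ c : I →₀ ℂ, Finsupp.linearCombination ℂ e c ∈ K → c = 0) (S : Set I) (β : I →₀ ℂ)
    (hβ : ∀ i ∈ β.support, i ∉ S)
    (h : Finsupp.linearCombination ℂ e β ∈ K ⊔ span ℂ (e '' S)) : β = 0 := by
  obtain ⟨k, hk, r, hr, hkr⟩ := Submodule.mem_sup.1 h
  obtain ⟨γ, hγ, rfl⟩ := (Finsupp.mem_span_image_iff_linearCombination ℂ).1 hr
  have h1 : β - γ = 0 := by
    apply hK
    rw [map_sub, ← hkr, add_sub_cancel_right]
    exact hk
  have h2 : β = γ := sub_eq_zero.1 h1
  rw [Finsupp.mem_supported] at hγ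
  ext i
  by_contra hi
  have hi' : i ∈ β.support := Finsupp.mem_support_iff.2 hi
  refine hβ i hi' (hγ ?_)
  rw [← h2]
  exact hi'

private theorem good_aux {V I : Type*} [AddCommGroup V] [Module ℂ V] [DecidableEq V] (e : I → V)
    (lev : I → ℕ) (s : Finset V) : ∀ (K : Submodule ℂ V)
    (_ : ∀ c : I →₀ ℂ, Finsupp.linearCombination ℂ e c ∈ K → c = 0) (T : ℕ → ℕ) (n0 : ℕ),
    ∃ n, n0 ≤ n ∧ ∀ β : I →₀ ℂ, (∀ i ∈ β.support, lev i = 6 * n + 2 ∨ lev i = 6 * n + 5) →
      Finsupp.linearCombination ℂ e β ∈ K ⊔ span ℂ (s : Set V) ⊔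
        span ℂ (e '' {i | lev i ≤ T n ∧ lev i ≠ 6 * n + 2 ∧ lev i ≠ 6 * n + 5}) → β = 0 := by
  induction s using Finset.induction_on with
  | empty =>
    intro K hK T n0
    refine ⟨n0, le_rfl, fun β hβ h => ?_⟩
    rw [Finset.coe_empty, Submodule.span_empty, sup_bot_eq] at h
    refine good_base e K hK _ β (fun i hi hS => ?_) h
    rcases hβ i hi with h1 | h1
    · exact hS.2.1 h1
    · exact hS.2.2 h1
  | insert d s _ ih =>
    intro K hK T n0
    by_cases hd : ∀ c : I →₀ ℂ, Finsupp.linearCombination ℂ e c ∈ K ⊔ span ℂ {d} → c = 0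
    · obtain ⟨n, hn, H⟩ := ih (K ⊔ span ℂ {d}) hd T n0
      refine ⟨n, hn, fun β hβ h => H β hβ ?_⟩
      rw [Finset.coe_insert, Submodule.span_insert, ← sup_assoc] at h
      exact h
    · push Not at hd
      obtain ⟨c, hc, hc0⟩ := hd
      obtain ⟨k, hk, r, hr, hkr⟩ := Submodule.mem_sup.1 hc
      obtain ⟨l, rfl⟩ := Submodule.mem_span_singleton.1 hr
      have hl : l ≠ 0 := by
        intro hl
        apply hc0
        apply hK
        rw [← hkr, hl, zero_smul, add_zero]
        exact hk
      obtain ⟨n, hn, H⟩ := ih K hK (fun n => max (T n) (c.support.sup lev))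
        (max n0 (c.support.sup lev))
      refine ⟨n, (le_max_left _ _).trans hn, fun β hβ h => H β hβ ?_⟩
      have hle : ∀ i ∈ c.support, lev i ≤ c.support.sup lev := fun i hi => Finset.le_sup hi
      have hn' : c.support.sup lev ≤ n := (le_max_right _ _).trans hn
      have hd' : d ∈ K ⊔ span ℂ (e '' {i | lev i ≤ max (T n) (c.support.sup lev) ∧
          lev i ≠ 6 * n + 2 ∧ lev i ≠ 6 * n + 5}) := by
        have h1 : d = l⁻¹ • (Finsupp.linearCombination ℂ e c - k) := by
          rw [← hkr, add_sub_cancel_left, smul_smul, inv_mul_cancel₀ hl, one_smul]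
        rw [h1]
        apply Submodule.smul_mem
        apply Submodule.sub_mem
        · apply Submodule.mem_sup_right
          rw [Finsupp.mem_span_image_iff_linearCombination]
          refine ⟨c, ?_, rfl⟩
          rw [Finsupp.mem_supported]
          intro i hi
          have h2 := hle i hi
          refine ⟨h2.trans (le_max_right _ _), ?_, ?_⟩
          · omega
          · omega
        · exact Submodule.mem_sup_left hk
      have hmono : span ℂ (e '' {i | lev i ≤ T n ∧ lev i ≠ 6 * n + 2 ∧ lev i ≠ 6 * n + 5}) ≤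
          span ℂ (e '' {i | lev i ≤ max (T n) (c.support.sup lev) ∧
            lev i ≠ 6 * n + 2 ∧ lev i ≠ 6 * n + 5}) := by
        apply Submodule.span_mono
        apply Set.image_mono
        rintro i ⟨h1, h2⟩
        exact ⟨h1.trans (le_max_left _ _), h2⟩
      have hall : K ⊔ span ℂ ((insert d s : Finset V) : Set V) ⊔
          span ℂ (e '' {i | lev i ≤ T n ∧ lev i ≠ 6 * n + 2 ∧ lev i ≠ 6 * n + 5}) ≤
          K ⊔ span ℂ (s : Set V) ⊔ span ℂ (e '' {i | lev i ≤ max (T n) (c.support.sup lev) ∧
            lev i ≠ 6 * n + 2 ∧ lev i ≠ 6 * n + 5}) := by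
        rw [Finset.coe_insert, Submodule.span_insert]
        refine sup_le (sup_le (le_sup_of_le_left le_sup_left) (sup_le ?_ ?_)) ?_
        · rw [Submodule.span_singleton_le_iff_mem]
          exact SetLike.le_def.1 (sup_le_sup_right le_sup_left _) hd'
        · exact le_sup_of_le_left le_sup_right
        · exact le_sup_of_le_right hmono
      exact hall h

theorem good {K0 : Subfield ℂ} {a : Ix → ℂ} (h : AlgebraicIndependent K0 a) (C : Finset ℂ)
    (T : ℕ → ℕ) (n0 : ℕ) : ∃ n, n0 ≤ n ∧ ∀ β : Ix →₀ ℂ,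
      (∀ i ∈ β.support, i.1 = 6 * n + 2 ∨ i.1 = 6 * n + 5) →
      (β.sum fun i b => b • dd (a i)) ∈ dK (Fld K0 a C n (T n)) → β = 0 := by
  classical
  obtain ⟨n, hn, H⟩ := good_aux (fun i => dd (a i)) (fun i : Ix => i.1) (C.image dd) (dK K0)
    (fun c hc => dli_ix h c (by rwa [Finsupp.linearCombination_apply] at hc)) T n0
  refine ⟨n, hn, fun β hβ hm => H β hβ ?_⟩
  rw [Finsupp.linearCombination_apply]
  rw [Fld, dK_closure, Set.image_union, Submodule.span_union, ← sup_assoc, Set.image_image,
    ← Finset.coe_image] at hm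
  exact hm

end VRB
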