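import Pool.Agent.VRB.TDef
import Pool.Agent.VRB.Sem
import Pool.Agent.VRB.PrBase

/-!
# VRB-TNp: the problem is in NP

The verifier `vf` (input `x` on stack `0`, certificate on stack `1`, its head is the guessed `y`)
builds the two queries on the stacks `2` and `3`, asks both, and compares the second answer with
the head of `x`.
-/

namespace VRB

/-- push `k` zeros on stack `j` -/
noncomputable def pz (j : ℕ) : ℕ → Prog ℂ
  | 0 => .push j 0
  | k + 1 => .seq (.push j 0) (pz j k)

/-- the verifier -/
noncomputable def vf : Prog ℂ :=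
  .ifn 0 (.push 0 0) (.ifn 1 (.push 0 0)
    (.seq (dup 0 4 9) (.seq (.loop 4 (.seq (.pop 4) (pz 2 5))) (.seq (.push 2 0)
      (.seq (dup 2 3 9) (.seq (pz 3 2) (.seq (.copy 1 2) (.seq (.copy 1 3)
        (.seq (.ask 2) (.seq (.ask 3) (.seq (.copy 0 3) (.seq (.sub 3)
          (.ifz 2 (.ifz 3 (.push 0 1) (.push 0 0)) (.push 0 0))))))))))))))

private def stt (a b c d e : List ℂ) : St := fun i =>
  match i with
  | 0 => a
  | 1 => b
  | 2 => c
  | 3 => d
  | 4 => e
  | _ => []

private theorem stt_inp (x y : List ℂ) : inp x y = stt x y [] [] [] := by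
  funext i
  rcases i with _ | _ | _ | _ | _ | i <;> simp [inp, stt]

private theorem stt0 (a b c d e l : List ℂ) : upd (stt a b c d e) 0 l = stt l b c d e := by
  funext i
  rcases i with _ | _ | _ | _ | _ | i <;> simp [upd, stt]

private theorem stt2 (a b c d e l : List ℂ) : upd (stt a b c d e) 2 l = stt a b l d e := by
  funext i
  rcases i with _ | _ | _ | _ | _ | i <;> simp [upd, stt]

private theorem stt3 (a b c d e l : List ℂ) : upd (stt a b c d e) 3 l = stt a b c l e := by
  funext i
  rcases i with _ | _ | _ | _ | _ | i <;> simp [upd, stt]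

private theorem stt4 (a b c d e l : List ℂ) : upd (stt a b c d e) 4 l = stt a b c d l := by
  funext i
  rcases i with _ | _ | _ | _ | _ | i <;> simp [upd, stt]

private theorem pz_run (Φ : Orc) (j k : ℕ) : ∀ σ : St,
    Run Φ (pz j k) σ (upd σ j (List.replicate (k + 1) 0 ++ σ j)) (k + 1) := by
  induction k with
  | zero =>
    intro σ
    exact Run.push j 0 σ
  | succ k ih =>
    intro σ
    have h1 := Run.push (Φ := Φ) j 0 σ
    have h2 := ih (upd σ j (0 :: σ j))
    have e : upd (upd σ j (0 :: σ j)) j (List.replicate (k + 1) 0 ++ (upd σ j (0 :: σ j)) j) =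
        upd σ j (List.replicate (k + 1 + 1) 0 ++ σ j) := by
      funext i
      unfold upd
      by_cases hi : i = j
      · simp [hi, List.replicate_succ']
      · simp [hi]
    rw [e] at h2
    have h3 := Run.seq h1 h2
    have ht : 1 + (k + 1) = k + 1 + 1 := by ring
    rw [ht] at h3
    exact h3

private theorem lp_run (Φ : Orc) (a b d : List ℂ) (e : List ℂ) : ∀ c : List ℂ,
    Run Φ (.loop 4 (.seq (.pop 4) (pz 2 5))) (stt a b c d e)
      (stt a b (List.replicate (6 * e.length) 0 ++ c) d []) (8 * e.length + 1) := by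
  induction e with
  | nil =>
    intro c
    exact Run.loop_nil rfl
  | cons x e ih =>
    intro c
    have h1 : Run Φ (.pop 4) (stt a b c d (x :: e)) (stt a b c d e) 1 := by
      have h := Run.pop (Φ := Φ) 4 (stt a b c d (x :: e))
      rw [stt4] at h
      exact h
    have h2 : Run Φ (pz 2 5) (stt a b c d e) (stt a b (List.replicate 6 0 ++ c) d e) 6 := by
      have h := pz_run Φ 2 5 (stt a b c d e)
      rw [stt2] at h
      exact h
    have h3 := ih (List.replicate 6 0 ++ c)
    have h4 := Run.loop_cons (i := 4) (σ := stt a b c d (x :: e)) (by simp [stt])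
      (Run.seq h1 h2) h3
    have e1 : List.replicate (6 * e.length) (0 : ℂ) ++ (List.replicate 6 0 ++ c) =
        List.replicate (6 * (x :: e).length) 0 ++ c := by
      rw [← List.append_assoc, List.replicate_append_replicate]
      congr 2
    have ht : 1 + 6 + (8 * e.length + 1) + 1 = 8 * (x :: e).length + 1 := by
      simp only [List.length_cons]
      ring
    rw [e1, ht] at h4
    exact h4

private theorem vf_run (Φ : Orc) (w u : ℂ) (l l' : List ℂ) : ∃ (σ : St) (t : ℕ),
    Run Φ vf (inp (w :: l) (u :: l')) σ t ∧ t ≤ 69 * (w :: l).length + 40 ∧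
    (Acc σ ↔ ans Φ (u :: List.replicate (6 * (w :: l).length + 1) 0) = 0 ∧
      ans Φ (u :: List.replicate (6 * (w :: l).length + 4) 0) = w) := by
  set n := (w :: l).length with hn
  set A := ans Φ (u :: List.replicate (6 * n + 1) 0) with hA
  set B := ans Φ (u :: List.replicate (6 * n + 4) 0) with hB
  have r1 : Run Φ (dup 0 4 9) (stt (w :: l) (u :: l') [] [] [])
      (stt (w :: l) (u :: l') [] [] (w :: l)) (7 * n + 2) := by
    have h := dup_run Φ (a := 0) (b := 4) (c := 9) (by omega) (by omega) (by omega)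
      (stt (w :: l) (u :: l') [] [] []) rfl
    rw [stt4] at h
    have e : (stt (w :: l) (u :: l') [] [] []) 0 ++ (stt (w :: l) (u :: l') [] [] []) 4 =
      w :: l := List.append_nil _
    rw [e] at h
    exact h
  have r2 := lp_run Φ (w :: l) (u :: l') [] (w :: l) []
  rw [List.append_nil, ← hn] at r2
  have r3 : Run Φ (.push 2 0) (stt (w :: l) (u :: l') (List.replicate (6 * n) 0) [] [])
      (stt (w :: l) (u :: l') (List.replicate (6 * n + 1) 0) [] []) 1 := by
    have h := Run.push (Φ := Φ) 2 0 (stt (w :: l) (u :: l') (List.replicate (6 * n) 0) [] [])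
    rw [stt2] at h
    exact h
  have r4 : Run Φ (dup 2 3 9) (stt (w :: l) (u :: l') (List.replicate (6 * n + 1) 0) [] [])
      (stt (w :: l) (u :: l') (List.replicate (6 * n + 1) 0) (List.replicate (6 * n + 1) 0) [])
      (7 * (6 * n + 1) + 2) := by
    have h := dup_run Φ (a := 2) (b := 3) (c := 9) (by omega) (by omega) (by omega)
      (stt (w :: l) (u :: l') (List.replicate (6 * n + 1) 0) [] []) rfl
    rw [stt3] at h
    have e : (stt (w :: l) (u :: l') (List.replicate (6 * n + 1) 0) [] []) 2 ++
      (stt (w :: l) (u :: l') (List.replicate (6 * n + 1) 0) [] []) 3 =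
      List.replicate (6 * n + 1) 0 := List.append_nil _
    have e' : ((stt (w :: l) (u :: l') (List.replicate (6 * n + 1) 0) [] []) 2).length =
      6 * n + 1 := List.length_replicate
    rw [e, e'] at h
    exact h
  have r5 : Run Φ (pz 3 2)
      (stt (w :: l) (u :: l') (List.replicate (6 * n + 1) 0) (List.replicate (6 * n + 1) 0) [])
      (stt (w :: l) (u :: l') (List.replicate (6 * n + 1) 0) (List.replicate (6 * n + 4) 0) [])
      3 := by
    have h := pz_run Φ 3 2
      (stt (w :: l) (u :: l') (List.replicate (6 * n + 1) 0) (List.replicate (6 * n + 1) 0) [])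
    rw [stt3] at h
    have e : List.replicate (2 + 1) (0 : ℂ) ++ (stt (w :: l) (u :: l')
      (List.replicate (6 * n + 1) 0) (List.replicate (6 * n + 1) 0) []) 3 =
      List.replicate (6 * n + 4) 0 := by
      change List.replicate (2 + 1) (0 : ℂ) ++ List.replicate (6 * n + 1) 0 = _
      rw [List.replicate_append_replicate]
      congr 1
      ring
    rw [e] at h
    exact h
  have r6 : Run Φ (.copy 1 2)
      (stt (w :: l) (u :: l') (List.replicate (6 * n + 1) 0) (List.replicate (6 * n + 4) 0) [])
      (stt (w :: l) (u :: l') (u :: List.replicate (6 * n + 1) 0)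
        (List.replicate (6 * n + 4) 0) []) 1 := by
    have h := Run.copy (Φ := Φ) 1 2
      (stt (w :: l) (u :: l') (List.replicate (6 * n + 1) 0) (List.replicate (6 * n + 4) 0) [])
    rw [stt2] at h
    exact h
  have r7 : Run Φ (.copy 1 3)
      (stt (w :: l) (u :: l') (u :: List.replicate (6 * n + 1) 0)
        (List.replicate (6 * n + 4) 0) [])
      (stt (w :: l) (u :: l') (u :: List.replicate (6 * n + 1) 0)
        (u :: List.replicate (6 * n + 4) 0) []) 1 := by
    have h := Run.copy (Φ := Φ) 1 3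
      (stt (w :: l) (u :: l') (u :: List.replicate (6 * n + 1) 0)
        (List.replicate (6 * n + 4) 0) [])
    rw [stt3] at h
    exact h
  have r8 : Run Φ (.ask 2)
      (stt (w :: l) (u :: l') (u :: List.replicate (6 * n + 1) 0)
        (u :: List.replicate (6 * n + 4) 0) [])
      (stt (w :: l) (u :: l') [A] (u :: List.replicate (6 * n + 4) 0) []) (6 * n + 2 + 1) := by
    have h := Run.ask (Φ := Φ) 2
      (stt (w :: l) (u :: l') (u :: List.replicate (6 * n + 1) 0)
        (u :: List.replicate (6 * n + 4) 0) [])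
    rw [stt2] at h
    have e' : ((stt (w :: l) (u :: l') (u :: List.replicate (6 * n + 1) 0)
        (u :: List.replicate (6 * n + 4) 0) []) 2).length = 6 * n + 2 := by
      change (u :: List.replicate (6 * n + 1) 0).length = _
      rw [List.length_cons, List.length_replicate]
    rw [e'] at h
    exact h
  have r9 : Run Φ (.ask 3)
      (stt (w :: l) (u :: l') [A] (u :: List.replicate (6 * n + 4) 0) [])
      (stt (w :: l) (u :: l') [A] [B] []) (6 * n + 5 + 1) := by
    have h := Run.ask (Φ := Φ) 3
      (stt (w :: l) (u :: l') [A] (u :: List.replicate (6 * n + 4) 0) [])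
    rw [stt3] at h
    have e' : ((stt (w :: l) (u :: l') [A] (u :: List.replicate (6 * n + 4) 0) []) 3).length =
        6 * n + 5 := by
      change (u :: List.replicate (6 * n + 4) 0).length = _
      rw [List.length_cons, List.length_replicate]
    rw [e'] at h
    exact h
  have r10 : Run Φ (.copy 0 3) (stt (w :: l) (u :: l') [A] [B] [])
      (stt (w :: l) (u :: l') [A] [w, B] []) 1 := by
    have h := Run.copy (Φ := Φ) 0 3 (stt (w :: l) (u :: l') [A] [B] [])
    rw [stt3] at h
    exact h
  have r11 : Run Φ (.sub 3) (stt (w :: l) (u :: l') [A] [w, B] [])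
      (stt (w :: l) (u :: l') [A] [w - B] []) 1 := by
    have h := Run.sub (Φ := Φ) 3 (stt (w :: l) (u :: l') [A] [w, B] [])
    rw [stt3] at h
    exact h
  have hfin : ∃ (σ : St) (t : ℕ),
      Run Φ (.ifz 2 (.ifz 3 (.push 0 1) (.push 0 0)) (.push 0 0))
        (stt (w :: l) (u :: l') [A] [w - B] []) σ t ∧ t ≤ 3 ∧
      (Acc σ ↔ A = 0 ∧ B = w) := by
    have hp : ∀ c : ℂ, Run Φ (.push 0 c) (stt (w :: l) (u :: l') [A] [w - B] [])
        (stt (c :: w :: l) (u :: l') [A] [w - B] []) 1 := by
      intro c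
      have h := Run.push (Φ := Φ) 0 c (stt (w :: l) (u :: l') [A] [w - B] [])
      rw [stt0] at h
      exact h
    by_cases hA0 : A = 0
    · by_cases hBw : B = w
      · refine ⟨_, _, Run.ifz_true ?_ (Run.ifz_true ?_ (hp 1)), by omega, ?_⟩
        · simp [stt, hA0]
        · simp [stt, hBw]
        · simp [Acc, stt, hA0, hBw]
      · refine ⟨_, _, Run.ifz_true ?_ (Run.ifz_false ?_ (hp 0)), by omega, ?_⟩
        · simp [stt, hA0]
        · have : w - B ≠ 0 := fun h => hBw (sub_eq_zero.1 h).symm
          simpa [stt] using this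
        · simp [Acc, stt, hBw]
    · refine ⟨_, _, Run.ifz_false ?_ (hp 0), by omega, ?_⟩
      · simpa [stt] using hA0
      · simp [Acc, stt, hA0]
  obtain ⟨σ, t, hr, ht, hacc⟩ := hfin
  have hall := Run.ifn_false (i := 0) (p := .push 0 0)
    (σ := stt (w :: l) (u :: l') [] [] []) (by simp [stt])
    (Run.ifn_false (i := 1) (p := .push 0 0) (by simp [stt])
      (Run.seq r1 (Run.seq r2 (Run.seq r3 (Run.seq r4 (Run.seq r5 (Run.seq r6
        (Run.seq r7 (Run.seq r8 (Run.seq r9 (Run.seq r10 (Run.seq r11 hr))))))))))))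
  rw [stt_inp]
  exact ⟨σ, _, hall, by omega, hacc⟩

private theorem vf_nil0 (Φ : Orc) (y : List ℂ) :
    Run Φ vf (inp [] y) (upd (inp [] y) 0 (0 :: inp [] y 0)) (1 + 1) :=
  Run.ifn_true rfl (Run.push 0 0 _)

private theorem vf_nil1 (Φ : Orc) (x : List ℂ) (hx : x ≠ []) :
    Run Φ vf (inp x []) (upd (inp x []) 0 (0 :: inp x [] 0)) (1 + 1 + 1) :=
  Run.ifn_false hx (Run.ifn_true rfl (Run.push 0 0 _))

private theorem not_acc (σ : St) (l : List ℂ) : ¬ Acc (upd σ 0 (0 :: l)) := by
  simp [Acc, upd]

theorem bset_np (Φ : Orc) : InNP Φ (Bset Φ) := by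
  refine ⟨vf, 5, ?_, ?_⟩
  · intro x y
    rcases x with _ | ⟨w, l⟩
    · refine ⟨_, _, vf_nil0 Φ y, ?_⟩
      have : 2 ^ 5 ≤ (([] : List ℂ).length + y.length + 2) ^ 5 :=
        Nat.pow_le_pow_left (by omega) 5
      omega
    · rcases y with _ | ⟨u, l'⟩
      · refine ⟨_, _, vf_nil1 Φ (w :: l) (by simp), ?_⟩
        have : 2 ^ 5 ≤ ((w :: l).length + ([] : List ℂ).length + 2) ^ 5 :=
          Nat.pow_le_pow_left (by omega) 5
        omega
      · obtain ⟨σ, t, hr, ht, _⟩ := vf_run Φ w u l l'
        refine ⟨σ, t, hr, ht.trans ?_⟩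
        have h1 : (w :: l).length + 3 ≤ (w :: l).length + (u :: l').length + 2 := by
          simp only [List.length_cons]
          omega
        have h2 : ((w :: l).length + 3) ^ 5 ≤ ((w :: l).length + (u :: l').length + 2) ^ 5 :=
          Nat.pow_le_pow_left h1 5
        have h3 : 3 ^ 4 ≤ ((w :: l).length + 3) ^ 4 := Nat.pow_le_pow_left (by omega) 4
        have h4 : ((w :: l).length + 3) ^ 5 = ((w :: l).length + 3) ^ 4 * ((w :: l).length + 3) :=
          pow_succ _ _
        have h5 : 3 ^ 4 * ((w :: l).length + 3) ≤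
            ((w :: l).length + 3) ^ 4 * ((w :: l).length + 3) := Nat.mul_le_mul_right _ h3
        omega
  · intro x
    constructor
    · rintro ⟨w, l, u, rfl, h1, h2⟩
      obtain ⟨σ, t, hr, _, hacc⟩ := vf_run Φ w u l []
      refine ⟨[u], σ, t, ?_, hr, hacc.2 ⟨h1, h2⟩⟩
      have : 2 ^ 5 ≤ ((w :: l).length + 2) ^ 5 := Nat.pow_le_pow_left (by omega) 5
      have h3 : ([u] : List ℂ).length = 1 := rfl
      omega
    · rintro ⟨y, σ, t, _, hr, ha⟩
      rcases x with _ | ⟨w, l⟩
      · exfalso
        rw [(run_det hr (vf_nil0 Φ y)).1] at ha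
        exact not_acc _ _ ha
      · rcases y with _ | ⟨u, l'⟩
        · exfalso
          rw [(run_det hr (vf_nil1 Φ (w :: l) (by simp))).1] at ha
          exact not_acc _ _ ha
        · obtain ⟨σ', t', hr', _, hacc⟩ := vf_run Φ w u l l'
          rw [(run_det hr hr').1] at ha
          obtain ⟨h1, h2⟩ := hacc.1 ha
          exact ⟨w, l, u, rfl, h1, h2⟩

end VRB
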