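import Pool.Agent.VRB.TDef
import Pool.Agent.VRB.TDk
import Pool.Agent.VRB.TAut

/-!
# VRB-TStep: one query

## Plan
Case `L` not one of the two levels: `Q' = Q`, `E' = E`, `θ' = θ`: the coefficients of `Φ L` are in `F ≤ E` and fixed.
Case `q = ⟨L, z⟩ ∈ Q`: the same by `anE`, `anT`.
Otherwise let `v = eval z (Φ L)`, `v' = eval (θ z) (Φ L)`, `k1`, `k2` = the queries `⟨6 n + 2, pt _ κ⟩`, `⟨6 n + 5, pt _ κ⟩`.
(1) `dd v - P q ∈ dK E` (`val`, coordinates of `z` in `E`). If `v` were algebraic over `E`, then `dd v ∈ dK E`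
(`dd_alg`), `P q ∈ dK E ≤ dK F ⊔ span {dd ξ} ⊔ span (P '' Q)` (`dE`), contradiction to `ind` with `S = insert q Q`
(coefficient `1` of `q ∉ Q`).
(2) `κ ∉ E.map θ`: otherwise `dd κ ∈ dK (E.map θ)`, so by `kap` and `dE'`:
`P k1 ∈ dK F ⊔ span {dd ω} ⊔ span (P '' θ Q)`; insert `omg`: with a coefficient `y` of `dd ω` the coefficient of `P k2`
is `-y`, and `k2 ∉ θ Q` (`nk`), so `y = 0` by `ind` for `S = {k1, k2} ∪ θ Q` (cardinality `≤ Q.card + 2`); then the
coefficient of `P k1` is `1`: contradiction. (3) So `θ z ≠ pt κ` (`L ≥ 1`, coordinate `0`): `θ q ≠ k1, k2`.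
(4) `dd v' - P (θ q) ∈ dK (E.map θ)`. If `v'` were algebraic over `E.map θ` then `P (θ q)` would be in
`dK F ⊔ span {dd ω} ⊔ span (P '' θ Q)`: contradiction to `ind` for `S = {k1, k2, θ q} ∪ θ Q`, coefficient `1` of `θ q`
(`θ q ∉ θ Q` since `θ` is injective), cardinality `≤ Q.card + 3`.
(5) `aut_ext`: `θ'` with `θ' = θ` on `E`, `θ' v = v'`. `E'` = closure of `E ∪ {v}` (countable), `Q' = insert q Q`.
`dE`: `dK_closure`, `dd v ∈ P q + dK E`. `dE'`: `E'.map θ'` = closure of `(E.map θ) ∪ {v'}` (the image of a closure,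
`RingHom.map_field_closure`), `dd v' ∈ P (θ q) + dK (E.map θ)`. `qmap θ' q = qmap θ q` for all queries with
coordinates in `E`.
-/

namespace VRB

open MvPolynomial

private theorem tstep_mem {A : Submodule ℂ Om} {w y : Om} {P : Qr → Om} {S : Finset Qr}
    (h : y ∈ A ⊔ Submodule.span ℂ {w} ⊔ Submodule.span ℂ (P '' (S : Set Qr))) :
    ∃ (x : ℂ) (c : Qr → ℂ), y - x • w - ∑ q ∈ S, c q • P q ∈ A := by
  obtain ⟨y1, h1, y2, h2, rfl⟩ := Submodule.mem_sup.1 h
  obtain ⟨y3, h3, y4, h4, rfl⟩ := Submodule.mem_sup.1 h1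
  obtain ⟨x, rfl⟩ := Submodule.mem_span_singleton.1 h4
  obtain ⟨c, rfl⟩ := (Submodule.mem_span_image_finset_iff_exists_fun ℂ).1 h2
  classical
  refine ⟨x, fun q => if h : q ∈ S then c ⟨q, h⟩ else 0, ?_⟩
  have h5 : ∑ i, c i • P ↑i = ∑ q ∈ S, (if h : q ∈ S then c ⟨q, h⟩ else 0) • P q := by
    rw [← Finset.sum_coe_sort S (fun q => (if h : q ∈ S then c ⟨q, h⟩ else 0) • P q)]
    refine Finset.sum_congr rfl fun i _ => ?_
    rw [dif_pos i.2]
  rw [h5]
  convert h3 using 1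
  abel

private theorem tstep_qmap_inj (θ : ℂ ≃+* ℂ) {p q : Qr} (h : qmap θ p = qmap θ q) : p = q := by
  obtain ⟨L, z⟩ := p
  obtain ⟨M, w⟩ := q
  have h1 : L = M := congrArg Sigma.fst h
  subst h1
  have h2 : (fun v => θ (z v)) = fun v => θ (w v) := by
    simpa [qmap] using h
  have h3 : z = w := by
    funext v
    exact θ.injective (congrFun h2 v)
  rw [h3]

private theorem tstep_qmap_congr {θ θ' : ℂ ≃+* ℂ} {E : Subfield ℂ} (h : ∀ x ∈ E, θ' x = θ x)
    {q : Qr} (hq : ∀ v, q.2 v ∈ E) : qmap θ' q = qmap θ q := by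
  obtain ⟨L, z⟩ := q
  have h2 : (fun v => θ' (z v)) = fun v => θ (z v) := by
    funext v
    exact h _ (hq v)
  change (⟨L, fun v => θ' (z v)⟩ : Qr) = ⟨L, fun v => θ (z v)⟩
  rw [h2]

private theorem tstep_pt {θ : ℂ ≃+* ℂ} {E : Subfield ℂ} {q : Qr} (hq : ∀ v, q.2 v ∈ E) {M : ℕ}
    (hM : 0 < M) {κ : ℂ} (h : qmap θ q = ⟨M, pt M κ⟩) : κ ∈ E.map (θ : ℂ →+* ℂ) := by
  obtain ⟨L, z⟩ := q
  have h1 : L = M := congrArg Sigma.fst h
  subst h1
  have h2 : (fun v => θ (z v)) = pt L κ := by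
    simpa [qmap] using h
  have h3 := congrFun h2 ⟨0, hM⟩
  simp only [pt] at h3
  rw [if_pos trivial] at h3
  rw [← h3]
  exact Subfield.mem_map.2 ⟨z ⟨0, hM⟩, hq _, rfl⟩

private theorem tstep_eval_mem {L : ℕ} {F E : Subfield ℂ} (hFE : F ≤ E)
    {G : MvPolynomial (Fin L) ℂ} (hG : CoefIn F G) {z : Fin L → ℂ} (hz : ∀ v, z v ∈ E) :
    eval z G ∈ E := by
  rw [MvPolynomial.eval_eq']
  refine sum_mem fun m _ => mul_mem (hFE (hG m)) (prod_mem fun v _ => pow_mem (hz v) _)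

private theorem tstep_eval_fix {L : ℕ} {F : Subfield ℂ} {θ : ℂ ≃+* ℂ} (hθ : ∀ x ∈ F, θ x = x)
    {G : MvPolynomial (Fin L) ℂ} (hG : CoefIn F G) (z : Fin L → ℂ) :
    θ (eval z G) = eval (fun v => θ (z v)) G := by
  rw [MvPolynomial.eval_eq', MvPolynomial.eval_eq', map_sum]
  refine Finset.sum_congr rfl fun m _ => ?_
  rw [map_mul, map_prod, hθ _ (hG m)]
  simp only [map_pow]

private theorem tstep_closure_ctb {E : Subfield ℂ} (hE : (E : Set ℂ).Countable) (v : ℂ) :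
    ((Subfield.closure ((E : Set ℂ) ∪ {v}) : Subfield ℂ) : Set ℂ).Countable := by
  obtain ⟨K, h1, h2, h3⟩ := field_ext E hE {v} (Set.countable_singleton v)
  refine h3.mono ?_
  have : Subfield.closure ((E : Set ℂ) ∪ {v}) ≤ K :=
    Subfield.closure_le.2 (Set.union_subset h1 h2)
  exact this

private theorem tstep_map_closure {E : Subfield ℂ} {θ θ' : ℂ ≃+* ℂ} (h : ∀ x ∈ E, θ' x = θ x)
    {v v' : ℂ} (hv : θ' v = v') :
    (Subfield.closure ((E : Set ℂ) ∪ {v})).map (θ' : ℂ →+* ℂ) =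
      Subfield.closure (((E.map (θ : ℂ →+* ℂ) : Subfield ℂ) : Set ℂ) ∪ {v'}) := by
  rw [RingHom.map_field_closure, Set.image_union, Set.image_singleton]
  congr 2
  · rw [Subfield.coe_map]
    apply Set.image_congr
    intro x hx
    exact h x hx
  · have : (θ' : ℂ →+* ℂ) v = v' := hv
    rw [this]

/-- the differential of the answer for a new query -/
private theorem tstep_val {Φ : Orc} {n : ℕ} {P : Qr → Om}
    (hval : ∀ q : Qr, (q.1 = 6 * n + 2 ∨ q.1 = 6 * n + 5) →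
    dd (eval q.2 (Φ q.1)) - P q ∈ Submodule.span ℂ (Set.range fun v => dd (q.2 v)))
    {q : Qr} (hq : q.1 = 6 * n + 2 ∨ q.1 = 6 * n + 5) {K : Subfield ℂ} (hK : ∀ v, q.2 v ∈ K) :
    dd (eval q.2 (Φ q.1)) - P q ∈ dK K := by
  refine (Submodule.span_le.2 ?_) (hval q hq)
  rintro _ ⟨v, rfl⟩
  exact dd_mem (hK v)

open Classical in
private theorem tstep_src {Φ : Orc} {F : Subfield ℂ} {n R T : ℕ} {P : Qr → Om} {ξ ω κ : ℂ}
    (hC : Cmp Φ F n R T P ξ ω κ) {Q : Finset Qr} {E : Subfield ℂ} {θ : ℂ ≃+* ℂ}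
    (hI : Inv Φ F n P ξ ω κ Q E θ) {q : Qr} (hlev : q.1 = 6 * n + 2 ∨ q.1 = 6 * n + 5)
    (hq : q ∉ Q) (hR : Q.card + 3 ≤ R) : P q ∉ dK E := by
  intro hmem
  obtain ⟨x, c, hc⟩ := tstep_mem (hI.dE hmem)
  have key := hC.ind (insert q Q) (-x) (fun p => if p = q then 1 else - c p)
    ((Finset.card_insert_le _ _).trans (by omega)) ?_ ?_
  · have := key.2 q (Finset.mem_insert_self _ _)
    simp at this
  · intro p hp
    rcases Finset.mem_insert.1 hp with rfl | hp
    · exact hlev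
    · exact hI.lev p hp
  · rw [Finset.sum_insert hq]
    have h1 : ∑ p ∈ Q, (if p = q then (1 : ℂ) else - c p) • P p = - ∑ p ∈ Q, c p • P p := by
      rw [← Finset.sum_neg_distrib]
      refine Finset.sum_congr rfl fun p hp => ?_
      rw [if_neg (fun h : p = q => hq (h ▸ hp)), neg_smul]
    rw [h1, if_pos rfl, one_smul, neg_smul]
    convert hc using 1
    abel

open Classical in
private theorem tstep_tgt {Φ : Orc} {F : Subfield ℂ} {n R T : ℕ} {P : Qr → Om} {ξ ω κ : ℂ}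
    (hC : Cmp Φ F n R T P ξ ω κ) {Q : Finset Qr} {E : Subfield ℂ} {θ : ℂ ≃+* ℂ}
    (hI : Inv Φ F n P ξ ω κ Q E θ) (hR : Q.card + 3 ≤ R) :
    κ ∉ E.map (θ : ℂ →+* ℂ) := by
  intro hκ
  obtain ⟨r, hr, hκr⟩ := hC.kap
  obtain ⟨s, hs⟩ := hC.omg
  set k1 : Qr := ⟨6 * n + 2, pt (6 * n + 2) κ⟩ with hk1
  set k2 : Qr := ⟨6 * n + 5, pt (6 * n + 5) κ⟩ with hk2
  have h12 : k1 ≠ k2 := by
    intro h
    have : 6 * n + 2 = 6 * n + 5 := congrArg Sigma.fst h
    omega
  have hm : P k1 ∈ dK F ⊔ Submodule.span ℂ {dd ω} ⊔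
      Submodule.span ℂ (P '' ((Q.image (qmap θ) : Finset Qr) : Set Qr)) := by
    rw [Finset.coe_image]
    have h1 : P k1 = r⁻¹ • dd κ := by rw [hκr, smul_smul, inv_mul_cancel₀ hr, one_smul]
    rw [h1]
    exact Submodule.smul_mem _ _ (hI.dE' (dd_mem hκ))
  obtain ⟨y, c, hc⟩ := tstep_mem hm
  have n1 : k1 ∉ Q.image (qmap θ) := by
    intro h
    obtain ⟨p, hp, hpe⟩ := Finset.mem_image.1 h
    exact (hI.nk p hp).1 hpe
  have n2 : k2 ∉ Q.image (qmap θ) := by
    intro h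
    obtain ⟨p, hp, hpe⟩ := Finset.mem_image.1 h
    exact (hI.nk p hp).2 hpe
  have n3 : k1 ∉ insert k2 (Q.image (qmap θ)) := by
    intro h
    rcases Finset.mem_insert.1 h with h | h
    · exact h12 h
    · exact n1 h
  have key := hC.ind (insert k1 (insert k2 (Q.image (qmap θ)))) 0
    (fun p => if p = k1 then 1 - y * s else if p = k2 then - y else - c p) ?_ ?_ ?_
  · have e1 := key.2 k1 (Finset.mem_insert_self _ _)
    have e2 := key.2 k2 (Finset.mem_insert_of_mem (Finset.mem_insert_self _ _))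
    simp only [if_true] at e1
    rw [if_neg h12.symm, if_pos rfl] at e2
    have hy : y = 0 := by simpa using e2
    rw [hy] at e1
    simp at e1
  · have a1 := Finset.card_insert_le k1 (insert k2 (Q.image (qmap θ)))
    have a2 := Finset.card_insert_le k2 (Q.image (qmap θ))
    have a3 := Finset.card_image_le (s := Q) (f := qmap θ)
    omega
  · intro p hp
    rcases Finset.mem_insert.1 hp with rfl | hp
    · exact Or.inl rfl
    rcases Finset.mem_insert.1 hp with rfl | hp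
    · exact Or.inr rfl
    obtain ⟨p', hp', rfl⟩ := Finset.mem_image.1 hp
    exact hI.lev p' hp'
  · rw [Finset.sum_insert n3, Finset.sum_insert n2]
    have h1 : ∑ p ∈ Q.image (qmap θ), (if p = k1 then 1 - y * s else if p = k2 then - y else
        - c p) • P p = - ∑ p ∈ Q.image (qmap θ), c p • P p := by
      rw [← Finset.sum_neg_distrib]
      refine Finset.sum_congr rfl fun p hp => ?_
      rw [if_neg (fun h : p = k1 => n1 (h ▸ hp)), if_neg (fun h : p = k2 => n2 (h ▸ hp)),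
        neg_smul]
    rw [h1, if_pos rfl, if_neg h12.symm, if_pos rfl, zero_smul]
    convert hc using 1
    rw [hs, smul_add, smul_smul, sub_smul, one_smul, neg_smul]
    abel

open Classical in
private theorem tstep_tgt2 {Φ : Orc} {F : Subfield ℂ} {n R T : ℕ} {P : Qr → Om} {ξ ω κ : ℂ}
    (hC : Cmp Φ F n R T P ξ ω κ) {Q : Finset Qr} {E : Subfield ℂ} {θ : ℂ ≃+* ℂ}
    (hI : Inv Φ F n P ξ ω κ Q E θ) {q : Qr} (hlev : q.1 = 6 * n + 2 ∨ q.1 = 6 * n + 5)
    (hz : ∀ v, q.2 v ∈ E)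
    (hq : q ∉ Q) (hR : Q.card + 3 ≤ R) : P (qmap θ q) ∉ dK (E.map (θ : ℂ →+* ℂ)) := by
  intro hmem
  have hκ := tstep_tgt hC hI hR
  obtain ⟨s, hs⟩ := hC.omg
  set k1 : Qr := ⟨6 * n + 2, pt (6 * n + 2) κ⟩ with hk1
  set k2 : Qr := ⟨6 * n + 5, pt (6 * n + 5) κ⟩ with hk2
  have h12 : k1 ≠ k2 := by
    intro h
    have : 6 * n + 2 = 6 * n + 5 := congrArg Sigma.fst h
    omega
  have hm : P (qmap θ q) ∈ dK F ⊔ Submodule.span ℂ {dd ω} ⊔
      Submodule.span ℂ (P '' ((Q.image (qmap θ) : Finset Qr) : Set Qr)) := by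
    rw [Finset.coe_image]
    exact hI.dE' hmem
  obtain ⟨y, c, hc⟩ := tstep_mem hm
  have m1 : qmap θ q ≠ k1 := fun h => hκ (tstep_pt hz (by omega) h)
  have m2 : qmap θ q ≠ k2 := fun h => hκ (tstep_pt hz (by omega) h)
  have n0 : qmap θ q ∉ Q.image (qmap θ) := by
    intro h
    obtain ⟨p, hp, hpe⟩ := Finset.mem_image.1 h
    exact hq (tstep_qmap_inj θ hpe ▸ hp)
  have n1 : k1 ∉ Q.image (qmap θ) := by
    intro h
    obtain ⟨p, hp, hpe⟩ := Finset.mem_image.1 h
    exact (hI.nk p hp).1 hpe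
  have n2 : k2 ∉ Q.image (qmap θ) := by
    intro h
    obtain ⟨p, hp, hpe⟩ := Finset.mem_image.1 h
    exact (hI.nk p hp).2 hpe
  have n4 : k2 ∉ insert (qmap θ q) (Q.image (qmap θ)) := by
    intro h
    rcases Finset.mem_insert.1 h with h | h
    · exact m2 h.symm
    · exact n2 h
  have n3 : k1 ∉ insert k2 (insert (qmap θ q) (Q.image (qmap θ))) := by
    intro h
    rcases Finset.mem_insert.1 h with h | h
    · exact h12 h
    rcases Finset.mem_insert.1 h with h | h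
    · exact m1 h.symm
    · exact n1 h
  have key := hC.ind (insert k1 (insert k2 (insert (qmap θ q) (Q.image (qmap θ))))) 0
    (fun p => if p = qmap θ q then 1 else if p = k1 then - (y * s) else if p = k2 then - y else
      - c p) ?_ ?_ ?_
  · have e1 := key.2 (qmap θ q) (Finset.mem_insert_of_mem (Finset.mem_insert_of_mem
      (Finset.mem_insert_self _ _)))
    simp at e1
  · have a1 := Finset.card_insert_le k1 (insert k2 (insert (qmap θ q) (Q.image (qmap θ))))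
    have a2 := Finset.card_insert_le k2 (insert (qmap θ q) (Q.image (qmap θ)))
    have a4 := Finset.card_insert_le (qmap θ q) (Q.image (qmap θ))
    have a3 := Finset.card_image_le (s := Q) (f := qmap θ)
    omega
  · intro p hp
    rcases Finset.mem_insert.1 hp with rfl | hp
    · exact Or.inl rfl
    rcases Finset.mem_insert.1 hp with rfl | hp
    · exact Or.inr rfl
    rcases Finset.mem_insert.1 hp with rfl | hp
    · exact hlev
    obtain ⟨p', hp', rfl⟩ := Finset.mem_image.1 hp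
    exact hI.lev p' hp'
  · rw [Finset.sum_insert n3, Finset.sum_insert n4, Finset.sum_insert n0]
    have h1 : ∑ p ∈ Q.image (qmap θ), (if p = qmap θ q then 1 else if p = k1 then - (y * s) else
        if p = k2 then - y else - c p) • P p = - ∑ p ∈ Q.image (qmap θ), c p • P p := by
      rw [← Finset.sum_neg_distrib]
      refine Finset.sum_congr rfl fun p hp => ?_
      rw [if_neg (fun h : p = qmap θ q => n0 (h ▸ hp)), if_neg (fun h : p = k1 => n1 (h ▸ hp)),
        if_neg (fun h : p = k2 => n2 (h ▸ hp)), neg_smul]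
    rw [h1, if_neg m1.symm, if_pos rfl, if_neg m2.symm, if_neg h12.symm, if_pos rfl, if_pos rfl,
      zero_smul]
    convert hc using 1
    rw [hs, smul_add, smul_smul, one_smul, neg_smul, neg_smul]
    abel

theorem step {Φ : Orc} {F : Subfield ℂ} {n R T : ℕ} {P : Qr → Om} {ξ ω κ : ℂ}
    (hC : Cmp Φ F n R T P ξ ω κ) {Q : Finset Qr} {E : Subfield ℂ} {θ : ℂ ≃+* ℂ}
    (hI : Inv Φ F n P ξ ω κ Q E θ) {L : ℕ} (hL : L ≤ T) (z : Fin L → ℂ) (hz : ∀ v, z v ∈ E)
    (hQ : Q.card + 3 ≤ R) :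
    ∃ (Q' : Finset Qr) (E' : Subfield ℂ) (θ' : ℂ ≃+* ℂ), Inv Φ F n P ξ ω κ Q' E' θ' ∧
      Q'.card ≤ Q.card + 1 ∧ E ≤ E' ∧ (∀ x ∈ E, θ' x = θ x) ∧ eval z (Φ L) ∈ E' ∧
      θ' (eval z (Φ L)) = eval (fun v => θ (z v)) (Φ L) := by
  classical
  by_cases hlev : L = 6 * n + 2 ∨ L = 6 * n + 5
  swap
  · have hco : CoefIn F (Φ L) := hC.low L hL (fun h => hlev (Or.inl h)) (fun h => hlev (Or.inr h))
    exact ⟨Q, E, θ, hI, by omega, le_rfl, fun _ _ => rfl, tstep_eval_mem hI.fld hco hz,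
      tstep_eval_fix hI.fix hco z⟩
  by_cases hq : (⟨L, z⟩ : Qr) ∈ Q
  · exact ⟨Q, E, θ, hI, by omega, le_rfl, fun _ _ => rfl, hI.anE _ hq, hI.anT _ hq⟩
  have hz' : ∀ v, (fun v => θ (z v)) v ∈ E.map (θ : ℂ →+* ℂ) := fun v =>
    Subfield.mem_map.2 ⟨z v, hz v, rfl⟩
  have hd : dd (eval z (Φ L)) - P ⟨L, z⟩ ∈ dK E := tstep_val hC.val (q := ⟨L, z⟩) hlev hz
  have hd' : dd (eval (fun v => θ (z v)) (Φ L)) - P (qmap θ ⟨L, z⟩) ∈
      dK (E.map (θ : ℂ →+* ℂ)) := tstep_val hC.val (q := qmap θ ⟨L, z⟩) hlev hz'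
  have hs := tstep_src hC hI (q := ⟨L, z⟩) hlev hq hQ
  have ht := tstep_tgt2 hC hI (q := ⟨L, z⟩) hlev hz hq hQ
  have hκ := tstep_tgt hC hI hQ
  have hv : Transcendental E (eval z (Φ L)) := by
    apply trans_of
    intro h
    apply hs
    have := Submodule.sub_mem _ h hd
    simpa using this
  have hv' : Transcendental (E.map (θ : ℂ →+* ℂ)) (eval (fun v => θ (z v)) (Φ L)) := by
    apply trans_of
    intro h
    apply ht
    have := Submodule.sub_mem _ h hd'
    simpa using this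
  obtain ⟨θ', hθ', hθv⟩ := aut_ext θ hv hv'
  have hE : E ≤ Subfield.closure ((E : Set ℂ) ∪ {eval z (Φ L)}) := fun x hx =>
    Subfield.subset_closure (Or.inl hx)
  have hvE : eval z (Φ L) ∈ Subfield.closure ((E : Set ℂ) ∪ {eval z (Φ L)}) :=
    Subfield.subset_closure (Or.inr rfl)
  have hqe : qmap θ' ⟨L, z⟩ = qmap θ ⟨L, z⟩ := tstep_qmap_congr (q := ⟨L, z⟩) hθ' hz
  have hqe' : ∀ p ∈ Q, qmap θ' p = qmap θ p := fun p hp => tstep_qmap_congr hθ' (hI.coo p hp)
  have himg : qmap θ' '' ((insert (⟨L, z⟩ : Qr) Q : Finset Qr) : Set Qr) =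
      insert (qmap θ ⟨L, z⟩) (qmap θ '' (Q : Set Qr)) := by
    rw [Finset.coe_insert, Set.image_insert_eq, hqe]
    congr 1
    exact Set.image_congr fun p hp => hqe' p hp
  refine ⟨insert ⟨L, z⟩ Q, Subfield.closure ((E : Set ℂ) ∪ {eval z (Φ L)}), θ',
    ?_, Finset.card_insert_le _ _, hE, hθ', hvE, hθv⟩
  constructor
  · intro p hp
    rcases Finset.mem_insert.1 hp with rfl | hp
    · exact hlev
    · exact hI.lev p hp
  · exact hI.fld.trans hE
  · exact tstep_closure_ctb hI.ctb _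
  · intro x hx
    rw [hθ' x (hI.fld hx), hI.fix x hx]
  · intro p hp v
    rcases Finset.mem_insert.1 hp with rfl | hp
    · exact hE (hz v)
    · exact hE (hI.coo p hp v)
  · intro p hp
    rcases Finset.mem_insert.1 hp with rfl | hp
    · exact hvE
    · exact hE (hI.anE p hp)
  · intro p hp
    rcases Finset.mem_insert.1 hp with rfl | hp
    · change θ' (eval z (Φ L)) = eval (fun v => θ' (z v)) (Φ L)
      rw [show (fun v => θ' (z v)) = fun v => θ (z v) from funext fun v => hθ' _ (hz v)]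
      exact hθv
    · change θ' (eval p.2 (Φ p.1)) = eval (fun v => θ' (p.2 v)) (Φ p.1)
      rw [show (fun v => θ' (p.2 v)) = fun v => θ (p.2 v) from
        funext fun v => hθ' _ (hI.coo p hp v), hθ' _ (hI.anE p hp)]
      exact hI.anT p hp
  · rw [dK_closure, Set.image_singleton]
    have hmono : Submodule.span ℂ (P '' (Q : Set Qr)) ≤
        Submodule.span ℂ (P '' ((insert (⟨L, z⟩ : Qr) Q : Finset Qr) : Set Qr)) := by
      apply Submodule.span_mono
      apply Set.image_mono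
      rw [Finset.coe_insert]
      exact Set.subset_insert _ _
    have hle : dK E ≤ dK F ⊔ Submodule.span ℂ {dd ξ} ⊔
        Submodule.span ℂ (P '' ((insert (⟨L, z⟩ : Qr) Q : Finset Qr) : Set Qr)) :=
      hI.dE.trans (sup_le_sup_left hmono _)
    refine sup_le hle ?_
    rw [Submodule.span_singleton_le_iff_mem]
    have h1 : dd (eval z (Φ L)) = (dd (eval z (Φ L)) - P ⟨L, z⟩) + P ⟨L, z⟩ := by abel
    rw [h1]
    refine Submodule.add_mem _ (hle hd) ?_
    apply Submodule.mem_sup_right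
    apply Submodule.subset_span
    exact ⟨⟨L, z⟩, by rw [Finset.coe_insert]; exact Set.mem_insert _ _, rfl⟩
  · rw [tstep_map_closure hθ' hθv, dK_closure, Set.image_singleton, himg]
    have hmono : Submodule.span ℂ (P '' (qmap θ '' (Q : Set Qr))) ≤
        Submodule.span ℂ (P '' (insert (qmap θ ⟨L, z⟩) (qmap θ '' (Q : Set Qr)))) := by
      apply Submodule.span_mono
      apply Set.image_mono
      exact Set.subset_insert _ _
    have hle : dK (E.map (θ : ℂ →+* ℂ)) ≤ dK F ⊔ Submodule.span ℂ {dd ω} ⊔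
        Submodule.span ℂ (P '' (insert (qmap θ ⟨L, z⟩) (qmap θ '' (Q : Set Qr)))) :=
      hI.dE'.trans (sup_le_sup_left hmono _)
    refine sup_le hle ?_
    rw [Submodule.span_singleton_le_iff_mem]
    have h1 : dd (eval (fun v => θ (z v)) (Φ L)) =
      (dd (eval (fun v => θ (z v)) (Φ L)) - P (qmap θ ⟨L, z⟩)) + P (qmap θ ⟨L, z⟩) := by abel
    rw [h1]
    refine Submodule.add_mem _ (hle hd') ?_
    apply Submodule.mem_sup_right
    apply Submodule.subset_span
    exact ⟨qmap θ ⟨L, z⟩, Set.mem_insert _ _, rfl⟩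
  · intro p hp
    rcases Finset.mem_insert.1 hp with rfl | hp
    · rw [hqe]
      exact ⟨fun h => hκ (tstep_pt (q := ⟨L, z⟩) hz (by omega) h),
        fun h => hκ (tstep_pt (q := ⟨L, z⟩) hz (by omega) h)⟩
    · rw [hqe' p hp]
      exact hI.nk p hp

end VRB
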