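import Pool.Agent.VRB.KsetCon
import Pool.Agent.VRB.ConChain
import Pool.Agent.VRB.AlgSets

/-!
# VRB-YsetAlg: the sets `Yset` are algebraic and local

`chn_spec`: the chain of algebraic sets of the constructible set `Kset Φ e n`. `yset_alg`: `Yset L Φ`
is a finite union of sets given by three equations and the preimage of a set `wst`. `kset_congr`,
`yset_congr`: these sets depend only on the lower levels of the oracle.
-/

namespace VRB

open MvPolynomial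

theorem chn_spec (Φ : Orc) (e n : ℕ) :
    (∀ i, IsAlg (chn (Kset Φ e n) i)) ∧ (∀ i, chn (Kset Φ e n) (i + 1) ⊆ chn (Kset Φ e n) i) ∧
      chn (Kset Φ e n) (mm e n + 2) = ∅ ∧
      ∀ i z, z ∉ chn (Kset Φ e n) i → (∀ j < i, z ∈ chn (Kset Φ e n) j) →
        (z ∈ Kset Φ e n ↔ Odd i) := by
  have h := con_chain (kset_con Φ e n)
  have hc : chn (Kset Φ e n) = Classical.choose h := by
    unfold chn
    rw [dif_pos h]
  rw [hc]
  exact Classical.choose_spec h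

private theorem ya_wst (Φ : Orc) (e n r : ℕ) : IsAlg (wst (Kset Φ e n) r) := by
  unfold wst
  split_ifs
  · exact (chn_spec Φ e n).1 _
  · exact isAlg_univ
  · exact (chn_spec Φ e n).1 _

private theorem ya_cell {L m : ℕ} (h : 3 + m ≤ L) (a b c : ℂ) {W : Set (Fin m → ℂ)}
    (hW : IsAlg W) :
    IsAlg {y : Fin L → ℂ | y ⟨0, by omega⟩ = a ∧ y ⟨1, by omega⟩ = b ∧ y ⟨2, by omega⟩ = c ∧
      (fun i : Fin m => y ⟨3 + i, by omega⟩) ∈ W} := by
  have h1 := isAlg_inter (isAlg_eq (X ⟨0, by omega⟩ - C a : MvPolynomial (Fin L) ℂ))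
    (isAlg_inter (isAlg_eq (X ⟨1, by omega⟩ - C b : MvPolynomial (Fin L) ℂ))
      (isAlg_inter (isAlg_eq (X ⟨2, by omega⟩ - C c : MvPolynomial (Fin L) ℂ))
        (isAlg_pre hW (fun i : Fin m => (X ⟨3 + i, by omega⟩ : MvPolynomial (Fin L) ℂ)))))
  convert h1 using 1
  ext y
  simp [sub_eq_zero]

theorem yset_alg (L : ℕ) (Φ : Orc) : IsAlg (Yset L Φ) := by
  have h1 := isAlg_finset (Finset.univ : Finset (Fin L × Fin L × Fin L))
    (fun p => {y : Fin L → ℂ | ∃ h : 3 + mm p.1 p.2.1 ≤ L, lb p.1 p.2.1 < L ∧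
      y ⟨0, by omega⟩ = ((p.1 : ℕ) : ℂ) ∧ y ⟨1, by omega⟩ = ((p.2.1 : ℕ) : ℂ) ∧
      y ⟨2, by omega⟩ = ((p.2.2 : ℕ) : ℂ) ∧
      (fun i : Fin (mm p.1 p.2.1) => y ⟨3 + i, by omega⟩) ∈
        wst (Kset Φ p.1 p.2.1) p.2.2}) (by
      intro p _
      by_cases h : 3 + mm p.1 p.2.1 ≤ L ∧ lb p.1 p.2.1 < L
      · have h2 := ya_cell h.1 ((p.1 : ℕ) : ℂ) ((p.2.1 : ℕ) : ℂ) ((p.2.2 : ℕ) : ℂ)
          (ya_wst Φ p.1 p.2.1 p.2.2)
        convert h2 using 1
        ext y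
        constructor
        · rintro ⟨_, _, h3⟩
          exact h3
        · intro h3
          exact ⟨h.1, h.2, h3⟩
      · convert isAlg_empty (m := L) using 1
        ext y
        simp only [Set.mem_setOf_eq, Set.mem_empty_iff_false, iff_false]
        rintro ⟨h3, h4, _⟩
        exact h ⟨h3, h4⟩)
  convert h1 using 1
  ext y
  constructor
  · rintro ⟨e, n, r, h3, hlb, he, hr, h0⟩
    have hn : n < L := by
      have h4 : n ≤ mm e n := Nat.le_add_right _ _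
      omega
    exact ⟨(⟨e, he⟩, ⟨n, hn⟩, ⟨r, hr⟩), Finset.mem_univ _, h3, hlb, h0⟩
  · rintro ⟨p, _, h3, hlb, h0⟩
    exact ⟨p.1, p.2.1, p.2.2, h3, hlb, p.1.2, p.2.2.2, h0⟩

private theorem ya_rset {Φ Φ' : Orc} {e n : ℕ} (h : ∀ L < lb e n, Φ L = Φ' L) :
    Rset Φ e n ⊆ Rset Φ' e n := by
  rintro z ⟨y, σ, t, hy, ht, hrun, hacc⟩
  refine ⟨y, σ, t, hy, ht, run_congr h (fun i => ?_) hrun, hacc⟩
  have h1 : n ≤ mm e n := Nat.le_add_right _ _
  have h2 : 0 < 2 * (mm e n + 3) ^ 2 := by positivity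
  have h3 : lb e n = mm e n + yb e n + tb e n + 2 * (mm e n + 3) ^ 2 := rfl
  generalize 2 * (mm e n + 3) ^ 2 = Q at h2 h3
  unfold inp
  split_ifs
  · rw [List.length_ofFn]
    omega
  · omega
  · rw [List.length_nil]
    omega

private theorem ya_gset {Φ Φ' : Orc} {e n : ℕ} (h : ∀ L < lb e n, Φ L = Φ' L) :
    Gset Φ n (mm e n) ⊆ Gset Φ' n (mm e n) := by
  rintro z ⟨n', hn, hz⟩
  refine ⟨n', hn, ?_⟩
  have h1 : n ≤ mm e n := Nat.le_add_right _ _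
  have h3 : lb e n = mm e n + yb e n + tb e n + 2 * (mm e n + 3) ^ 2 := rfl
  have h4 : 6 * n' + 1 < lb e n := by
    have : 6 * (mm e n) ≤ 2 * (mm e n + 3) ^ 2 := by nlinarith
    omega
  have h5 : fam Φ n' = fam Φ' n' := by
    unfold fam
    rw [h _ h4]
  rw [← h5]
  exact hz

private theorem ya_kset {Φ Φ' : Orc} {e n : ℕ} (h : ∀ L < lb e n, Φ L = Φ' L) :
    Kset Φ e n ⊆ Kset Φ' e n := by
  unfold Kset
  split_ifs
  · exact ya_gset h
  · exact ya_rset h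

theorem kset_congr {Φ Φ' : Orc} {e n : ℕ} (h : ∀ L < lb e n, Φ L = Φ' L) :
    Kset Φ e n = Kset Φ' e n :=
  Set.Subset.antisymm (ya_kset h) (ya_kset fun L hL => (h L hL).symm)

theorem yset_congr (L : ℕ) (Φ Φ' : Orc) (h : ∀ L' < L, Φ L' = Φ' L') : Yset L Φ = Yset L Φ' := by
  have key : ∀ Ψ Ψ' : Orc, (∀ L' < L, Ψ L' = Ψ' L') → Yset L Ψ ⊆ Yset L Ψ' := by
    rintro Ψ Ψ' hΨ y ⟨e, n, r, h3, hlb, he, hr, h0, h1, h2, hw⟩
    refine ⟨e, n, r, h3, hlb, he, hr, h0, h1, h2, ?_⟩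
    rw [← kset_congr (fun L' hL' => hΨ L' (hL'.trans hlb))]
    exact hw
  exact Set.Subset.antisymm (key _ _ h) (key _ _ fun L' hL' => (h L' hL').symm)

end VRB
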